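import Pool.Agent.Y501.SY.Stm

/-!
Finite sums of forms `f dg`.
-/

set_option autoImplicit false

open Set Filter Topology MeasureTheory
open scoped Manifold ContDiff

noncomputable section

namespace Pool.Agent.Y501.SY

section

variable {d : ℕ} {X : Type} [TopologicalSpace X] [ChartedSpace (E d) X]

theorem pb_add {k : ℕ} (φ : E d → X) (σ τ : Form d X k) : pb φ (σ + τ) = pb φ σ + pb φ τ := by
  funext p; rfl

theorem pb_smul {k : ℕ} (φ : E d → X) (c : ℝ) (σ : Form d X k) : pb φ (c • σ) = c • pb φ σ := by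
  funext p; rfl

theorem pb_zero {k : ℕ} (φ : E d → X) : pb φ (0 : Form d X k) = 0 := by
  funext p; rfl

theorem IsSmooth.zero {k : ℕ} : IsSmooth (0 : Form d X k) := by
  intro U φ _ _
  rw [pb_zero]
  exact contDiffOn_const

theorem IsSmooth.add {k : ℕ} {σ τ : Form d X k} (hσ : IsSmooth σ) (hτ : IsSmooth τ) :
    IsSmooth (σ + τ) := by
  intro U φ hU hφ
  rw [pb_add]
  exact (hσ U φ hU hφ).add (hτ U φ hU hφ)

theorem IsSmooth.smul {k : ℕ} {σ : Form d X k} (hσ : IsSmooth σ) (c : ℝ) :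
    IsSmooth (c • σ) := by
  intro U φ hU hφ
  rw [pb_smul]
  exact contDiffOn_const.smul (hσ U φ hU hφ)

theorem IsSmooth.sum {k : ℕ} {ι : Type} (s : Finset ι) {σ : ι → Form d X k}
    (hσ : ∀ i ∈ s, IsSmooth (σ i)) : IsSmooth (∑ i ∈ s, σ i) := by
  classical
  induction s using Finset.induction_on with
  | empty => simpa using IsSmooth.zero
  | insert a s ha ih =>
    rw [Finset.sum_insert ha]
    exact (hσ a (Finset.mem_insert_self a s)).add
      (ih fun i hi => hσ i (Finset.mem_insert_of_mem hi))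

theorem IsSmooth.diffAt {k : ℕ} {σ : Form d X k} (hσ : IsSmooth σ) {U : Set (E d)} {φ : E d → X}
    (hU : IsOpen U) (hφ : ContMDiffOn (𝓡 d) (𝓡 d) ∞ φ U) {p : E d} (hp : p ∈ U) :
    DifferentiableAt ℝ (pb φ σ) p :=
  ((hσ U φ hU hφ).contDiffAt (hU.mem_nhds hp)).differentiableAt (by simp)

theorem IsD.zero {k : ℕ} : IsD (0 : Form d X k) 0 := by
  intro U φ _ _ p _
  rw [pb_zero, pb_zero]
  have h := extDeriv_fun_smul (𝕜 := ℝ) (x := p) (0 : ℝ) (pb φ (0 : Form d X k))
  simp only [zero_smul] at h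
  exact h

theorem IsD.add {k : ℕ} {α β : Form d X k} {η ζ : Form d X (k + 1)} (hα : IsD α η)
    (hβ : IsD β ζ) (sα : IsSmooth α) (sβ : IsSmooth β) : IsD (α + β) (η + ζ) := by
  intro U φ hU hφ p hp
  rw [pb_add, pb_add, extDeriv_add (sα.diffAt hU hφ hp) (sβ.diffAt hU hφ hp),
    hα U φ hU hφ p hp, hβ U φ hU hφ p hp]
  rfl

theorem IsD.smul {k : ℕ} {α : Form d X k} {η : Form d X (k + 1)} (hα : IsD α η) (c : ℝ) :
    IsD (c • α) (c • η) := by
  intro U φ hU hφ p hp
  rw [pb_smul, pb_smul, extDeriv_smul, hα U φ hU hφ p hp]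
  rfl

theorem Pair.props (hG : S_GEN) [IsManifold (𝓡 d) ∞ X] {α : Form d X 1} {η : Form d X 2}
    (h : Pair α η) : IsSmooth α ∧ IsSmooth η ∧ IsD α η ∧ IsClosedForm η := by
  induction h with
  | zero => exact ⟨IsSmooth.zero, IsSmooth.zero, IsD.zero, IsD.zero⟩
  | gen f g hf hg =>
    obtain ⟨h1, h2, h3, h4⟩ := hG d X (fun _ => 1) f g contMDiff_const hf hg
    refine ⟨h1, ?_, h3, h4⟩
    have : hdfdg (d := d) (fun _ => (1 : ℝ)) f g = dfdg f g := by
      funext x; exact one_smul ℝ _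
    rwa [this] at h2
  | add α α' η η' _ _ ih ih' =>
    obtain ⟨h1, h2, h3, h4⟩ := ih
    obtain ⟨h1', h2', h3', h4'⟩ := ih'
    refine ⟨h1.add h1', h2.add h2', h3.add h3' h1 h1', ?_⟩
    have := h4.add h4' h2 h2'
    rwa [add_zero] at this

theorem Pair.sum {ι : Type} (s : Finset ι) {α : ι → Form d X 1} {η : ι → Form d X 2}
    (h : ∀ i ∈ s, Pair (α i) (η i)) : Pair (∑ i ∈ s, α i) (∑ i ∈ s, η i) := by
  classical
  induction s using Finset.induction_on with
  | empty => simpa using Pair.zero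
  | insert a s ha ih =>
    rw [Finset.sum_insert ha, Finset.sum_insert ha]
    exact Pair.add _ _ _ _ (h a (Finset.mem_insert_self a s))
      (ih fun i hi => h i (Finset.mem_insert_of_mem hi))

theorem SmoothFun.mdiff {f : X → ℝ} (hf : SmoothFun (d := d) f) (x : X) :
    MDifferentiableAt (𝓡 d) 𝓘(ℝ, ℝ) f x :=
  (hf x).mdifferentiableAt (by simp)

theorem dd_add {f g : X → ℝ} (hf : SmoothFun (d := d) f) (hg : SmoothFun (d := d) g) (x : X)
    (v : TangentSpace (𝓡 d) x) :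
    dd (d := d) (fun y => f y + g y) x v = dd f x v + dd g x v := by
  have h := ((hf.mdiff x).hasMFDerivAt.add (hg.mdiff x).hasMFDerivAt).mfderiv
  have h' := congrArg (fun L => L v) h
  exact h'

theorem dd_mul {f g : X → ℝ} (hf : SmoothFun (d := d) f) (hg : SmoothFun (d := d) g) (x : X)
    (v : TangentSpace (𝓡 d) x) :
    dd (d := d) (fun y => f y * g y) x v = f x * dd g x v + g x * dd f x v := by
  have h := ((hf.mdiff x).hasMFDerivAt.mul (hg.mdiff x).hasMFDerivAt).mfderiv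
  have h' := congrArg (fun L => L v) h
  refine h'.trans ?_
  rfl

theorem dfdg_apply (f g : X → ℝ) (x : X) (v w : TangentSpace (𝓡 d) x) :
    dfdg (d := d) f g x ![v, w] = dd f x v * dd g x w - dd f x w * dd g x v :=
  wedge_apply (V := E d) _ _ _

theorem hdfdg_apply (h f g : X → ℝ) (x : X) (v w : TangentSpace (𝓡 d) x) :
    hdfdg (d := d) h f g x ![v, w] = h x * (dd f x v * dd g x w - dd f x w * dd g x v) := by
  have := wedge_apply (V := E d) (dd f x) (dd g x) ![v, w]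
  exact congrArg (fun t => h x * t) this

theorem fdg_apply (f g : X → ℝ) (x : X) (v : TangentSpace (𝓡 d) x) :
    fdg (d := d) f g x ![v] = f x * dd g x v := rfl

theorem SmoothFun.mul {f g : X → ℝ} (hf : SmoothFun (d := d) f) (hg : SmoothFun (d := d) g) :
    SmoothFun (d := d) (fun x => f x * g x) := ContMDiff.mul hf hg

theorem SmoothFun.add {f g : X → ℝ} (hf : SmoothFun (d := d) f) (hg : SmoothFun (d := d) g) :
    SmoothFun (d := d) (fun x => f x + g x) := ContMDiff.add hf hg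

theorem SmoothFun.const (c : ℝ) : SmoothFun (d := d) (fun _ : X => c) := contMDiff_const

theorem SmoothFun.comp1 {P : ℝ → ℝ} (hP : ContDiff ℝ ∞ P) {f : X → ℝ}
    (hf : SmoothFun (d := d) f) : SmoothFun (d := d) (fun x => P (f x)) :=
  hP.contMDiff.comp hf

theorem SmoothFun.comp2 {Q : ℝ × ℝ → ℝ} (hQ : ContDiff ℝ ∞ Q) {f g : X → ℝ}
    (hf : SmoothFun (d := d) f) (hg : SmoothFun (d := d) g) :
    SmoothFun (d := d) (fun x => Q (f x, g x)) :=
  hQ.contMDiff.comp (hf.prodMk_space hg)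

theorem dd_comp1 {P : ℝ → ℝ} (hP : ContDiff ℝ ∞ P) {f : X → ℝ}
    (hf : SmoothFun (d := d) f) (x : X) (v : TangentSpace (𝓡 d) x) :
    dd (d := d) (fun y => P (f y)) x v = deriv P (f x) * dd f x v := by
  have hd : DifferentiableAt ℝ P (f x) := (hP.differentiable (by simp)) _
  have h1 : HasMFDerivAt 𝓘(ℝ, ℝ) 𝓘(ℝ, ℝ) P (f x) (fderiv ℝ P (f x)) :=
    hd.hasFDerivAt.hasMFDerivAt
  have h2 := (h1.comp x (hf.mdiff x).hasMFDerivAt).mfderiv
  have h3 := congrArg (fun L => L v) h2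
  refine Eq.trans h3 ?_
  change fderiv ℝ P (f x) (dd f x v) = _
  rw [fderiv_eq_smul_deriv, smul_eq_mul, mul_comm]

theorem dd_comp2 {Q : ℝ × ℝ → ℝ} (hQ : ContDiff ℝ ∞ Q) {f g : X → ℝ}
    (hf : SmoothFun (d := d) f) (hg : SmoothFun (d := d) g) (x : X)
    (v : TangentSpace (𝓡 d) x) :
    dd (d := d) (fun y => Q (f y, g y)) x v =
      fderiv ℝ Q (f x, g x) ((1, 0) : ℝ × ℝ) * dd f x v +
        fderiv ℝ Q (f x, g x) ((0, 1) : ℝ × ℝ) * dd g x v := by
  have hd : DifferentiableAt ℝ Q (f x, g x) := (hQ.differentiable (by simp)) _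
  have h1 : HasMFDerivAt 𝓘(ℝ, ℝ × ℝ) 𝓘(ℝ, ℝ) Q (f x, g x) (fderiv ℝ Q (f x, g x)) :=
    hd.hasFDerivAt.hasMFDerivAt
  have hf' := (hf.mdiff x).hasMFDerivAt
  have hg' := (hg.mdiff x).hasMFDerivAt
  have h0 : HasMFDerivAt (𝓡 d) 𝓘(ℝ, ℝ × ℝ) (fun y => (f y, g y)) x
      (ContinuousLinearMap.prod (M₁ := E d) (dd (d := d) f x) (dd (d := d) g x)) :=
    ⟨hf'.1.prodMk hg'.1, hf'.2.prodMk hg'.2⟩
  have h2 := (h1.comp x h0).mfderiv
  have h3 := congrArg (fun L => L v) h2
  refine Eq.trans h3 ?_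
  change fderiv ℝ Q (f x, g x) ((dd f x v, dd g x v) : ℝ × ℝ) = _
  have h4 : ((dd (d := d) f x v, dd (d := d) g x v) : ℝ × ℝ) =
      (dd (d := d) f x v) • ((1, 0) : ℝ × ℝ) + (dd (d := d) g x v) • ((0, 1) : ℝ × ℝ) := by
    ext <;> simp
  rw [h4, map_add, map_smul, map_smul, smul_eq_mul, smul_eq_mul]
  ring

/-- product rule -/
theorem Pair.smulFun {α : Form d X 1} {η : Form d X 2} (h : Pair α η) {u : X → ℝ}
    (hu : SmoothFun (d := d) u) : ∃ (α' : Form d X 1) (η' : Form d X 2), Pair α' η' ∧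
      (∀ x (v : TangentSpace (𝓡 d) x), α' x ![v] = u x * α x ![v]) ∧
      ∀ x (v w : TangentSpace (𝓡 d) x), η' x ![v, w] = u x * η x ![v, w] +
        (dd u x v * α x ![w] - dd u x w * α x ![v]) := by
  induction h with
  | zero =>
    refine ⟨0, 0, Pair.zero, fun x v => ?_, fun x v w => ?_⟩
    · simp
    · simp
  | gen f g hf hg =>
    refine ⟨fdg (fun x => u x * f x) g, dfdg (fun x => u x * f x) g,
      Pair.gen _ _ (hu.mul hf) hg, fun x v => ?_, fun x v w => ?_⟩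
    · rw [fdg_apply, fdg_apply]; ring
    · rw [dfdg_apply, dfdg_apply, fdg_apply, fdg_apply, dd_mul hu hf, dd_mul hu hf]
      ring
  | add α α' η η' _ _ ih ih' =>
    obtain ⟨α1, η1, h1, h2, h3⟩ := ih
    obtain ⟨α1', η1', h1', h2', h3'⟩ := ih'
    refine ⟨α1 + α1', η1 + η1', Pair.add _ _ _ _ h1 h1', fun x v => ?_, fun x v w => ?_⟩
    · have : (α1 + α1') x ![v] = α1 x ![v] + α1' x ![v] := rfl
      rw [this, h2, h2']
      have : (α + α') x ![v] = α x ![v] + α' x ![v] := rfl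
      rw [this]; ring
    · have : (η1 + η1') x ![v, w] = η1 x ![v, w] + η1' x ![v, w] := rfl
      rw [this, h3, h3']
      have : (η + η') x ![v, w] = η x ![v, w] + η' x ![v, w] := rfl
      rw [this]
      have : (α + α') x ![v] = α x ![v] + α' x ![v] := rfl
      rw [this]
      have : (α + α') x ![w] = α x ![w] + α' x ![w] := rfl
      rw [this]; ring

theorem sum_apply2 {ι : Type} (s : Finset ι) (η : ι → Form d X 2) (x : X)
    (m : Fin 2 → TangentSpace (𝓡 d) x) : (∑ i ∈ s, η i) x m = ∑ i ∈ s, η i x m := by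
  classical
  induction s using Finset.induction_on with
  | empty => simp
  | insert a s ha ih =>
    rw [Finset.sum_insert ha, Finset.sum_insert ha, ← ih]
    rfl

end

end Pool.Agent.Y501.SY
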