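import Pool.Agent.Y501.SY.Stm

/-!
Thin sets.
-/

set_option autoImplicit false

open Set Filter Topology MeasureTheory
open scoped Manifold ContDiff

noncomputable section

namespace Pool.Agent.Y501.SY

section

variable {d : ℕ} {X : Type} [TopologicalSpace X] [ChartedSpace (E d) X]

/-- `C` is thin at `z`, relative to a two-form `σ` and `J`: there are finitely many pairs
`(a, b)` of smooth functions on `X` such that each `(a, b)` maps a neighbourhood of `z` in `C`
onto a Lebesgue null set of the plane, and the sum of the forms `da ∧ db` is positive on all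
`(v, J v)` with `v` a nonzero tangent vector at `z` with `σ(v, J v) ≤ 0`. -/
def ThinAt (σ : Form d X 2) (J : End d X) (C : Set X) (z : X) : Prop :=
  ∃ (n : ℕ) (a b : Fin n → X → ℝ) (N : Set X), N ∈ 𝓝 z ∧ (∀ i, SmoothFun (d := d) (a i)) ∧
    (∀ i, SmoothFun (d := d) (b i)) ∧
    (∀ i, volume ((fun x => (a i x, b i x)) '' (C ∩ N)) = 0) ∧
    ∀ v : TangentSpace (𝓡 d) z, v ≠ 0 → σ z ![v, J z v] ≤ 0 →
      0 < (∑ i, dfdg (a i) (b i)) z ![v, J z v]

/-- The tangent vectors at `z` annihilated by the differentials of all smooth functions which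
vanish on `C`. -/
def ZT (C : Set X) (z : X) : Set (TangentSpace (𝓡 d) z) :=
  {v | ∀ g : X → ℝ, SmoothFun (d := d) g → (∀ x ∈ C, g x = 0) → dd g z v = 0}

end

/-- sets with totally real tangent spaces are thin -/
def S_TR : Prop := ∀ (d : ℕ) (X : Type) [TopologicalSpace X] [ChartedSpace (E d) X]
  [IsManifold (𝓡 d) ∞ X] [T2Space X] (J : End d X), IsAlmostComplex J →
  ∀ (σ : Form d X 2) (C : Set X) (z : X),
  (∀ v : TangentSpace (𝓡 d) z, v ∈ ZT (d := d) C z → J z v ∈ ZT (d := d) C z → v = 0) →
  ThinAt σ J C z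

/-- if the components of the set where `σ` does not tame `J` are thin then `σ` is weakly taming
everywhere -/
def S_INT : Prop := ∀ (d : ℕ) (X : Type) [TopologicalSpace X] [ChartedSpace (E d) X]
  [IsManifold (𝓡 d) ∞ X] [T2Space X] (J : End d X), IsAlmostComplex J →
  ∀ (σ : Form d X 2), IsSmooth σ →
  (∀ z : X, ¬ TamesAt σ J z →
    ThinAt σ J (connectedComponentIn {x | ¬ TamesAt σ J x} z) z) →
  ∀ (x : X) (v : TangentSpace (𝓡 d) x), 0 ≤ σ x ![v, J x v]

end Pool.Agent.Y501.SY
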