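import Pool.Agent.Y388.SY.Int

/-!
If `f` is constant in the non-positive directions and the components of the fibres of `f` on the
set where `σ` does not tame `J` are thin then `σ` is weakly taming everywhere.
-/

set_option autoImplicit false

open Set Filter Topology MeasureTheory
open scoped Manifold ContDiff

noncomputable section

namespace Pool.Agent.Y501.SY

open Pool.Agent.Y388.SY Pool.Agent.Y455.SY

theorem zero_of_cone {d m : ℕ} (L : E d →L[ℝ] E m) (q : E d → ℝ) (hq : Continuous q) (w : E d)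
    (hw : q w < 0) (h : ∀ u, q u < 0 → L u = 0) (u : E d) : L u = 0 := by
  have h1 : Continuous fun t : ℝ => q (w + t • u) := by fun_prop
  have h2 : ∀ᶠ t in 𝓝 (0 : ℝ), q (w + t • u) < 0 := by
    have : (fun t : ℝ => q (w + t • u)) 0 < 0 := by simpa using hw
    exact h1.continuousAt.eventually (gt_mem_nhds this)
  obtain ⟨ε, hε, hball⟩ := Metric.eventually_nhds_iff.1 h2
  have h3 := h _ (hball (y := ε / 2) (by
    rw [Real.dist_eq, sub_zero, abs_of_pos (half_pos hε)]; exact half_lt_self hε))
  rw [map_add, h w hw, zero_add, map_smul] at h3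
  exact (smul_eq_zero.1 h3).resolve_left (half_pos hε).ne'

theorem int2 {d m : ℕ} {X Y : Type} [TopologicalSpace X] [ChartedSpace (E d) X]
    [IsManifold (𝓡 d) ∞ X] [TopologicalSpace Y] [ChartedSpace (E m) Y] [IsManifold (𝓡 m) ∞ Y]
    {J : End d X} (hJ : IsAlmostComplex J) {σ : Form d X 2} (hσ : IsSmooth σ) {f : X → Y}
    (hf : ContMDiff (𝓡 d) (𝓡 m) ∞ f)
    (hker : ∀ (x : X) (v : TangentSpace (𝓡 d) x), σ x ![v, J x v] ≤ 0 →
      mfderiv (𝓡 d) (𝓡 m) f x v = 0)
    (hthin : ∀ z : X, ¬ TamesAt σ J z →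
      ThinAt σ J (connectedComponentIn ({x | ¬ TamesAt σ J x} ∩ f ⁻¹' {f z}) z) z)
    (x : X) (v : TangentSpace (𝓡 d) x) : 0 ≤ σ x ![v, J x v] := by
  set D : Set X := {x | ¬ TamesAt σ J x} with hD
  set c := chartAt (E d) x with hc
  have hxs : x ∈ c.source := mem_chart_source (E d) x
  have hcx : c x ∈ c.target := mem_chart_target (E d) x
  have hcont : ContinuousAt c.symm (c x) := c.continuousAt_symm hcx
  have hcc : c.symm (c x) = x := c.left_inv hxs
  have hQ : ∀ w : E d, 0 ≤ Q σ J x (c x) w := by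
    intro w
    by_contra hneg
    push Not at hneg
    have hQc : ∀ p ∈ c.target, Continuous fun u : E d => Q σ J x p u := by
      intro p hp
      rw [continuous_iff_continuousAt]
      intro u
      exact ContinuousAt.comp (f := fun u : E d => (p, u)) (x := u)
        (g := fun z : E d × E d => Q σ J x z.1 z.2) (Q_cont hσ hJ x hp)
        (continuousAt_const.prodMk continuousAt_id)
    have h1 : ContinuousAt (fun p : E d => Q σ J x p w) (c x) :=
      ContinuousAt.comp (f := fun p : E d => (p, w)) (x := c x)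
        (g := fun z : E d × E d => Q σ J x z.1 z.2) (Q_cont hσ hJ x hcx)
        (continuousAt_id.prodMk continuousAt_const)
    have h2 : ∀ᶠ p in 𝓝 (c x), Q σ J x p w < 0 := h1.eventually (gt_mem_nhds hneg)
    set c' := chartAt (E m) (f x) with hc'
    have h3 : ∀ᶠ p in 𝓝 (c x), f (c.symm p) ∈ c'.source := by
      have hfc : ContinuousAt (fun p => f (c.symm p)) (c x) :=
        ContinuousAt.comp (g := f) hf.continuous.continuousAt hcont
      apply hfc
      change c'.source ∈ 𝓝 (f (c.symm (c x)))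
      rw [hcc]
      exact c'.open_source.mem_nhds (mem_chart_source (E m) (f x))
    have h4 : ∀ᶠ p in 𝓝 (c x), p ∈ c.target := c.open_target.mem_nhds hcx
    obtain ⟨r, hr, hball⟩ := Metric.eventually_nhds_iff_ball.1 ((h2.and h3).and h4)
    have hw0 : ∀ p ∈ Metric.ball (c x) r, ¬ TamesAt σ J (c.symm p) := by
      intro p hp ht
      have hp4 := (hball p hp).2
      rw [tames_iff σ J x hp4] at ht
      have hneg' := (hball p hp).1.1
      by_cases hw : w = 0
      · rw [hw] at hneg'
        have h5 : Q σ J x p 0 = 0 := by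
          have := Q_smul σ J x p 0 0
          rw [smul_zero] at this
          rw [this]; ring
        rw [h5] at hneg'
        exact lt_irrefl _ hneg'
      · have := ht w hw
        linarith
    have hdf : ∀ p ∈ Metric.ball (c x) r, ∀ u : E d,
        mfderiv (𝓡 d) (𝓡 m) f (c.symm p) (A x p u) = 0 := by
      intro p hp u
      have hp4 := (hball p hp).2
      let L : E d →L[ℝ] E m := (mfderiv (𝓡 d) (𝓡 m) f (c.symm p)).comp (A x p)
      refine zero_of_cone L (fun u => Q σ J x p u) (hQc p hp4) w (hball p hp).1.1 ?_ u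
      intro u hu
      apply hker (c.symm p) (A x p u)
      have h5 := Q_eq σ J x hp4 u
      rw [← h5]
      exact hu.le
    have hconst : ∀ p ∈ Metric.ball (c x) r, f (c.symm p) = f x := by
      have hd : ∀ p ∈ Metric.ball (c x) r,
          HasFDerivAt (fun p => c' (f (c.symm p))) (0 : E d →L[ℝ] E m) p := by
        intro p hp
        have hp4 := (hball p hp).2
        have hp3 := (hball p hp).1.2
        have e1 : HasMFDerivAt (𝓡 d) (𝓡 d) c.symm p (mfderiv (𝓡 d) (𝓡 d) c.symm p) :=
          ((mdifferentiable_chart (I := 𝓡 d) x).symm.mdifferentiableAt hp4).hasMFDerivAt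
        have e2 : HasMFDerivAt (𝓡 d) (𝓡 m) f (c.symm p) (mfderiv (𝓡 d) (𝓡 m) f (c.symm p)) :=
          ((hf _).mdifferentiableAt (by simp)).hasMFDerivAt
        have e3 : HasMFDerivAt (𝓡 m) (𝓡 m) c' (f (c.symm p))
            (mfderiv (𝓡 m) (𝓡 m) c' (f (c.symm p))) :=
          ((mdifferentiable_chart (I := 𝓡 m) (f x)).mdifferentiableAt hp3).hasMFDerivAt
        have e4 := (e3.comp p (e2.comp p e1)).hasFDerivAt
        have e5 : ((mfderiv (𝓡 m) (𝓡 m) c' (f (c.symm p))).comp
            ((mfderiv (𝓡 d) (𝓡 m) f (c.symm p)).comp (mfderiv (𝓡 d) (𝓡 d) c.symm p)) :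
              E d →L[ℝ] E m) = 0 := by
          ext1 u
          have e6 := hdf p hp u
          change (mfderiv (𝓡 m) (𝓡 m) c' (f (c.symm p)))
            (mfderiv (𝓡 d) (𝓡 m) f (c.symm p) (A x p u)) = 0
          rw [e6, map_zero]
        have e7 : HasFDerivAt (c' ∘ (f ∘ c.symm)) ((mfderiv (𝓡 m) (𝓡 m) c' (f (c.symm p))).comp
            ((mfderiv (𝓡 d) (𝓡 m) f (c.symm p)).comp (mfderiv (𝓡 d) (𝓡 d) c.symm p)) :
              E d →L[ℝ] E m) p := e4
        rw [e5] at e7
        exact e7
      intro p hp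
      have h5 := Metric.isOpen_ball.is_const_of_fderiv_eq_zero (𝕜 := ℝ)
        (f := fun p => c' (f (c.symm p))) (s := Metric.ball (c x) r)
        (convex_ball _ _).isPreconnected
        (fun p hp => (hd p hp).differentiableAt.differentiableWithinAt)
        (fun p hp => (hd p hp).fderiv) hp (Metric.mem_ball_self hr)
      have h6 : c' (f (c.symm p)) = c' (f x) := by
        rw [← hcc]; exact h5
      exact c'.injOn (hball p hp).1.2 (mem_chart_source (E m) (f x)) h6
    have hx' : ¬ TamesAt σ J x := by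
      have := hw0 (c x) (Metric.mem_ball_self hr)
      rwa [hcc] at this
    have hC : c.symm '' (Metric.ball (c x) r) ⊆ connectedComponentIn (D ∩ f ⁻¹' {f x}) x := by
      apply IsPreconnected.subset_connectedComponentIn
      · exact (convex_ball _ _).isPreconnected.image _
          (c.continuousOn_symm.mono fun p hp => (hball p hp).2)
      · exact ⟨c x, Metric.mem_ball_self hr, hcc⟩
      · rintro _ ⟨p, hp, rfl⟩
        exact ⟨hw0 p hp, hconst p hp⟩
    obtain ⟨n, a, b, N, hN, ha, hb, hvol, hpos⟩ := hthin x hx'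
    unfold TamesAt at hx'
    push Not at hx'
    obtain ⟨v, hv0, hv⟩ := hx'
    have h1 := hpos v hv0 hv
    obtain ⟨i, hi⟩ : ∃ i, dfdg (d := d) (a i) (b i) x ![v, J x v] ≠ 0 := by
      by_contra h
      push Not at h
      rw [sum_apply2, Finset.sum_eq_zero fun i _ => h i] at h1
      exact lt_irrefl _ h1
    rw [dfdg_apply] at hi
    have hM : Metric.ball (c x) r ∩ c.symm ⁻¹' N ∈ 𝓝 (c x) := by
      refine inter_mem (Metric.ball_mem_nhds _ hr) (hcont ?_)
      rw [c.left_inv hxs]
      exact hN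
    have h2 := open_pair (ha i) (hb i) x v (J x v) hi _ hM
    have h3 : (fun p => (a i (c.symm p), b i (c.symm p))) '' (Metric.ball (c x) r ∩ c.symm ⁻¹' N) ⊆
        (fun x => (a i x, b i x)) '' (connectedComponentIn (D ∩ f ⁻¹' {f x}) x ∩ N) := by
      rintro _ ⟨p, hp, rfl⟩
      exact ⟨c.symm p, ⟨hC ⟨p, hp.1, rfl⟩, hp.2⟩, rfl⟩
    have h4 := measure_mono (μ := (volume : Measure (ℝ × ℝ))) h3
    rw [hvol i] at h4
    exact absurd (lt_of_lt_of_le h2 h4) (lt_irrefl _)
  have h1 : ∀ y : X, y = c.symm (c x) → ∀ v : TangentSpace (𝓡 d) y, 0 ≤ σ y ![v, J y v] := by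
    rintro y rfl v
    obtain ⟨w, hw⟩ := A_surj x hcx v
    have h2 := hQ w
    rw [Q_eq σ J x hcx, hw] at h2
    exact h2
  exact h1 x (c.left_inv hxs).symm v

end Pool.Agent.Y501.SY
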