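import Pool.Agent.Y501.SY.Main2
import Pool.Agent.Y501.SY.Int2
import Pool.Agent.Y925.SY.Planar
import Pool.Agent.Y484.SY.Gen
import Pool.Agent.Y455.SY.Pert
import Pool.Agent.Y363.SY.Local
import Pool.Agent.Y391.SY.Haus
import Pool.Agent.Y388.SY.TR

/-!
The main theorem on small degeneracies.
-/

set_option autoImplicit false

open Set Filter Topology MeasureTheory
open scoped Manifold ContDiff

noncomputable section

namespace Pool.Agent.Y501.SY

section

variable {d : ℕ} {X : Type} [TopologicalSpace X] [ChartedSpace (E d) X]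

/-- `C` is small at `z`: it has two-dimensional Hausdorff measure zero near `z`, or its
tangent space at `z` (the vectors annihilated by the differentials of all smooth functions
vanishing on `C`) contains no `J`-complex line, or it is thin at `z`. -/
def SmallAt (σ : Form d X 2) (J : End d X) (C : Set X) (z : X) : Prop :=
  (∃ N ∈ 𝓝 z, μH[2] (chartAt (E d) z '' (C ∩ N ∩ (chartAt (E d) z).source)) = 0) ∨
  (∀ v : TangentSpace (𝓡 d) z, v ∈ ZT (d := d) C z → J z v ∈ ZT (d := d) C z → v = 0) ∨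
  ThinAt σ J C z

variable [IsManifold (𝓡 d) ∞ X]

theorem thin_of_haus [T2Space X] {J : End d X} (hJ : IsAlmostComplex J)
    (σ : Form d X 2) {C : Set X} (z : X)
    (h : ∃ N ∈ 𝓝 z, μH[2] (chartAt (E d) z '' (C ∩ N ∩ (chartAt (E d) z).source)) = 0) :
    ThinAt σ J C z := by
  obtain ⟨N, hN, hN0⟩ := h
  obtain ⟨g, B, hg, hB⟩ := Pool.Agent.Y363.SY.t_LOCAL d X J hJ z
  choose N' hN' hN0' using fun i : Fin (d * d) => Pool.Agent.Y391.SY.local_null
    (f := fun x => B (finProdFinEquiv.symm i).1 (finProdFinEquiv.symm i).2 *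
      g (finProdFinEquiv.symm i).1 x) (g := g (finProdFinEquiv.symm i).2)
    ((SmoothFun.const _).mul (hg _)) (hg _) z hN0
  refine ⟨d * d, fun i x => B (finProdFinEquiv.symm i).1 (finProdFinEquiv.symm i).2 *
    g (finProdFinEquiv.symm i).1 x, fun i => g (finProdFinEquiv.symm i).2, N ∩ ⋂ i, N' i,
    Filter.inter_mem hN (Filter.iInter_mem.2 hN'), fun i => (SmoothFun.const _).mul (hg _),
    fun i => hg _, fun i => ?_, fun v hv _ => ?_⟩
  · refine measure_mono_null (image_mono ?_) (hN0' i)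
    rintro x ⟨hx, hxN, hxi⟩
    exact ⟨⟨hx, hxN⟩, mem_iInter.1 hxi i⟩
  · have h1 := hB v hv
    refine lt_of_lt_of_eq h1 ?_
    rw [sum_apply2, sum_apply2, ← finProdFinEquiv.sum_comp, Fintype.sum_prod_type]
    refine Finset.sum_congr rfl fun j _ => ?_
    rw [sum_apply2]
    refine Finset.sum_congr rfl fun k _ => ?_
    have h2 : (B j k • dfdg (d := d) (g j) (g k)) z ![v, J z v] =
      B j k * dfdg (d := d) (g j) (g k) z ![v, J z v] := rfl
    have h6 : ∀ w : TangentSpace (𝓡 d) z, dd (d := d) (fun _ : X => B j k) z w = 0 := by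
      intro w
      unfold dd
      rw [mfderiv_const]; rfl
    rw [h2, dfdg_apply, dfdg_apply]
    simp only [Equiv.symm_apply_apply]
    rw [dd_mul (SmoothFun.const _) (hg _), dd_mul (SmoothFun.const _) (hg _), h6, h6]
    ring

theorem SmallAt.thinAt [T2Space X] {J : End d X} (hJ : IsAlmostComplex J)
    {σ : Form d X 2} {C : Set X} {z : X} (h : SmallAt σ J C z) : ThinAt σ J C z := by
  rcases h with h | h | h
  · exact thin_of_haus hJ σ z h
  · exact Pool.Agent.Y388.SY.t_TR d X J hJ σ C z h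
  · exact h

theorem nondeg_of_tames {J : End d X} {σ : Form d X 2} {x : X} (h : TamesAt σ J x)
    (v : TangentSpace (𝓡 d) x) (hv : ∀ w, σ x ![v, w] = 0) : v = 0 := by
  by_contra hne
  have := h v hne
  rw [hv] at this
  exact lt_irrefl _ this

theorem final {m : ℕ} {Y : Type} [CompactSpace X] [T2Space X] [TopologicalSpace Y]
    [ChartedSpace (E m) Y] [IsManifold (𝓡 m) ∞ Y] [T2Space Y]
    {J : End d X} (hJ : IsAlmostComplex J) {σ : Form d X 2} (hσ : IsSmooth σ)
    (hσc : IsClosedForm σ) {f : X → Y} (hf : ContMDiff (𝓡 d) (𝓡 m) ∞ f)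
    (hker : ∀ (x : X) (v : TangentSpace (𝓡 d) x), σ x ![v, J x v] ≤ 0 →
      mfderiv (𝓡 d) (𝓡 m) f x v = 0)
    (hsmall : ∀ z : X, ¬ TamesAt σ J z →
      SmallAt σ J (connectedComponentIn ({x | ¬ TamesAt σ J x} ∩ f ⁻¹' {f z}) z) z) :
    ∃ (σ' : Form d X 2) (α : Form d X 1), IsSmooth σ' ∧ IsClosedForm σ' ∧
      (∀ x, TamesAt σ' J x) ∧
      (∀ x (v : TangentSpace (𝓡 d) x), (∀ w, σ' x ![v, w] = 0) → v = 0) ∧
      IsSmooth α ∧ IsD α (σ' - σ) := by
  have hthin : ∀ z : X, ¬ TamesAt σ J z →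
      ThinAt σ J (connectedComponentIn ({x | ¬ TamesAt σ J x} ∩ f ⁻¹' {f z}) z) z :=
    fun z hz => (hsmall z hz).thinAt hJ
  have hpos := int2 hJ hσ hf hker hthin
  obtain ⟨σ', α, h1, h2, h3, h4, h5⟩ := main2 Pool.Agent.Y484.SY.t_GEN
    Pool.Agent.Y455.SY.t_PERT Pool.Agent.Y455.SY.t_NULL Pool.Agent.Y925.SY.t_PLANAR hJ hf hσ hσc
    hpos (fun x v h0 => hker x v h0.le) hthin
  exact ⟨σ', α, h1, h2, h3, fun x v hv => nondeg_of_tames (h3 x) v hv, h4, h5⟩

end

end Pool.Agent.Y501.SY
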