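import Pool.Agent.Y501.SY.Main3
import Pool.Agent.Y501.SY.Final
import Pool.Agent.Y108.SY.Pert2
import Pool.Agent.Y658.SY.Prod

/-!
The two level theorem.
-/

set_option autoImplicit false

open Set Filter Topology MeasureTheory
open scoped Manifold ContDiff

noncomputable section

namespace Pool.Agent.Y501.SY

section

variable {d : ℕ} {X : Type} [TopologicalSpace X] [ChartedSpace (E d) X]

/-- `C` is small at `z`, relative to `σ`, `θ` and `J`: it has two-dimensional Hausdorff measure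
zero near `z`, or its tangent space at `z` (the vectors annihilated by the differentials of all
smooth functions vanishing on `C`) contains no `J`-complex line, or it is thin at `z`. -/
def SmallAt2 (σ θ : Form d X 2) (J : End d X) (C : Set X) (z : X) : Prop :=
  (∃ N ∈ 𝓝 z, μH[2] (chartAt (E d) z '' (C ∩ N ∩ (chartAt (E d) z).source)) = 0) ∨
  (∀ v : TangentSpace (𝓡 d) z, v ∈ ZT (d := d) C z → J z v ∈ ZT (d := d) C z → v = 0) ∨
  ThinAt2 σ θ J C z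

theorem thinAt2_of_thinAt {J : End d X} {σ θ : Form d X 2} {C : Set X} {z : X}
    (h : ThinAt 0 J C z) : ThinAt2 σ θ J C z := by
  obtain ⟨n, a, b, N, hN, ha, hb, hnull, hpos⟩ := h
  exact ⟨n, a, b, N, hN, ha, hb, hnull, fun v hv _ _ => hpos v hv le_rfl⟩

variable [IsManifold (𝓡 d) ∞ X]

theorem SmallAt2.thinAt2 [T2Space X] {J : End d X} (hJ : IsAlmostComplex J)
    {σ θ : Form d X 2} {C : Set X} {z : X} (h : SmallAt2 σ θ J C z) : ThinAt2 σ θ J C z := by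
  rcases h with h | h | h
  · exact thinAt2_of_thinAt (thin_of_haus hJ 0 z h)
  · exact thinAt2_of_thinAt (Pool.Agent.Y388.SY.t_TR d X J hJ 0 C z h)
  · exact h

theorem finalG
    [CompactSpace X] [T2Space X] {J : End d X} (hJ : IsAlmostComplex J)
    {m : ℕ} {Y : Type} [TopologicalSpace Y]
    [ChartedSpace (E m) Y] [IsManifold (𝓡 m) ∞ Y] [T2Space Y] [SigmaCompactSpace Y] {f : X → Y}
    (hf : ContMDiff (𝓡 d) (𝓡 m) ∞ f) {σ ζ : Form d X 2} (hσ : IsSmooth σ)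
    (hσc : IsClosedForm σ) (hζ : IsSmooth ζ) (hζc : IsClosedForm ζ)
    (hpos : ∀ (x : X) (v : TangentSpace (𝓡 d) x), 0 ≤ σ x ![v, J x v])
    (hker : ∀ (x : X) (v : TangentSpace (𝓡 d) x), σ x ![v, J x v] = 0 →
      mfderiv (𝓡 d) (𝓡 m) f x v = 0)
    (hfib : ∀ y : Y, ∃ (β : Form d X 1) (ρ : Form d X 2), IsSmooth β ∧ IsSmooth ρ ∧ IsD β ρ ∧
      (∀ x ∈ f ⁻¹' {y}, ∀ v : TangentSpace (𝓡 d) x, σ x ![v, J x v] = 0 →
        0 ≤ (ζ + ρ) x ![v, J x v]) ∧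
      ∀ z ∈ D2 σ (ζ + ρ) J (f ⁻¹' {y}),
        SmallAt2 σ (ζ + ρ) J (connectedComponentIn (D2 σ (ζ + ρ) J (f ⁻¹' {y})) z) z) :
    ∃ (α : Form d X 1) (ρ : Form d X 2), IsSmooth α ∧ IsSmooth ρ ∧ IsD α ρ ∧
      ∃ t₀ : ℝ, 0 < t₀ ∧ ∀ t : ℝ, 0 < t → t ≤ t₀ →
        IsSmooth (σ + t • (ζ + ρ)) ∧ IsClosedForm (σ + t • (ζ + ρ)) ∧
        (∀ x, TamesAt (σ + t • (ζ + ρ)) J x) ∧
        ∀ x (v : TangentSpace (𝓡 d) x), (∀ w, (σ + t • (ζ + ρ)) x ![v, w] = 0) → v = 0 := by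
  obtain ⟨α, ρ, h1, h2, h3, t₀, h4, h5⟩ := main3 Pool.Agent.Y484.SY.t_GEN
    Pool.Agent.Y108.SY.t_PERT2 Pool.Agent.Y455.SY.t_NULL Pool.Agent.Y108.SY.t_NULL2
    Pool.Agent.Y658.SY.t_PROD Pool.Agent.Y925.SY.t_PLANAR hJ hf hσ hσc hζ hζc hpos hker (by
      intro y
      obtain ⟨β, ρ, g1, g2, g3, g4, g5⟩ := hfib y
      exact ⟨β, ρ, g1, g2, g3, g4, fun z hz => (g5 z hz).thinAt2 hJ⟩)
  refine ⟨α, ρ, h1, h2, h3, t₀, h4, fun t ht0 ht1 => ?_⟩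
  obtain ⟨e1, e2, e3⟩ := h5 t ht0 ht1
  exact ⟨e1, e2, e3, fun x v hv => nondeg_of_tames (e3 x) v hv⟩

end

end Pool.Agent.Y501.SY
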