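import Pool.Agent.Y501.SY.Pub
import Pool.Agent.Y501.SY.FinalG

/-!
Comparison of the definitions over `ES d` with the working definitions.
-/

set_option autoImplicit false

open Set Filter Topology MeasureTheory
open scoped Manifold ContDiff

noncomputable section

namespace Pool.Agent.Y501.SYP

section

variable {d : ℕ} {X : Type} [TopologicalSpace X] [ChartedSpace (ES d) X]

/-- the same charted space over `EuclideanSpace ℝ (Fin d)` -/
abbrev cs (d : ℕ) (X : Type) [TopologicalSpace X] [h : ChartedSpace (ES d) X] :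
    ChartedSpace (SY.E d) X := h

attribute [local instance] cs

theorem smooth_iff {k : ℕ} (σ : Form (ES d) X k) :
    IsSmooth σ ↔ SY.IsSmooth (d := d) (X := X) σ :=
  ⟨fun h U φ hU hφ => h U φ ⟨hU, hφ⟩, fun h U φ hφ => h U φ hφ.1 hφ.2⟩

theorem isD_iff {k : ℕ} (α : Form (ES d) X k) (η : Form (ES d) X (k + 1)) :
    IsD α η ↔ SY.IsD (d := d) (X := X) α η :=
  ⟨fun h U φ hU hφ => h U φ ⟨hU, hφ⟩, fun h U φ hφ => h U φ hφ.1 hφ.2⟩

theorem closed_iff {k : ℕ} (σ : Form (ES d) X k) :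
    IsClosedForm σ ↔ SY.IsClosedForm (d := d) (X := X) σ :=
  ⟨fun h U φ hU hφ p hp => h U φ ⟨hU, hφ⟩ p hp, fun h U φ hφ p hp => h U φ hφ.1 hφ.2 p hp⟩

theorem ac_of (J : End (ES d) X) (hJ : IsAlmostComplex J) :
    SY.IsAlmostComplex (d := d) (X := X) J := by
  refine ⟨hJ.sq, fun x₀ => ?_⟩
  rw [continuousOn_clm_apply]
  exact fun v => hJ.cont x₀ v

/-- the same manifold over `EuclideanSpace ℝ (Fin d)` -/
theorem mf (d : ℕ) (X : Type) [TopologicalSpace X] [ChartedSpace (ES d) X]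
    [h : IsManifold 𝓘(ℝ, ES d) ∞ X] : IsManifold (𝓡 d) ∞ X := h

attribute [local instance] mf

theorem smoothFun_of (f : X → ℝ) (h : SmoothFun (V := ES d) f) : SY.SmoothFun (d := d) f := h

theorem smoothFun_to (f : X → ℝ) (h : SY.SmoothFun (d := d) f) : SmoothFun (V := ES d) f := h

theorem tames_iff (σ : Form (ES d) X 2) (J : End (ES d) X) (x : X) :
    TamesAt σ J x ↔ SY.TamesAt (d := d) (X := X) σ J x := Iff.rfl

theorem thinAt2_of {J : End (ES d) X} {σ θ : Form (ES d) X 2} {C : Set X} {z : X}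
    (h : ThinAt J C z (Null σ θ J z)) : SY.ThinAt2 (d := d) (X := X) σ θ J C z := by
  obtain ⟨n, a, b, hab, hpos⟩ := h
  choose N hN hN0 using fun i => (hab i).null
  refine ⟨n, a, b, ⋂ i, N i, Filter.iInter_mem.2 hN, fun i => (hab i).smooth_a,
    fun i => (hab i).smooth_b, fun i => ?_, fun v hv h1 h2 => ?_⟩
  · exact measure_mono_null (image_mono (inter_subset_inter_right _ (iInter_subset _ _))) (hN0 i)
  · have h3 := hpos v hv ⟨h1, h2⟩
    have e := SY.sum_apply2 (d := d) (X := X) Finset.univ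
      (fun i => SY.dfdg (d := d) (X := X) (a i) (b i)) z ![v, J z v]
    refine lt_of_lt_of_eq h3 (Eq.trans ?_ e.symm)
    exact Finset.sum_congr rfl fun i _ =>
      (SY.dfdg_apply (d := d) (X := X) (a i) (b i) z v (J z v)).symm

theorem smallAt2_of {J : End (ES d) X} {σ θ : Form (ES d) X 2} {C : Set X} {z : X}
    (h : SmallAt J C z (Null σ θ J z)) : SY.SmallAt2 (d := d) (X := X) σ θ J C z := by
  rcases h with h | h | h
  · exact Or.inl h
  · exact Or.inr (Or.inl h)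
  · exact Or.inr (Or.inr (thinAt2_of h))

theorem exc_eq {J : End (ES d) X} {σ θ : Form (ES d) X 2} {F : Set X} :
    Exc σ θ J F = SY.D2 (d := d) (X := X) σ θ J F := rfl

theorem symp_of {J : End (ES d) X} {σ : Form (ES d) X 2} (h1 : IsSmooth σ)
    (h2 : IsClosedForm σ) (h3 : ∀ x, TamesAt σ J x) : IsTamingSymplectic σ J :=
  ⟨h1, h2, fun x v hv => by
    by_contra hne
    have h4 := h3 x v hne
    have h5 : qd σ J x v = 0 := hv _
    rw [h5] at h4
    exact lt_irrefl _ h4, h3⟩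

theorem twoLevel {m : ℕ} {Y : Type} [TopologicalSpace Y] [ChartedSpace (ES m) Y]
    [IsManifold 𝓘(ℝ, ES d) ∞ X] [CompactSpace X] [T2Space X]
    [IsManifold 𝓘(ℝ, ES m) ∞ Y] [T2Space Y] [SigmaCompactSpace Y]
    (J : End (ES d) X) (hJ : IsAlmostComplex J)
    (f : X → Y) (hf : ContMDiff 𝓘(ℝ, ES d) 𝓘(ℝ, ES m) ∞ f)
    (σ ζ : Form (ES d) X 2) (hσ : IsSmooth σ) (hσc : IsClosedForm σ)
    (hζ : IsSmooth ζ) (hζc : IsClosedForm ζ)
    (hpos : ∀ (x : X) (v : TangentSpace 𝓘(ℝ, ES d) x), 0 ≤ qd σ J x v)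
    (hker : ∀ (x : X) (v : TangentSpace 𝓘(ℝ, ES d) x), qd σ J x v = 0 →
      mfderiv 𝓘(ℝ, ES d) 𝓘(ℝ, ES m) f x v = 0)
    (hfib : ∀ y : Y, GoodFibre σ ζ J (f ⁻¹' {y})) :
    ∃ (α : Form (ES d) X 1) (ρ : Form (ES d) X 2), IsSmooth α ∧ IsSmooth ρ ∧ IsD α ρ ∧
      ∃ t₀ : ℝ, 0 < t₀ ∧ ∀ t : ℝ, 0 < t → t ≤ t₀ →
        IsTamingSymplectic (comb σ t (addF ζ ρ)) J := by
  obtain ⟨α, ρ, h1, h2, h3, t₀, ht₀, h4⟩ := SY.finalG (d := d) (X := X) (m := m) (Y := Y)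
    (ac_of J hJ) (f := f) hf (σ := σ) (ζ := ζ) ((smooth_iff σ).1 hσ) ((closed_iff σ).1 hσc)
    ((smooth_iff ζ).1 hζ) ((closed_iff ζ).1 hζc) hpos hker (by
      intro y
      obtain ⟨β, ρ, g1, g2, g3, g4, g5⟩ := hfib y
      exact ⟨β, ρ, (smooth_iff β).1 g1, (smooth_iff ρ).1 g2, (isD_iff β ρ).1 g3, g4,
        fun z hz => smallAt2_of (g5 z hz)⟩)
  refine ⟨α, ρ, (smooth_iff α).2 h1, (smooth_iff ρ).2 h2, (isD_iff α ρ).2 h3, t₀, ht₀,
    fun t ht0 ht1 => ?_⟩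
  obtain ⟨e1, e2, e3, _⟩ := h4 t ht0 ht1
  exact symp_of ((smooth_iff _).2 e1) ((closed_iff _).2 e2) e3

end

end Pool.Agent.Y501.SYP
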