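import Pool.Agent.Y501.SY.FinalG

/-!
Compact families of closed two-forms with small exceptional sets.
-/

set_option autoImplicit false

open Set Filter Topology MeasureTheory
open scoped Manifold ContDiff

noncomputable section

namespace Pool.Agent.Y501.SY

open Pool.Agent.Y455.SY (Q A B AB BA Q_eq tames_iff Q_smul pos_iff)

section

variable {P : Type} [TopologicalSpace P] {d : ℕ} {X : Type} [TopologicalSpace X]
  [ChartedSpace (E d) X]

/-- jointly continuous families of two-forms -/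
def FamForm (σ : P → Form d X 2) : Prop := ∀ x₀ : X,
  ContinuousOn (fun q : P × E d => pb (chartAt (E d) x₀).symm (σ q.1) q.2)
    (univ ×ˢ (chartAt (E d) x₀).target)

/-- jointly continuous families of endomorphisms -/
def FamEnd (J : P → End d X) : Prop := ∀ x₀ : X,
  ContinuousOn (fun q : P × E d => inChart (J q.1) x₀ q.2) (univ ×ˢ (chartAt (E d) x₀).target)

variable [IsManifold (𝓡 d) ∞ X]

theorem FamForm.addConst {σ : P → Form d X 2} (hσ : FamForm σ) {η : Form d X 2}
    (hη : IsSmooth η) : FamForm (fun z => σ z + η) := by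
  intro x₀
  have h1 : ContinuousOn (pb (chartAt (E d) x₀).symm η) (chartAt (E d) x₀).target :=
    (hη _ _ (chartAt (E d) x₀).open_target contMDiffOn_chart_symm).continuousOn
  have h2 : ContinuousOn (fun q : P × E d => pb (chartAt (E d) x₀).symm η q.2)
      (univ ×ˢ (chartAt (E d) x₀).target) :=
    h1.comp continuousOn_snd fun q hq => hq.2
  exact (hσ x₀).add h2

theorem tames_open_loc {σ : P → Form d X 2} {J : P → End d X} (hσ : FamForm σ) (hJ : FamEnd J)
    {z₀ : P} {x₀ : X} (h : TamesAt (σ z₀) (J z₀) x₀) :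
    ∀ᶠ q in 𝓝 (z₀, x₀), TamesAt (σ q.1) (J q.1) q.2 := by
  have hsrc := mem_chart_source (E d) x₀
  have htgt := mem_chart_target (E d) x₀
  have h0 : (chartAt (E d) x₀).symm (chartAt (E d) x₀ x₀) = x₀ :=
    (chartAt (E d) x₀).left_inv hsrc
  have hnb : (univ ×ˢ (chartAt (E d) x₀).target : Set (P × E d)) ∈
      𝓝 (z₀, chartAt (E d) x₀ x₀) :=
    prod_mem_nhds univ_mem ((chartAt (E d) x₀).open_target.mem_nhds htgt)
  have h1 : ContinuousAt (fun q : P × E d => pb (chartAt (E d) x₀).symm (σ q.1) q.2)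
      (z₀, chartAt (E d) x₀ x₀) := (hσ x₀).continuousAt hnb
  have h2 : ContinuousAt (fun q : P × E d => inChart (J q.1) x₀ q.2)
      (z₀, chartAt (E d) x₀ x₀) := (hJ x₀).continuousAt hnb
  have hpos : ∀ v : E d, v ≠ 0 → 0 < Q (σ z₀) (J z₀) x₀ (chartAt (E d) x₀ x₀) v := by
    rw [← tames_iff (σ z₀) (J z₀) x₀ htgt, h0]
    exact h
  have h3 : ∀ᶠ q : P × E d in 𝓝 (z₀, chartAt (E d) x₀ x₀), ∀ v ∈ Metric.sphere (0 : E d) 1,
      0 < Q (σ q.1) (J q.1) x₀ q.2 v := by
    refine (isCompact_sphere (0 : E d) 1).eventually_forall_of_forall_eventually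
      (P := fun (q : P × E d) (v : E d) => 0 < Q (σ q.1) (J q.1) x₀ q.2 v) fun v hv => ?_
    have hv0 : v ≠ 0 := by
      rintro rfl
      simp at hv
    have h4 : ContinuousAt (fun r : (P × E d) × E d => Q (σ r.1.1) (J r.1.1) x₀ r.1.2 r.2)
        ((z₀, chartAt (E d) x₀ x₀), v) := by
      have h5 : ContinuousAt (fun r : (P × E d) × E d =>
          pb (chartAt (E d) x₀).symm (σ r.1.1) r.1.2) ((z₀, chartAt (E d) x₀ x₀), v) :=
        ContinuousAt.comp (f := Prod.fst) (x := ((z₀, chartAt (E d) x₀ x₀), v)) h1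
          continuousAt_fst
      have h6 : ContinuousAt (fun r : (P × E d) × E d => inChart (J r.1.1) x₀ r.1.2)
          ((z₀, chartAt (E d) x₀ x₀), v) :=
        ContinuousAt.comp (f := Prod.fst) (x := ((z₀, chartAt (E d) x₀ x₀), v)) h2
          continuousAt_fst
      have h7 : ContinuousAt (fun r : (P × E d) × E d => inChart (J r.1.1) x₀ r.1.2 r.2)
          ((z₀, chartAt (E d) x₀ x₀), v) := h6.clm_apply continuousAt_snd
      have h8 : ContinuousAt (fun r : (P × E d) × E d =>
          (![r.2, inChart (J r.1.1) x₀ r.1.2 r.2] : Fin 2 → E d))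
          ((z₀, chartAt (E d) x₀ x₀), v) := by
        rw [continuousAt_pi]
        intro i
        fin_cases i
        · exact continuousAt_snd
        · exact h7
      exact h5.eval h8
    exact h4.eventually_const_lt (hpos v hv0)
  have h9 : ContinuousAt (fun q : P × X => (q.1, chartAt (E d) x₀ q.2)) (z₀, x₀) :=
    continuousAt_fst.prodMk (ContinuousAt.comp (f := Prod.snd) (x := (z₀, x₀))
      ((chartAt (E d) x₀).continuousAt hsrc) continuousAt_snd)
  have h10 : ∀ᶠ q : P × X in 𝓝 (z₀, x₀), q.2 ∈ (chartAt (E d) x₀).source :=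
    continuousAt_snd.eventually ((chartAt (E d) x₀).open_source.mem_nhds hsrc)
  filter_upwards [h9.eventually h3, h10] with q hq hq2
  have h11 : (chartAt (E d) x₀).symm (chartAt (E d) x₀ q.2) = q.2 :=
    (chartAt (E d) x₀).left_inv hq2
  have h12 := (tames_iff (σ q.1) (J q.1) x₀ ((chartAt (E d) x₀).map_source hq2)).2
    ((pos_iff (fun v => Q (σ q.1) (J q.1) x₀ (chartAt (E d) x₀ q.2) v)
      (fun s v => Q_smul (σ q.1) (J q.1) x₀ (chartAt (E d) x₀ q.2) v s)).2 hq)
  rwa [h11] at h12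

theorem tames_open [CompactSpace X] {σ : P → Form d X 2} {J : P → End d X} (hσ : FamForm σ)
    (hJ : FamEnd J) {z₀ : P} (h : ∀ x, TamesAt (σ z₀) (J z₀) x) :
    ∀ᶠ z in 𝓝 z₀, ∀ x, TamesAt (σ z) (J z) x := by
  have h1 := (isCompact_univ (X := X)).eventually_forall_of_forall_eventually (x₀ := z₀)
    (P := fun (z : P) (x : X) => TamesAt (σ z) (J z) x)
    fun x _ => tames_open_loc hσ hJ (h x)
  exact h1.mono fun z hz x => hz x (mem_univ x)

theorem one_pt [CompactSpace X] [T2Space X] {J : End d X} (hJ : IsAlmostComplex J)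
    {σ : Form d X 2} (hσ : IsSmooth σ) (hσc : IsClosedForm σ)
    (hsmall : ∀ x, ¬ TamesAt σ J x →
      SmallAt σ J (connectedComponentIn {y | ¬ TamesAt σ J y} x) x) :
    (∀ (x : X) (v : TangentSpace (𝓡 d) x), 0 ≤ σ x ![v, J x v]) ∧
    ∃ (α : Form d X 1) (η : Form d X 2), IsSmooth α ∧ IsSmooth η ∧ IsD α η ∧ IsClosedForm η ∧
      ∀ x, TamesAt (σ + η) J x := by
  have hset : ∀ x : X, {y | ¬ TamesAt σ J y} ∩ (fun _ : X => (0 : E 0)) ⁻¹' {(0 : E 0)} =
      {y | ¬ TamesAt σ J y} := by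
    intro x
    ext y
    simp
  have hconst : ∀ (x : X) (v : TangentSpace (𝓡 d) x), σ x ![v, J x v] ≤ 0 →
      mfderiv (𝓡 d) (𝓡 0) (fun _ : X => (0 : E 0)) x v = 0 := by
    intro x v _
    rw [mfderiv_const]; rfl
  have hs : ∀ z : X, ¬ TamesAt σ J z → SmallAt σ J (connectedComponentIn
      ({x | ¬ TamesAt σ J x} ∩ (fun _ : X => (0 : E 0)) ⁻¹' {(fun _ : X => (0 : E 0)) z}) z) z := by
    intro z hz
    rw [hset z]
    exact hsmall z hz
  have hpos := int2 hJ hσ (f := fun _ : X => (0 : E 0)) contMDiff_const hconst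
    (fun z hz => (hs z hz).thinAt hJ)
  obtain ⟨σ', α, h1, h2, h3, -, h5, h6⟩ := final hJ hσ hσc (f := fun _ : X => (0 : E 0))
    contMDiff_const hconst hs
  have hη : IsSmooth (σ' - σ) := by
    have h7 := h1.add (hσ.smul (-1))
    have h8 : σ' + (-1 : ℝ) • σ = σ' - σ := by
      funext x
      ext u
      change σ' x u + (-1 : ℝ) * σ x u = σ' x u - σ x u
      ring
    rwa [h8] at h7
  have hηc : IsClosedForm (σ' - σ) := by
    have h7 := h2.add (hσc.smul (-1)) h1 (hσ.smul (-1))
    have h8 : σ' + (-1 : ℝ) • σ = σ' - σ := by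
      funext x
      ext u
      change σ' x u + (-1 : ℝ) * σ x u = σ' x u - σ x u
      ring
    rw [h8, smul_zero, add_zero] at h7
    exact h7
  refine ⟨hpos, α, σ' - σ, h5, hη, h6, hηc, fun x => ?_⟩
  rw [add_sub_cancel]
  exact h3 x

theorem fam [CompactSpace P] [T2Space P] [CompactSpace X] [T2Space X] {σ : P → Form d X 2}
    {J : P → End d X} (hJa : ∀ z, IsAlmostComplex (J z)) (hσs : ∀ z, IsSmooth (σ z))
    (hσc : ∀ z, IsClosedForm (σ z)) (hσ : FamForm σ) (hJ : FamEnd J) {A' : Set P}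
    (hA : IsClosed A') (hAt : ∀ z ∈ A', ∀ x, TamesAt (σ z) (J z) x)
    (hsmall : ∀ z x, ¬ TamesAt (σ z) (J z) x →
      SmallAt (σ z) (J z) (connectedComponentIn {y | ¬ TamesAt (σ z) (J z) y} x) x) :
    ∃ (n : ℕ) (c : Fin n → P → ℝ) (α : Fin n → Form d X 1) (η : Fin n → Form d X 2),
      (∀ i, Continuous (c i)) ∧ (∀ i, ∀ z ∈ A', c i z = 0) ∧
      (∀ i, IsSmooth (α i) ∧ IsSmooth (η i) ∧ IsD (α i) (η i)) ∧
      ∀ z, IsSmooth (σ z + ∑ i, c i z • η i) ∧ IsClosedForm (σ z + ∑ i, c i z • η i) ∧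
        ∀ x, TamesAt (σ z + ∑ i, c i z • η i) (J z) x := by
  classical
  have hloc := fun z => one_pt (hJa z) (hσs z) (hσc z) (hsmall z)
  choose hpos α η hα hη hαη hηc htame using hloc
  have hN : ∀ z₀ : P, ∃ N : Set P, IsOpen N ∧ z₀ ∈ N ∧
      ∀ z ∈ N, ∀ x, TamesAt (σ z + η z₀) (J z) x := by
    intro z₀
    have h1 := tames_open (σ := fun z => σ z + η z₀) (hσ.addConst (hη z₀)) hJ (htame z₀)
    obtain ⟨N, hN, hNo, hzN⟩ := eventually_nhds_iff.1 h1
    exact ⟨N, hNo, hzN, hN⟩
  choose N hNo hzN hNt using hN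
  obtain ⟨t, ht⟩ := isCompact_univ.elim_finite_subcover N hNo
    (fun z _ => mem_iUnion.2 ⟨z, hzN z⟩)
  let e : Fin (Fintype.card ↥t) ≃ ↥t := (Fintype.equivFin ↥t).symm
  obtain ⟨f, hf⟩ := PartitionOfUnity.exists_isSubordinate (s := (univ : Set P)) isClosed_univ
    (fun i : Fin (Fintype.card ↥t) => N (e i)) (fun i => hNo _) (by
      intro z hz
      obtain ⟨y, hy, hzy⟩ := mem_iUnion₂.1 (ht hz)
      exact mem_iUnion.2 ⟨e.symm ⟨y, hy⟩, by simpa using hzy⟩)
  -- the parameters where the form is not taming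
  have hB : IsClosed {z | ¬ ∀ x, TamesAt (σ z) (J z) x} := by
    rw [← isOpen_compl_iff, isOpen_iff_eventually]
    intro z hz
    have hz' : ∀ x, TamesAt (σ z) (J z) x := by
      by_contra h; exact hz h
    filter_upwards [tames_open hσ hJ hz'] with y hy h
    exact h hy
  obtain ⟨μ, hμ0, hμ1, hμ⟩ := exists_continuous_zero_one_of_isClosed hA hB
    (disjoint_left.2 fun z hz h => h (hAt z hz))
  refine ⟨Fintype.card ↥t, fun i z => μ z * f i z, fun i => α (e i), fun i => η (e i),
    fun i => μ.continuous.mul (f i).continuous, fun i z hz => ?_,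
    fun i => ⟨hα _, hη _, hαη _⟩, fun z => ?_⟩
  · have := hμ0 hz
    change μ z * f i z = 0
    have h0 : μ z = 0 := this
    rw [h0, zero_mul]
  · have hsm : IsSmooth (∑ i, (μ z * f i z) • η (e i)) :=
      IsSmooth.sum _ fun i _ => (hη _).smul _
    have hcl : ∀ s : Finset (Fin (Fintype.card ↥t)),
        IsClosedForm (∑ i ∈ s, (μ z * f i z) • η (e i)) := by
      intro s
      induction s using Finset.induction_on with
      | empty => rw [Finset.sum_empty]; exact IsD.zero
      | insert a s ha ih =>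
        rw [Finset.sum_insert ha]
        have h1 := ((hηc (e a)).smul (μ z * f a z)).add ih ((hη _).smul _)
          (IsSmooth.sum _ fun i _ => (hη _).smul _)
        rwa [smul_zero, add_zero] at h1
    refine ⟨(hσs z).add hsm, ?_, fun x v hv => ?_⟩
    · have h1 := (hσc z).add (hcl Finset.univ) (hσs z) hsm
      rwa [add_zero] at h1
    · have hS : 0 ≤ σ z x ![v, J z x v] := hpos z x v
      have hval : (σ z + ∑ i, (μ z * f i z) • η (e i)) x ![v, J z x v] =
          σ z x ![v, J z x v] + ∑ i, (μ z * f i z) * η (e i) x ![v, J z x v] := by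
        have h1 : (σ z + ∑ i, (μ z * f i z) • η (e i)) x ![v, J z x v] =
          σ z x ![v, J z x v] + (∑ i, (μ z * f i z) • η (e i)) x ![v, J z x v] := rfl
        rw [h1, sum_apply2]
        rfl
      rw [hval]
      have hμz := hμ z
      have hsum : ∑ i, f i z = 1 := by
        rw [← finsum_eq_sum_of_fintype]
        exact f.sum_eq_one (mem_univ z)
      have hterm : ∀ i, f i z ≠ 0 → 0 < σ z x ![v, J z x v] + η (e i) x ![v, J z x v] := by
        intro i hi
        exact hNt (e i) z (hf i (subset_tsupport _ hi)) x v hv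
      rcases lt_or_eq_of_le hμz.1 with h | h
      · have e1 : σ z x ![v, J z x v] + ∑ i, (μ z * f i z) * η (e i) x ![v, J z x v] =
            (1 - μ z) * σ z x ![v, J z x v] +
              ∑ i, μ z * (f i z * (σ z x ![v, J z x v] + η (e i) x ![v, J z x v])) := by
          have e2 : ∑ i, μ z * (f i z * (σ z x ![v, J z x v] + η (e i) x ![v, J z x v])) =
              μ z * σ z x ![v, J z x v] * ∑ i, f i z +
                ∑ i, (μ z * f i z) * η (e i) x ![v, J z x v] := by
            rw [Finset.mul_sum, ← Finset.sum_add_distrib]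
            refine Finset.sum_congr rfl fun i _ => ?_
            ring
          rw [e2, hsum]
          ring
        rw [e1]
        have h2 : ∀ i, 0 ≤ μ z * (f i z * (σ z x ![v, J z x v] + η (e i) x ![v, J z x v])) := by
          intro i
          by_cases hi : f i z = 0
          · rw [hi, zero_mul, mul_zero]
          · exact mul_nonneg h.le (mul_nonneg (f.nonneg i z) (hterm i hi).le)
        obtain ⟨i, hi⟩ : ∃ i, 0 < f i z := f.exists_pos (mem_univ z)
        have h3 : 0 < ∑ i, μ z * (f i z * (σ z x ![v, J z x v] + η (e i) x ![v, J z x v])) :=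
          lt_of_lt_of_le (mul_pos h (mul_pos hi (hterm i hi.ne')))
            (Finset.single_le_sum (f := fun i => μ z * (f i z *
              (σ z x ![v, J z x v] + η (e i) x ![v, J z x v]))) (fun i _ => h2 i)
              (Finset.mem_univ i))
        have h4 : 0 ≤ (1 - μ z) * σ z x ![v, J z x v] :=
          mul_nonneg (by linarith [hμz.2]) hS
        linarith
      · have hz : ∀ x, TamesAt (σ z) (J z) x := by
          by_contra hne
          have h5 : μ z = 1 := hμ1 hne
          rw [h5] at h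
          exact zero_ne_one h
        have h6 : ∑ i, (μ z * f i z) * η (e i) x ![v, J z x v] = 0 := by
          refine Finset.sum_eq_zero fun i _ => ?_
          rw [← h]
          simp
        rw [h6, add_zero]
        exact hz x v hv

omit [IsManifold (𝓡 d) ∞ X] in
theorem plusSum_eq {n : ℕ} (σ : Form d X 2) (c : Fin n → ℝ) (η : Fin n → Form d X 2) :
    (fun x => σ x + ∑ i, c i • η i x) = σ + ∑ i, c i • η i := by
  funext x
  simp only [Pi.add_apply, Finset.sum_apply, Pi.smul_apply]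

theorem fam' [CompactSpace P] [T2Space P] [CompactSpace X] [T2Space X] {σ : P → Form d X 2}
    {J : P → End d X} (hJa : ∀ z, IsAlmostComplex (J z)) (hσs : ∀ z, IsSmooth (σ z))
    (hσc : ∀ z, IsClosedForm (σ z)) (hσ : FamForm σ) (hJ : FamEnd J) {A' : Set P}
    (hA : IsClosed A') (hAt : ∀ z ∈ A', ∀ x, TamesAt (σ z) (J z) x)
    (hsmall : ∀ z x, ¬ TamesAt (σ z) (J z) x →
      SmallAt (σ z) (J z) (connectedComponentIn {y | ¬ TamesAt (σ z) (J z) y} x) x) :
    ∃ (n : ℕ) (c : Fin n → P → ℝ) (α : Fin n → Form d X 1) (η : Fin n → Form d X 2),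
      (∀ i, Continuous (c i)) ∧ (∀ i, ∀ z ∈ A', c i z = 0) ∧
      (∀ i, IsSmooth (α i) ∧ IsSmooth (η i) ∧ IsD (α i) (η i)) ∧
      ∀ z, IsSmooth (d := d) (X := X) (fun x => σ z x + ∑ i, c i z • η i x) ∧
        IsClosedForm (d := d) (X := X) (fun x => σ z x + ∑ i, c i z • η i x) ∧
        ∀ x, TamesAt (d := d) (X := X) (fun x => σ z x + ∑ i, c i z • η i x) (J z) x := by
  obtain ⟨n, c, α, η, h1, h2, h3, h4⟩ := fam hJa hσs hσc hσ hJ hA hAt hsmall
  refine ⟨n, c, α, η, h1, h2, h3, fun z => ?_⟩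
  rw [plusSum_eq (σ z) (fun i => c i z) η]
  exact h4 z

end

end Pool.Agent.Y501.SY
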