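import Pool.Agent.Y501.SY.PubF
import Pool.Agent.Y501.SY.Bridge
import Pool.Agent.Y501.SY.Fam

/-!
Families with small exceptional sets: comparison of the definitions.
-/

set_option autoImplicit false

open Set Filter Topology MeasureTheory
open scoped Manifold ContDiff

noncomputable section

namespace Pool.Agent.Y501.SYP

section

variable {d : ℕ}

attribute [local instance] cs mf

theorem smallAt_of' {X : Type} [TopologicalSpace X] [ChartedSpace (ES d) X]
    {J : End (ES d) X} {σ : Form (ES d) X 2} {C : Set X} {z : X}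
    (h : SmallAt J C z (fun v => qd σ J z v ≤ 0)) :
    SY.SmallAt (d := d) (X := X) σ J C z := by
  rcases h with h | h | ⟨n, a, b, hab, hpos⟩
  · exact Or.inl h
  · exact Or.inr (Or.inl h)
  · choose N hN hN0 using fun i => (hab i).null
    refine Or.inr (Or.inr ⟨n, a, b, ⋂ i, N i, Filter.iInter_mem.2 hN, fun i => (hab i).smooth_a,
      fun i => (hab i).smooth_b, fun i => ?_, fun v hv h1 => ?_⟩)
    · exact measure_mono_null (image_mono (inter_subset_inter_right _ (iInter_subset _ _)))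
        (hN0 i)
    · have h3 := hpos v hv h1
      have e := SY.sum_apply2 (d := d) (X := X) Finset.univ
        (fun i => SY.dfdg (d := d) (X := X) (a i) (b i)) z ![v, J z v]
      refine lt_of_lt_of_eq h3 (Eq.trans ?_ e.symm)
      exact Finset.sum_congr rfl fun i _ =>
        (SY.dfdg_apply (d := d) (X := X) (a i) (b i) z v (J z v)).symm

theorem families {P : Type} [TopologicalSpace P] [CompactSpace P] [T2Space P]
    {X : Type} [TopologicalSpace X] [ChartedSpace (ES d) X] [IsManifold 𝓘(ℝ, ES d) ∞ X]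
    [CompactSpace X] [T2Space X] (J : P → End (ES d) X) (hJa : ∀ z, IsAlmostComplex (J z))
    (hJ : ContFamEnd J) (σ : P → Form (ES d) X 2) (hσs : ∀ z, IsSmooth (σ z))
    (hσc : ∀ z, IsClosedForm (σ z)) (hσ : ContFamForm σ) (A : Set P) (hA : IsClosed A)
    (hAt : ∀ z ∈ A, ∀ x, TamesAt (σ z) (J z) x)
    (hsmall : ∀ z, SmallNotTamed (σ z) (J z)) :
    ∃ (n : ℕ) (c : Fin n → P → ℝ) (α : Fin n → Form (ES d) X 1) (η : Fin n → Form (ES d) X 2),
      (∀ i, Continuous (c i)) ∧ (∀ i, ∀ z ∈ A, c i z = 0) ∧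
      (∀ i, IsSmooth (α i) ∧ IsSmooth (η i) ∧ IsD (α i) (η i)) ∧
      ∀ z, IsTamingSymplectic (plusSum (σ z) (fun i => c i z) η) (J z) := by
  obtain ⟨n, c, α, η, h1, h2, h3, h4⟩ := SY.fam' (d := d) (X := X) (P := P) (σ := σ) (J := J)
    (fun z => ac_of (J z) (hJa z)) (fun z => (smooth_iff (σ z)).1 (hσs z))
    (fun z => (closed_iff (σ z)).1 (hσc z)) hσ
    (fun x₀ => by
      rw [continuousOn_clm_apply]
      exact fun v => hJ x₀ v)
    hA hAt (fun z x hx => smallAt_of' (hsmall z x hx))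
  refine ⟨n, c, α, η, h1, h2, fun i => ⟨(smooth_iff _).2 (h3 i).1, (smooth_iff _).2 (h3 i).2.1,
    (isD_iff _ _).2 (h3 i).2.2⟩, fun z => ?_⟩
  obtain ⟨g1, g2, g3⟩ := h4 z
  exact symp_of ((smooth_iff _).2 g1) ((closed_iff _).2 g2) g3

end

end Pool.Agent.Y501.SYP
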