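import Pool.Agent.Y501.SY.Amen
import Pool.Agent.Y604.SY.Pull

/-!
Amenable descent of symplectic forms: the equivalence.
-/

set_option autoImplicit false

open Set Filter Topology MeasureTheory
open scoped Manifold ContDiff

noncomputable section

namespace Pool.Agent.Y501.SY

section

variable {d : ℕ} {Z X : Type} [TopologicalSpace Z] [ChartedSpace (E d) Z]
  [IsManifold (𝓡 d) ∞ Z] [TopologicalSpace X] [ChartedSpace (E d) X]
  [IsManifold (𝓡 d) ∞ X] {Γ : Type} [Group Γ] [MulAction Γ Z]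

/-- The two-form `w` on `Z` uniformly tames the lift of `J`: for every `z` and all nonzero `u`,
with `v` the vector with `dpr(v) = J dpr(u)`, the numbers `(γ^* w)(u, v)` are bounded below by a
positive constant, uniformly in `γ`. -/
def UnifTames (pr : Z → X) (J : End d X) (w : Form d Z 2) : Prop :=
  ∀ (z : Z) (u v : TangentSpace (𝓡 d) z), u ≠ 0 →
      mfderiv (𝓡 d) (𝓡 d) pr z v = J (pr z) (mfderiv (𝓡 d) (𝓡 d) pr z u) →
      ∃ c : ℝ, 0 < c ∧ ∀ γ : Γ, c ≤ pull (d := d) (fun z : Z => γ • z) w z ![u, v]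

theorem pull_inv (hsm : ∀ γ : Γ, ContMDiff (𝓡 d) (𝓡 d) ∞ (fun z : Z => γ • z)) {pr : Z → X}
    (hpr : ContMDiff (𝓡 d) (𝓡 d) ∞ pr)
    (hfib : ∀ (γ : Γ) (z : Z), pr (γ • z) = pr z) (σ : Form d X 2) (γ : Γ) :
    pull (d := d) (fun z : Z => γ • z) (pull (d := d) pr σ) = pull (d := d) pr σ := by
  funext z
  ext u
  have hu : ![u 0, u 1] = u := by
    funext i; fin_cases i <;> rfl
  rw [← hu, pull_apply, pull_apply, pull_apply]
  have h1 : pr ∘ (fun z : Z => γ • z) = pr := by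
    funext z; exact hfib γ z
  have h2 : ∀ u : TangentSpace (𝓡 d) z, mfderiv (𝓡 d) (𝓡 d) (pr ∘ (fun z : Z => γ • z)) z u =
      mfderiv (𝓡 d) (𝓡 d) pr (γ • z)
        (mfderiv (𝓡 d) (𝓡 d) (fun z : Z => γ • z) z u) := by
    intro u
    rw [mfderiv_comp z ((hpr (γ • z)).mdifferentiableAt (by simp))
      ((hsm γ z).mdifferentiableAt (by simp))]
    rfl
  have h3 : ∀ (q : Z → X), q = pr → ∀ a b : TangentSpace (𝓡 d) z,
      σ (q z) ![mfderiv (𝓡 d) (𝓡 d) q z a, mfderiv (𝓡 d) (𝓡 d) q z b] =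
      σ (pr z) ![mfderiv (𝓡 d) (𝓡 d) pr z a, mfderiv (𝓡 d) (𝓡 d) pr z b] := by
    rintro q rfl a b
    rfl
  have h4 := h3 _ h1 (u 0) (u 1)
  rw [h2, h2] at h4
  exact h4

theorem bdd_of_inv {w : Form d Z 2} (hw : IsSmooth w)
    (hsm : ∀ γ : Γ, ContMDiff (𝓡 d) (𝓡 d) ∞ (fun z : Z => γ • z))
    (hinv : ∀ γ : Γ, pull (d := d) (fun z : Z => γ • z) w = w) :
    BoundedTranslates (Γ := Γ) w := by
  intro U φ hU hφ
  have key : ∀ γ : Γ, ∀ p ∈ U, pb (fun p => γ • φ p) w p = pb φ w p := by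
    intro γ p hp
    have h0 : pb φ (pull (d := d) (fun z : Z => γ • z) w) p = pb φ w p := by rw [hinv]
    rw [← h0]
    have hφp : MDifferentiableAt (𝓡 d) (𝓡 d) φ p :=
      ((hφ p hp).contMDiffAt (hU.mem_nhds hp)).mdifferentiableAt (by simp)
    have h1 : mfderiv (𝓡 d) (𝓡 d) (fun p => γ • φ p) p =
        (mfderiv (𝓡 d) (𝓡 d) (fun z : Z => γ • z) (φ p)).comp (mfderiv (𝓡 d) (𝓡 d) φ p) :=
      mfderiv_comp p ((hsm γ (φ p)).mdifferentiableAt (by simp)) hφp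
    ext u
    change w (γ • φ p) (fun i => mfderiv (𝓡 d) (𝓡 d) (fun p => γ • φ p) p (u i)) = _
    rw [h1]
    rfl
  have hs := hw U φ hU hφ
  refine ⟨fun γ => hs.congr fun p hp => key γ p hp, fun n p hp => ?_⟩
  have hc : ContinuousOn (iteratedFDeriv ℝ n (pb φ w)) U := by
    intro q hq
    have h1 : ContDiffAt ℝ ∞ (pb φ w) q := (hs q hq).contDiffAt (hU.mem_nhds hq)
    exact (h1.iteratedFDeriv_right (m := 0) (i := n) (by rw [zero_add]; exact_mod_cast le_top)).continuousAt.continuousWithinAt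
  have h2 : ContinuousAt (fun q => ‖iteratedFDeriv ℝ n (pb φ w) q‖) p :=
    (hc.continuousAt (hU.mem_nhds hp)).norm
  refine ⟨{q | ‖iteratedFDeriv ℝ n (pb φ w) q‖ < ‖iteratedFDeriv ℝ n (pb φ w) p‖ + 1} ∩ U,
    Filter.inter_mem (h2.eventually (gt_mem_nhds (lt_add_one _))) (hU.mem_nhds hp),
    ‖iteratedFDeriv ℝ n (pb φ w) p‖ + 1, ?_⟩
  rintro q ⟨hq, hqU⟩ γ
  have h3 : pb (fun p => γ • φ p) w =ᶠ[𝓝 q] pb φ w := by
    filter_upwards [hU.mem_nhds hqU] with r hr using key γ r hr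
  rw [(h3.iteratedFDeriv ℝ n).self_of_nhds]
  exact hq.le

theorem amen_iff (hΓ : Amenable Γ)
    (hsm : ∀ γ : Γ, ContMDiff (𝓡 d) (𝓡 d) ∞ (fun z : Z => γ • z)) {pr : Z → X}
    (hpr : IsLocalDiffeomorph (𝓡 d) (𝓡 d) ∞ pr) (hsurj : Function.Surjective pr)
    (hfib : ∀ z z' : Z, pr z = pr z' ↔ ∃ γ : Γ, γ • z = z')
    (J : End d X) :
    (∃ σ : Form d X 2, IsSmooth σ ∧ IsClosedForm σ ∧ ∀ x, TamesAt σ J x) ↔
    ∃ w : Form d Z 2, IsSmooth w ∧ IsClosedForm w ∧ BoundedTranslates (Γ := Γ) w ∧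
      UnifTames (Γ := Γ) pr J w := by
  have hprs : ContMDiff (𝓡 d) (𝓡 d) ∞ pr := hpr.contMDiff
  constructor
  · rintro ⟨σ, hσ, hσc, ht⟩
    have hinv := pull_inv hsm hprs (fun γ z => ((hfib z (γ • z)).2 ⟨γ, rfl⟩).symm) σ
    obtain ⟨h1, h2⟩ := Pool.Agent.Y604.SY.t_PULL d d Z X pr σ hprs hσ hσc
    refine ⟨pull (d := d) pr σ, h1, h2, bdd_of_inv h1 hsm hinv, ?_⟩
    intro z u v hu hv
    have hbij : Function.Bijective (mfderiv (𝓡 d) (𝓡 d) pr z) := by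
      have h1 := (hpr z).mfderivToContinuousLinearEquiv_coe (by simp)
      rw [← h1]
      exact ((hpr z).mfderivToContinuousLinearEquiv (by simp)).bijective
    have hne : mfderiv (𝓡 d) (𝓡 d) pr z u ≠ 0 := by
      intro h0
      exact hu (hbij.1 (by rw [h0, map_zero]))
    refine ⟨_, ht (pr z) _ hne, fun γ => ?_⟩
    rw [hinv γ, pull_apply, hv]
  · rintro ⟨w, hw, hwc, hbd, ht⟩
    obtain ⟨m, hm⟩ := hΓ
    exact amen hm hsm hpr hsurj hfib J hw hwc hbd ht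

end

end Pool.Agent.Y501.SY
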