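import Pool.Agent.Y501.SY.Pub

/-!
Amenable groups, coverings and bounded forms: the definitions used in the statement.
-/

set_option autoImplicit false

open Set Filter Topology MeasureTheory
open scoped Manifold ContDiff

noncomputable section

namespace Pool.Agent.Y501.SYP

/-- bounded real functions -/
def Bdd {Γ : Type} (F : Γ → ℝ) : Prop := ∃ C : ℝ, ∀ γ, |F γ| ≤ C

/-- A right invariant mean on the bounded functions on a group `Γ` (the values of `m` at unbounded
functions are irrelevant). -/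
structure IsMean {Γ : Type} [Group Γ] (m : (Γ → ℝ) → ℝ) : Prop where
  add : ∀ F G, Bdd F → Bdd G → m (fun γ => F γ + G γ) = m F + m G
  smul : ∀ (c : ℝ) F, Bdd F → m (fun γ => c * F γ) = c * m F
  nonneg : ∀ F, Bdd F → (∀ γ, 0 ≤ F γ) → 0 ≤ m F
  one : m (fun _ => 1) = 1
  inv : ∀ (g : Γ) F, Bdd F → m (fun γ => F (γ * g)) = m F

/-- amenable (discrete) groups -/
def Amenable (Γ : Type) [Group Γ] : Prop := ∃ m : (Γ → ℝ) → ℝ, IsMean m

section

variable {V : Type} [NormedAddCommGroup V] [NormedSpace ℝ V]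

/-- A family of smooth functions on `U`, all of whose iterated derivatives are locally uniformly
bounded. -/
structure UnifBdd {Γ W : Type} [NormedAddCommGroup W] [NormedSpace ℝ W]
    (f : Γ → V → W) (U : Set V) : Prop where
  smooth : ∀ γ, ContDiffOn ℝ ∞ (f γ) U
  bound : ∀ n : ℕ, ∀ p ∈ U, ∃ N ∈ 𝓝 p, ∃ C : ℝ, ∀ q ∈ N, ∀ γ, ‖iteratedFDeriv ℝ n (f γ) q‖ ≤ C

variable {Z X : Type} [TopologicalSpace Z] [ChartedSpace V Z]
  [TopologicalSpace X] [ChartedSpace V X] (Γ : Type) [Group Γ] [MulAction Γ Z]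

variable (V) in
/-- `pr : Z → X` is a surjective smooth local diffeomorphism, `Γ` acts on `Z` by smooth maps and
the orbits of `Γ` are the fibres of `pr`. -/
structure NormalCovering (pr : Z → X) : Prop where
  smooth : ∀ γ : Γ, ContMDiff 𝓘(ℝ, V) 𝓘(ℝ, V) ∞ (fun z : Z => γ • z)
  diffeo : IsLocalDiffeomorph 𝓘(ℝ, V) 𝓘(ℝ, V) ∞ pr
  surj : Function.Surjective pr
  orbits : ∀ z z' : Z, pr z = pr z' ↔ ∃ γ : Γ, γ • z = z'

variable {Γ} in
/-- the pull-back of the two-form `w` by the action of `γ` -/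
def translate (γ : Γ) (w : Form V Z 2) : Form V Z 2 := fun z =>
  (w (γ • z)).compContinuousLinearMap (mfderiv 𝓘(ℝ, V) 𝓘(ℝ, V) (fun z : Z => γ • z) z)

/-- The translates of the two-form `w` by the group `Γ` are locally uniformly bounded, with all
their derivatives. -/
def BoundedTranslates (w : Form V Z 2) : Prop :=
  ∀ (U : Set V) (φ : V → Z), SmoothParam U φ →
    UnifBdd (fun (γ : Γ) => pb (fun p => γ • φ p) w) U

/-- The two-form `w` on `Z` uniformly tames the lift of `J`: for every `z` and all nonzero `u`,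
with `v` the vector with `dpr(v) = J dpr(u)`, the numbers `(γ^* w)(u, v)` are bounded below by a
positive constant, uniformly in `γ`. -/
def UnifTames (pr : Z → X) (J : End V X) (w : Form V Z 2) : Prop :=
  ∀ (z : Z) (u v : TangentSpace 𝓘(ℝ, V) z), u ≠ 0 →
    mfderiv 𝓘(ℝ, V) 𝓘(ℝ, V) pr z v = J (pr z) (mfderiv 𝓘(ℝ, V) 𝓘(ℝ, V) pr z u) →
    ∃ c : ℝ, 0 < c ∧ ∀ γ : Γ, c ≤ translate γ w z ![u, v]

end

end Pool.Agent.Y501.SYP
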