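import Pool.Agent.Y501.SY.Bridge
import Pool.Agent.Y501.SY.PubA
import Pool.Agent.Y501.SY.AmenIff

/-!
Amenable descent for the public definitions.
-/

set_option autoImplicit false

open Set Filter Topology MeasureTheory
open scoped Manifold ContDiff

noncomputable section

namespace Pool.Agent.Y501.SYP

attribute [local instance] cs mf

theorem mean_of {Γ : Type} [Group Γ] {m : (Γ → ℝ) → ℝ} (h : IsMean m) : SY.IsMean m :=
  ⟨h.add, h.smul, h.nonneg, h.one, h.inv⟩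

theorem amenable_of {Γ : Type} [Group Γ] (h : Amenable Γ) : SY.Amenable Γ := by
  obtain ⟨m, hm⟩ := h
  exact ⟨m, mean_of hm⟩

section

variable {d : ℕ} {Z X : Type} [TopologicalSpace Z] [ChartedSpace (ES d) Z]
  [IsManifold 𝓘(ℝ, ES d) ∞ Z] [TopologicalSpace X] [ChartedSpace (ES d) X]
  [IsManifold 𝓘(ℝ, ES d) ∞ X] {Γ : Type} [Group Γ] [MulAction Γ Z]

omit [IsManifold 𝓘(ℝ, ES d) ∞ Z] in
theorem bdt_iff (w : Form (ES d) Z 2) :
    BoundedTranslates Γ w ↔ SY.BoundedTranslates (d := d) (Z := Z) (Γ := Γ) w := by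
  constructor
  · intro h U φ hU hφ
    have := h U φ ⟨hU, hφ⟩
    exact ⟨this.smooth, this.bound⟩
  · intro h U φ hφ
    have := h U φ hφ.1 hφ.2
    exact ⟨this.1, this.2⟩

theorem amenable_descent (hΓ : Amenable Γ) (pr : Z → X) (hpr : NormalCovering (ES d) Γ pr)
    (J : End (ES d) X) :
    (∃ σ : Form (ES d) X 2, IsTamingSymplectic σ J) ↔
    ∃ w : Form (ES d) Z 2, IsSmooth w ∧ IsClosedForm w ∧ BoundedTranslates Γ w ∧
      UnifTames Γ pr J w := by
  have key := SY.amen_iff (d := d) (Z := Z) (X := X) (Γ := Γ) (amenable_of hΓ) hpr.smooth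
    (pr := pr) hpr.diffeo hpr.surj hpr.orbits J
  constructor
  · rintro ⟨σ, hσ⟩
    obtain ⟨w, h1, h2, h3, h4⟩ := key.1 ⟨σ, (smooth_iff σ).1 hσ.smooth,
      (closed_iff σ).1 hσ.closed, hσ.tames⟩
    exact ⟨w, (smooth_iff w).2 h1, (closed_iff w).2 h2, (bdt_iff w).2 h3, h4⟩
  · rintro ⟨w, h1, h2, h3, h4⟩
    obtain ⟨σ, g1, g2, g3⟩ := key.2 ⟨w, (smooth_iff w).1 h1, (closed_iff w).1 h2,
      (bdt_iff w).1 h3, h4⟩
    exact ⟨σ, symp_of ((smooth_iff σ).2 g1) ((closed_iff σ).2 g2) g3⟩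

end

end Pool.Agent.Y501.SYP
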