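import Pool.Agent.Y501.SY.PairL

/-!
Compact planar null sets: an exact form taming `J` over them.
-/

set_option autoImplicit false

open Set Filter Topology MeasureTheory
open scoped Manifold ContDiff

noncomputable section

namespace Pool.Agent.Y501.SY

theorem unif {X : Type} [TopologicalSpace X] {K : Set X} (hK : IsCompact K) (p : ℝ → X → Prop)
    (mono : ∀ ε ε' y, ε' ≤ ε → p ε y → p ε' y)
    (h : ∀ x ∈ K, ∃ ε : ℝ, 0 < ε ∧ ∀ᶠ y in 𝓝 x, p ε y) : ∃ ε : ℝ, 0 < ε ∧ ∀ y ∈ K, p ε y := by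
  refine hK.induction_on (p := fun S => ∃ ε : ℝ, 0 < ε ∧ ∀ y ∈ S, p ε y) ?_ ?_ ?_ ?_
  · exact ⟨1, one_pos, fun y hy => absurd hy (notMem_empty y)⟩
  · rintro s t hst ⟨ε, hε, hp⟩
    exact ⟨ε, hε, fun y hy => hp y (hst hy)⟩
  · rintro s t ⟨ε, hε, hp⟩ ⟨ε', hε', hp'⟩
    refine ⟨min ε ε', lt_min hε hε', ?_⟩
    rintro y (hy | hy)
    · exact mono _ _ _ (min_le_left _ _) (hp y hy)
    · exact mono _ _ _ (min_le_right _ _) (hp' y hy)
  · intro x hx
    obtain ⟨ε, hε, hp⟩ := h x hx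
    exact ⟨{y | p ε y}, mem_nhdsWithin_of_mem_nhds hp, ε, hε, fun y hy => hy⟩

section

variable {d : ℕ} {X : Type} [TopologicalSpace X] [ChartedSpace (E d) X]
  [IsManifold (𝓡 d) ∞ X]

theorem TamesAt.nhds (hP : S_PERT) {J : End d X} (hJ : IsAlmostComplex J) {σ : Form d X 2}
    (hσ : IsSmooth σ) {x : X} (h : TamesAt σ J x) : ∀ᶠ y in 𝓝 x, TamesAt σ J y := by
  obtain ⟨ε, hε, hp⟩ := hP d X J hJ (Fin 0) σ (fun _ => 0) hσ (fun k => k.elim0) x h
  filter_upwards [hp] with y hy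
  have := hy (fun _ => 0) (fun k => k.elim0)
  simpa using this

theorem core (hG : S_GEN) (hP : S_PERT) (hPl : S_PLANAR) {J : End d X}
    (hJ : IsAlmostComplex J) {K : Set X} (hK : IsCompact K) {ι : Type} [Fintype ι]
    (c a b : ι → X → ℝ) (hc : ∀ i, SmoothFun (d := d) (c i)) (ha : ∀ i, SmoothFun (d := d) (a i))
    (hb : ∀ i, SmoothFun (d := d) (b i))
    (hnull : ∀ i, volume ((fun x => (a i x, b i x)) '' K) = 0)
    (htau : ∀ x ∈ K, TamesAt (∑ i, hdfdg (c i) (a i) (b i)) J x) :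
    ∃ (α : Form d X 1) (η : Form d X 2), Pair α η ∧ ∀ x ∈ K, TamesAt η J x := by
  classical
  -- the error forms
  let e : ι × Bool → Form d X 2 := fun k =>
    if k.2 then hdfdg (fun _ => 1) (c k.1) (b k.1) else hdfdg (fun _ => 1) (c k.1) (a k.1)
  have he : ∀ k, IsSmooth (e k) := by
    rintro ⟨i, k⟩
    cases k
    · exact (hG d X (fun _ => 1) (c i) (a i) (SmoothFun.const 1) (hc i) (ha i)).2.1
    · exact (hG d X (fun _ => 1) (c i) (b i) (SmoothFun.const 1) (hc i) (hb i)).2.1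
  have hts : IsSmooth (∑ i, hdfdg (d := d) (c i) (a i) (b i)) :=
    IsSmooth.sum _ fun i _ => (hG d X (c i) (a i) (b i) (hc i) (ha i) (hb i)).2.1
  obtain ⟨ε, hε, hpert⟩ := unif hK
    (fun ε y => ∀ t : ι × Bool → ℝ, (∀ k, |t k| ≤ ε) →
      TamesAt ((∑ i, hdfdg (c i) (a i) (b i)) + ∑ k, t k • e k) J y)
    (fun ε ε' y hle hp t ht => hp t fun k => (ht k).trans hle)
    (fun x hx => hP d X J hJ (ι × Bool) _ e hts he x (htau x hx))
  have hcpt : ∀ i, IsCompact ((fun x => (a i x, b i x)) '' K) := fun i =>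
    hK.image ((ha i).continuous.prodMk (hb i).continuous)
  choose P Q hPs hQs hPε hQε hPQ using fun i => hPl _ (hcpt i) (hnull i) ε hε
  have s1 : ∀ i, SmoothFun (d := d) (fun x => P i (a i x)) := fun i =>
    SmoothFun.comp1 (hPs i) (ha i)
  have s2 : ∀ i, SmoothFun (d := d) (fun x => Q i (a i x, b i x)) := fun i =>
    SmoothFun.comp2 (hQs i) (ha i) (hb i)
  have s1' : ∀ i, SmoothFun (d := d) (fun x => c i x * P i (a i x)) := fun i => (hc i).mul (s1 i)
  have s2' : ∀ i, SmoothFun (d := d) (fun x => c i x * Q i (a i x, b i x)) := fun i =>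
    (hc i).mul (s2 i)
  have s2'' : ∀ i, SmoothFun (d := d) (fun x => (-1) * (c i x * Q i (a i x, b i x))) := fun i =>
    (SmoothFun.const (-1)).mul (s2' i)
  refine ⟨∑ i, (fdg (fun x => c i x * P i (a i x)) (b i) +
      fdg (fun x => (-1) * (c i x * Q i (a i x, b i x))) (a i)),
    ∑ i, (dfdg (fun x => c i x * P i (a i x)) (b i) +
      dfdg (fun x => (-1) * (c i x * Q i (a i x, b i x))) (a i)), ?_, ?_⟩
  · exact Pair.sum _ fun i _ => Pair.add _ _ _ _ (Pair.gen _ _ (s1' i) (hb i))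
      (Pair.gen _ _ (s2'' i) (ha i))
  · intro x hx v hv
    let t : ι × Bool → ℝ := fun k => if k.2 then P k.1 (a k.1 x) else - Q k.1 (a k.1 x, b k.1 x)
    have ht : ∀ k, |t k| ≤ ε := by
      rintro ⟨i, k⟩
      cases k
      · change |-Q i (a i x, b i x)| ≤ ε
        rw [abs_neg]; exact hQε i _
      · exact hPε i _
    have h1 := hpert x hx t ht v hv
    refine lt_of_lt_of_eq h1 ?_
    have h2 : ((∑ i, hdfdg (d := d) (c i) (a i) (b i)) + ∑ k, t k • e k) x ![v, J x v] =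
        (∑ i, hdfdg (d := d) (c i) (a i) (b i)) x ![v, J x v] +
          (∑ k, t k • e k) x ![v, J x v] := rfl
    rw [h2, sum_apply2, sum_apply2, sum_apply2, Fintype.sum_prod_type, ← Finset.sum_add_distrib]
    refine Finset.sum_congr rfl fun i _ => ?_
    rw [Fintype.sum_bool]
    have h3 : (t (i, true) • e (i, true)) x ![v, J x v] =
        P i (a i x) * (hdfdg (d := d) (fun _ => 1) (c i) (b i) x ![v, J x v]) := rfl
    have h4 : (t (i, false) • e (i, false)) x ![v, J x v] =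
        (- Q i (a i x, b i x)) * (hdfdg (d := d) (fun _ => 1) (c i) (a i) x ![v, J x v]) := rfl
    have h5 : (dfdg (d := d) (fun x => c i x * P i (a i x)) (b i) +
        dfdg (fun x => (-1) * (c i x * Q i (a i x, b i x))) (a i) : Form d X 2) x ![v, J x v] =
        dfdg (d := d) (fun x => c i x * P i (a i x)) (b i) x ![v, J x v] +
        dfdg (d := d) (fun x => (-1) * (c i x * Q i (a i x, b i x))) (a i) x ![v, J x v] := rfl
    rw [h3, h4, h5, hdfdg_apply, hdfdg_apply, hdfdg_apply, dfdg_apply, dfdg_apply,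
      dd_mul (hc i) (s1 i), dd_mul (hc i) (s1 i), dd_comp1 (hPs i) (ha i),
      dd_comp1 (hPs i) (ha i), dd_mul (SmoothFun.const (-1)) (s2' i),
      dd_mul (SmoothFun.const (-1)) (s2' i), dd_mul (hc i) (s2 i), dd_mul (hc i) (s2 i),
      dd_comp2 (hQs i) (ha i) (hb i), dd_comp2 (hQs i) (ha i) (hb i)]
    have h6 : ∀ w : TangentSpace (𝓡 d) x, dd (d := d) (fun _ : X => (-1 : ℝ)) x w = 0 := by
      intro w
      unfold dd
      rw [mfderiv_const]; rfl
    rw [h6, h6]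
    have h7 := hPQ i (a i x, b i x) ⟨x, hx, rfl⟩
    have h8 : fderiv ℝ (Q i) (a i x, b i x) ((0, 1) : ℝ × ℝ) = 1 - deriv (P i) (a i x) := by
      linarith
    rw [h8]
    ring

theorem cover (hG : S_GEN) (hP : S_PERT) (hL : S_LOCAL) (hPl : S_PLANAR) [T2Space X]
    {J : End d X} (hJ : IsAlmostComplex J) {K : Set X} (hK : IsCompact K)
    (hnull : PlanarNull d K) :
    ∃ (α : Form d X 1) (η : Form d X 2), Pair α η ∧ ∀ x ∈ K, TamesAt η J x := by
  classical
  choose g B hg hB using fun z => hL d X J hJ z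
  have hsm : ∀ z, IsSmooth (∑ j, ∑ k, B z j k • dfdg (d := d) (g z j) (g z k)) := by
    intro z
    refine IsSmooth.sum _ fun j _ => IsSmooth.sum _ fun k _ => IsSmooth.smul ?_ _
    have := (hG d X (fun _ => 1) (g z j) (g z k) (SmoothFun.const 1) (hg z j) (hg z k)).2.1
    have h2 : hdfdg (d := d) (fun _ => (1 : ℝ)) (g z j) (g z k) = dfdg (g z j) (g z k) := by
      funext x; exact one_smul ℝ _
    rwa [h2] at this
  have hnear : ∀ z, ∀ᶠ y in 𝓝 z, TamesAt (∑ j, ∑ k, B z j k • dfdg (g z j) (g z k)) J y :=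
    fun z => TamesAt.nhds hP hJ (hsm z) (hB z)
  have hchi : ∀ z : X, ∃ χ : X → ℝ, SmoothFun (d := d) χ ∧ (∀ y, 0 ≤ χ y) ∧ 0 < χ z ∧
      ∀ y, χ y ≠ 0 → TamesAt (∑ j, ∑ k, B z j k • dfdg (g z j) (g z k)) J y := by
    intro z
    obtain ⟨f, hf⟩ := (SmoothBumpFunction.nhds_basis_support (I := 𝓡 d) (hnear z)).ex_mem
    refine ⟨f, f.contMDiff, fun y => f.nonneg, by rw [f.eq_one]; exact one_pos, fun y hy => ?_⟩
    exact hf (subset_tsupport _ hy)
  choose χ hχ hχ0 hχz hχt using hchi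
  obtain ⟨t, htK, htc⟩ := hK.elim_nhds_subcover (fun z => {y | 0 < χ z y})
    (fun z _ => (isOpen_lt continuous_const (hχ z).continuous).mem_nhds (hχz z))
  refine core hG hP hPl hJ hK (ι := ↥t × (Fin d × Fin d))
    (fun i x => B i.1 i.2.1 i.2.2 * χ i.1 x) (fun i => g i.1 i.2.1) (fun i => g i.1 i.2.2)
    (fun i => (SmoothFun.const _).mul (hχ i.1)) (fun i => hg _ _) (fun i => hg _ _)
    (fun i => hnull _ _ (hg _ _) (hg _ _)) ?_
  intro x hx v hv
  rw [sum_apply2, Fintype.sum_prod_type]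
  have h1 : ∀ z : ↥t, ∑ i : Fin d × Fin d, (hdfdg (d := d) (fun x => B (z, i).1 (z, i).2.1 (z, i).2.2 * χ (z, i).1 x)
      (g (z, i).1 (z, i).2.1) (g (z, i).1 (z, i).2.2)) x ![v, J x v] =
      χ z x * (∑ j, ∑ k, B z j k • dfdg (d := d) (g z j) (g z k)) x ![v, J x v] := by
    intro z
    rw [Fintype.sum_prod_type, sum_apply2, Finset.mul_sum]
    refine Finset.sum_congr rfl fun j _ => ?_
    rw [sum_apply2, Finset.mul_sum]
    refine Finset.sum_congr rfl fun k _ => ?_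
    have h2 : (B z j k • dfdg (d := d) (g z j) (g z k)) x ![v, J x v] =
      B z j k * dfdg (d := d) (g z j) (g z k) x ![v, J x v] := rfl
    rw [h2, hdfdg_apply, dfdg_apply]
    ring
  have h3 : ∀ z : ↥t, 0 ≤ χ z x * (∑ j, ∑ k, B z j k • dfdg (d := d) (g z j) (g z k)) x ![v, J x v] := by
    intro z
    by_cases h : χ z x = 0
    · rw [h, zero_mul]
    · exact mul_nonneg (hχ0 _ _) (hχt z x h v hv).le
  obtain ⟨z, hzt, hz⟩ := mem_iUnion₂.1 (htc hx)
  have hz' : 0 < χ z x := hz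
  calc (0 : ℝ) < χ z x * (∑ j, ∑ k, B z j k • dfdg (d := d) (g z j) (g z k)) x ![v, J x v] :=
        mul_pos hz' (hχt z x hz'.ne' v hv)
    _ ≤ ∑ z : ↥t, χ z x * (∑ j, ∑ k, B z j k • dfdg (d := d) (g z j) (g z k)) x ![v, J x v] :=
        Finset.single_le_sum (f := fun z : ↥t => χ z x * (∑ j, ∑ k, B z j k • dfdg (d := d) (g z j) (g z k)) x ![v, J x v])
          (fun z _ => h3 z) (Finset.mem_univ (⟨z, hzt⟩ : ↥t))
    _ = _ := Finset.sum_congr rfl fun z _ => (h1 z).symm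

end

end Pool.Agent.Y501.SY
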