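import Pool.Agent.Y501.SY.BridgeT
import Pool.Agent.Y501.SY.Step
import Pool.Agent.Y407.SY.Cap
import Pool.Agent.Y932.SY.Ker
import Pool.Agent.Y394.SY.Sm
import Pool.Agent.Y515.SY.RG
import Pool.Agent.Y949.SY.Patch2
import Pool.Agent.Y929.SY.Glob
import Pool.Agent.Y427.SY.LReg
import Pool.Agent.Y44.SY.QB
import Pool.Agent.Y44.SY.Imm

/-!
Removable singularities of taming forms: all steps together.
-/

set_option autoImplicit false

open Set Filter Topology MeasureTheory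
open scoped Manifold ContDiff

noncomputable section

namespace Pool.Agent.Y501.SYP

theorem t_STEP : SY.S_STEP :=
  SY.step Pool.Agent.Y44.SY.t_IMM Pool.Agent.Y44.SY.t_QB Pool.Agent.Y427.SY.t_LREG
    Pool.Agent.Y515.SY.t_RG Pool.Agent.Y932.SY.Ker.t_KER Pool.Agent.Y394.SY.t_SM
    Pool.Agent.Y501.SY.t_CAP Pool.Agent.Y949.SY.t_PATCH2 Pool.Agent.Y363.SY.t_LOCAL
    Pool.Agent.Y484.SY.t_GEN Pool.Agent.Y455.SY.t_PERT

theorem removableSing {d : ℕ} {X : Type} [TopologicalSpace X] [ChartedSpace (ES d) X]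
    [IsManifold 𝓘(ℝ, ES d) ∞ X] [CompactSpace X] [T2Space X] (hd : 1 ≤ d)
    (J : End (ES d) X) (hJ : IsAlmostComplex J) (K : Set X) (hK : IsClosed K)
    (hH : ∀ x₀ : X, μH[(d : ℝ) - 1] (chartAt (ES d) x₀ '' (K ∩ (chartAt (ES d) x₀).source)) = 0)
    (σ : Form (ES d) X 2) (hσ : ClosedOff σ K) (hb : ∀ x ∈ K, BddNear σ K x)
    (hpos : ∀ x, x ∉ K → ∀ v : TangentSpace 𝓘(ℝ, ES d) x, 0 ≤ qd σ J x v)
    (hsmall : ∀ z ∈ Crit σ J K, SmallAll J (connectedComponentIn (Crit σ J K) z) z)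
    (U : Set X) (hU : IsOpen U) (hKU : K ⊆ U) :
    ∃ (α : Form (ES d) X 1) (η w : Form (ES d) X 2), IsSmooth α ∧ IsSmooth η ∧ IsD α η ∧
      IsTamingSymplectic w J ∧ ∀ x, x ∉ U → w x = addF σ η x :=
  removable Pool.Agent.Y44.SY.t_IMM Pool.Agent.Y44.SY.t_QB Pool.Agent.Y929.SY.t_GLOB t_STEP hd
    J hJ K hK hH σ hσ hb hpos hsmall U hU hKU

end Pool.Agent.Y501.SYP
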