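import Pool.Agent.Y501.SY.BridgeU
import Pool.Agent.Y903.SY.BT
import Pool.Agent.Y455.SY.Mean1
import Pool.Agent.Y945.SY.Desc1

/-!
Symplectic forms in a prescribed class: all steps together.
-/

set_option autoImplicit false

open Set Filter Topology MeasureTheory
open scoped Manifold ContDiff

noncomputable section

namespace Pool.Agent.Y501.SYP

theorem amenableClass {d : ℕ} {Z X : Type} [TopologicalSpace Z] [ChartedSpace (ES d) Z]
    [IsManifold 𝓘(ℝ, ES d) ∞ Z] [TopologicalSpace X] [ChartedSpace (ES d) X]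
    [IsManifold 𝓘(ℝ, ES d) ∞ X] {Γ : Type} [Group Γ] [MulAction Γ Z]
    [CompactSpace X] [T2Space X] (hΓ : Amenable Γ) (pr : Z → X)
    (hpr : NormalCovering (ES d) Γ pr) (J : End (ES d) X) (hJ : IsAlmostComplex J)
    (σ : Form (ES d) X 2) (hσ : IsSmooth σ) (hσc : IsClosedForm σ)
    (β : Form (ES d) Z 1) (η : Form (ES d) Z 2) (hβ : IsSmooth β) (hη : IsSmooth η)
    (hβη : IsD β η) (hbt : BoundedTranslates1 Γ β)
    (hsmall : SmallNotUnif Γ pr J (addF (lift pr σ) η)) :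
    ∃ (α : Form (ES d) X 1) (ρ : Form (ES d) X 2), IsSmooth α ∧ IsSmooth ρ ∧ IsD α ρ ∧
      IsTamingSymplectic (addF σ ρ) J ∧ ∀ τ : Form (ES d) X 2, (∀ x, TamesAt τ J x) →
        ∀ t : ℝ, 0 ≤ t → t ≤ 1 → Nondeg (seg τ (addF σ ρ) t) :=
  amenable_class Pool.Agent.Y903.SY.t_BT Pool.Agent.Y455.SY.t_MEAN1 Pool.Agent.Y945.SY.t_DESC1
    hΓ pr hpr J hJ σ hσ hσc β η hβ hη hβη hbt hsmall

end Pool.Agent.Y501.SYP
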