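import Pool.Agent.Y501.SY.StmT
import Pool.Agent.Y515.SY.RG

/-!
Removable singularities in a prescribed class: statements of the steps.
-/

set_option autoImplicit false

open Set Filter Topology MeasureTheory
open scoped Manifold ContDiff

noncomputable section

namespace Pool.Agent.Y501.SY

open Pool.Agent.Y515.SY (Al LL JJ)

/-- the averages of the pull-backs of a one-form by the maps `p ↦ p + χ(p) y` -/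
def JJ1 {d : ℕ} (ρ χ : E d → ℝ) (b : E d → Al d 1) (p : E d) : Al d 1 :=
  ∫ y, ρ y • (b (p + χ p • y)).compContinuousLinearMap (LL (fderiv ℝ χ p) y)

/-- the exterior derivative commutes with the averages, for a bounded one-form with bounded
exterior derivative off a set of capacity zero -/
def S_J1 : Prop := S_KER → S_SM → ∀ (d : ℕ) (V k Q : Set (E d)) (χ ρ : E d → ℝ)
  (b : E d → Al d 1) (B ε : ℝ), IsOpen (V \ k) → Q ⊆ V → Cap (k ∩ Q) → ContDiff ℝ ∞ χ →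
  (∀ p, 0 ≤ χ p) → 0 < ε → Moll ε ρ → ContDiffOn ℝ ∞ b (V \ k) → 0 ≤ B →
  (∀ p ∈ V \ k, ‖b p‖ ≤ B) → (∀ p ∈ V \ k, ‖extDeriv b p‖ ≤ B) →
  ∀ p₀ : E d, ((p₀ ∈ V \ k ∧ χ p₀ = 0) ∨ (0 < χ p₀ ∧ ∀ y, ‖y‖ ≤ ε → p₀ + χ p₀ • y ∈ Q)) →
  ContDiffAt ℝ ∞ (JJ1 ρ χ ((V \ k).indicator b)) p₀ ∧
    extDeriv (JJ1 ρ χ ((V \ k).indicator b)) p₀ =
      JJ ρ χ ((V \ k).indicator (extDeriv b)) p₀

/-- the homotopy formula for the averages of a smooth closed two-form -/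
def S_HH : Prop := S_SM → ∀ (d : ℕ) (V : Set (E d)) (χ ρ : E d → ℝ) (s : E d → Al d 2) (ε : ℝ),
  IsOpen V → ContDiff ℝ ∞ χ → (∀ p, 0 ≤ χ p) → HasCompactSupport χ → 0 < ε → Moll ε ρ →
  ContDiffOn ℝ ∞ s V → (∀ p ∈ V, extDeriv s p = 0) →
  (∀ p ∈ V, ∀ y, ‖y‖ ≤ ε → ∀ t : ℝ, 0 ≤ t → t ≤ 1 → p + (t * χ p) • y ∈ V) →
  ∃ h : E d → Al d 1, ContDiffOn ℝ ∞ h V ∧ (∀ p, χ p = 0 → h p = 0) ∧
    ∀ p ∈ V, extDeriv h p = JJ ρ χ s p - s p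

/-- local regularization of a primitive of a uniformly taming form -/
def S_RGP : Prop := S_KER → S_SM → S_J1 → S_HH → ∀ (d : ℕ) (V k : Set (E d)) (χ : E d → ℝ)
  (s₀ t : E d → Al d 2) (b : E d → Al d 1) (Js : E d → (E d →L[ℝ] E d)) (B c : ℝ), 0 < c →
  IsOpen V → k ⊆ V → IsOpen (V \ k) → (∀ Q : Set (E d), IsCompact Q → Q ⊆ V → Cap (k ∩ Q)) →
  ContDiff ℝ ∞ χ → (∀ p, 0 ≤ χ p) → HasCompactSupport χ → tsupport χ ⊆ V →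
  ContDiffOn ℝ ∞ s₀ V → (∀ p ∈ V, extDeriv s₀ p = 0) → (∀ p ∈ V, ‖s₀ p‖ ≤ B) →
  ContDiffOn ℝ ∞ t V → (∀ p ∈ V, extDeriv t p = 0) → (∀ p ∈ V, ‖t p‖ ≤ B) →
  ContDiffOn ℝ ∞ b (V \ k) → (∀ p ∈ V \ k, ‖b p‖ ≤ B) →
  (∀ p ∈ V \ k, ‖s₀ p + extDeriv b p‖ ≤ B) →
  ContinuousOn Js V → (∀ p ∈ V, ‖Js p‖ ≤ B) →
  (∀ p ∈ V, ∀ v : E d, c * ‖v‖ ^ 2 ≤ t p ![v, Js p v]) →
  (∀ p ∈ V \ k, ∀ v : E d, c * ‖v‖ ^ 2 ≤ (s₀ p + extDeriv b p) ![v, Js p v]) →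
  ∃ (b' : E d → Al d 1) (B' c' : ℝ), 0 < c' ∧
    ContDiffOn ℝ ∞ b' (V \ (k ∩ {p | χ p = 0})) ∧
    (∀ p ∈ V \ (k ∩ {p | χ p = 0}), ‖b' p‖ ≤ B') ∧
    (∀ p ∈ V \ (k ∩ {p | χ p = 0}), ‖s₀ p + extDeriv b' p‖ ≤ B') ∧
    (∀ p, χ p = 0 → b' p = b p) ∧
    ∀ p ∈ V \ (k ∩ {p | χ p = 0}), ∀ v : E d,
      c' * ‖v‖ ^ 2 ≤ (s₀ p + extDeriv b' p) ![v, Js p v]

/-- patching of a one-form and of its exterior derivative -/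
def S_PATCHP : Prop := ∀ (d : ℕ) (X : Type) [TopologicalSpace X] [ChartedSpace (E d) X]
  [IsManifold (𝓡 d) ∞ X] [T2Space X] (x₀ : X) (O K K' : Set X) (N' : Set (E d))
  (b' : E d → Al d 1) (β : Form d X 1) (σ₀ σ : Form d X 2), IsOpen O →
  O ⊆ (chartAt (E d) x₀).source → IsClosed K' → K' ⊆ K → IsCompact N' →
  N' ⊆ chartAt (E d) x₀ '' O → (∀ x ∈ K, x ∉ K' → x ∈ O ∧ chartAt (E d) x₀ x ∈ N') →
  ContDiffOn ℝ ∞ b' ((chartAt (E d) x₀ '' O) \ (chartAt (E d) x₀ '' (K' ∩ O))) →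
  (∀ p ∈ (chartAt (E d) x₀ '' O) \ N', b' p = pb (chartAt (E d) x₀).symm β p) →
  IsSmooth σ₀ → IsClosedForm σ₀ → SmoothOff β K → SmoothOff σ K → IsDOff β (σ - σ₀) K →
  ∃ (β₁ : Form d X 1) (σ₁ : Form d X 2), SmoothOff β₁ K' ∧ SmoothOff σ₁ K' ∧
    IsDOff β₁ (σ₁ - σ₀) K' ∧
    (∀ x, x ∉ O ∨ chartAt (E d) x₀ x ∉ N' → β₁ x = β x ∧ σ₁ x = σ x) ∧
    (∀ p ∈ chartAt (E d) x₀ '' O, pb (chartAt (E d) x₀).symm β₁ p = b' p) ∧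
    ∀ p ∈ (chartAt (E d) x₀ '' O) \ (chartAt (E d) x₀ '' (K' ∩ O)),
      pb (chartAt (E d) x₀).symm σ₁ p = pb (chartAt (E d) x₀).symm σ₀ p + extDeriv b' p

end Pool.Agent.Y501.SY
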