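import Pool.Agent.Y501.SY.BridgeV
import Pool.Agent.Y501.SY.FinalT
import Pool.Agent.Y891.SY.PatchP
import Pool.Agent.Y972.SY.RGP
import Pool.Agent.Y710.SY.J1
import Pool.Agent.Y689.SY.HH

/-!
Removable singularities in a prescribed class: all steps together.
-/

set_option autoImplicit false

open Set Filter Topology MeasureTheory
open scoped Manifold ContDiff

noncomputable section

namespace Pool.Agent.Y501.SYP

theorem removableInClass {d : ℕ} {X : Type} [TopologicalSpace X] [ChartedSpace (ES d) X]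
    [IsManifold 𝓘(ℝ, ES d) ∞ X] [CompactSpace X] [T2Space X]
    (hd : 1 ≤ d) (J : End (ES d) X) (hJ : IsAlmostComplex J) (K : Set X) (hK : IsClosed K)
    (hH : ∀ x₀ : X, μH[(d : ℝ) - 1] (chartAt (ES d) x₀ '' (K ∩ (chartAt (ES d) x₀).source)) = 0)
    (σ₀ : Form (ES d) X 2) (hσ₀ : IsSmooth σ₀) (hσ₀c : IsClosedForm σ₀)
    (β : Form (ES d) X 1) (σ : Form (ES d) X 2) (hβ : SmoothOff β K) (hσ : SmoothOff σ K)
    (hβσ : EqPlusD σ σ₀ β K) (hb : ∀ x ∈ K, BddNearK β K x ∧ BddNearK σ K x)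
    (hpos : ∀ x, x ∉ K → ∀ v : TangentSpace 𝓘(ℝ, ES d) x, 0 ≤ qd σ J x v)
    (hsmall : ∀ z ∈ Crit σ J K, SmallAll J (connectedComponentIn (Crit σ J K) z) z) :
    ∃ (α : Form (ES d) X 1) (ρ : Form (ES d) X 2), IsSmooth α ∧ IsSmooth ρ ∧ IsD α ρ ∧
      IsTamingSymplectic (addF σ₀ ρ) J ∧ ∀ τ : Form (ES d) X 2, (∀ x, TamesAt τ J x) →
        ∀ t : ℝ, 0 ≤ t → t ≤ 1 → NondegForm (segment τ (addF σ₀ ρ) t) :=
  removableClass Pool.Agent.Y44.SY.t_IMM Pool.Agent.Y44.SY.t_QB Pool.Agent.Y929.SY.t_GLOB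
    Pool.Agent.Y972.SY.t_RGP Pool.Agent.Y710.SY.t_J1 Pool.Agent.Y689.SY.t_HH
    Pool.Agent.Y932.SY.Ker.t_KER Pool.Agent.Y394.SY.t_SM Pool.Agent.Y501.SY.t_CAP
    Pool.Agent.Y891.SY.t_PATCHP hd J hJ K hK hH σ₀ hσ₀ hσ₀c β σ hβ hσ hβσ hb hpos hsmall

end Pool.Agent.Y501.SYP
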