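import Pool.Agent.Y501.SY.Cover2

/-!
The main theorem, assuming the statements of the steps.
-/

set_option autoImplicit false

open Set Filter Topology MeasureTheory
open scoped Manifold ContDiff

noncomputable section

namespace Pool.Agent.Y501.SY

theorem compact_comp {Y : Type} [TopologicalSpace Y] {F : Set Y} (hF : IsCompact F)
    {z : Y} (hz : z ∈ F) : IsCompact (connectedComponentIn F z) := by
  have : CompactSpace ↥F := isCompact_iff_compactSpace.1 hF
  rw [connectedComponentIn_eq_image hz]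
  exact isClosed_connectedComponent.isCompact.image continuous_subtype_val

section

variable {d : ℕ} {X : Type} [TopologicalSpace X] [ChartedSpace (E d) X]

/-- `J` is tamed by a symplectic form in the class of `σ`. -/
def TamedInClass (J : End d X) (σ : Form d X 2) : Prop :=
  ∃ (σ' : Form d X 2) (α : Form d X 1), IsSmooth σ' ∧ IsClosedForm σ' ∧
    (∀ x, TamesAt σ' J x) ∧ IsSmooth α ∧ IsD α (σ' - σ)

variable [IsManifold (𝓡 d) ∞ X]

theorem main2 (hG : S_GEN) (hP : S_PERT) (hN : S_NULL) (hPl : S_PLANAR)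
    [CompactSpace X] [T2Space X] {J : End d X} (hJ : IsAlmostComplex J)
    {m : ℕ} {Y : Type} [TopologicalSpace Y]
    [ChartedSpace (E m) Y] [IsManifold (𝓡 m) ∞ Y] [T2Space Y] {f : X → Y}
    (hf : ContMDiff (𝓡 d) (𝓡 m) ∞ f) {σ : Form d X 2} (hσ : IsSmooth σ)
    (hσc : IsClosedForm σ)
    (hpos : ∀ (x : X) (v : TangentSpace (𝓡 d) x), 0 ≤ σ x ![v, J x v])
    (hker : ∀ (x : X) (v : TangentSpace (𝓡 d) x), σ x ![v, J x v] = 0 →
      mfderiv (𝓡 d) (𝓡 m) f x v = 0)
    (hthin : ∀ z : X, ¬ TamesAt σ J z →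
      ThinAt σ J (connectedComponentIn ({x | ¬ TamesAt σ J x} ∩ f ⁻¹' {f z}) z) z) :
    TamedInClass J σ := by
  have hDc : IsClosed {x | ¬ TamesAt σ J x} := by
    rw [← isOpen_compl_iff, isOpen_iff_eventually]
    intro x hx
    have hx' : TamesAt σ J x := by
      by_contra h; exact hx h
    filter_upwards [TamesAt.nhds hP hJ hσ hx'] with y hy h
    exact h hy
  have hD : IsCompact {x | ¬ TamesAt σ J x} := hDc.isCompact
  obtain ⟨α, η, hpair, hη⟩ := glue hJ σ hD
    (by
      intro x v hv h0 ht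
      have := ht v hv
      rw [h0] at this
      exact lt_irrefl _ this)
    (by
      intro z hz
      have hzF : z ∈ {x | ¬ TamesAt σ J x} ∩ f ⁻¹' {f z} := ⟨hz, rfl⟩
      have hF : IsCompact ({x | ¬ TamesAt σ J x} ∩ f ⁻¹' {f z}) :=
        hD.inter_right (isClosed_singleton.preimage hf.continuous)
      obtain ⟨α, η, hpair, hη⟩ := coverN hG hP hN hPl hJ hσ hpos
        (compact_comp hF hzF) (by
          intro w hw
          have hwF := connectedComponentIn_subset _ _ hw
          have h1 := hthin w hwF.1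
          have h2 : f w = f z := hwF.2
          rw [h2] at h1
          rw [connectedComponentIn_eq hw]
          exact h1)
      have hU : IsOpen {x | ∀ᶠ y in 𝓝 x, NullPos σ J η y} := isOpen_setOfPred_eventually_nhds
      obtain ⟨u, hu, hu0, huz, huU, hud⟩ := sepfun hf hD hz hU
        (fun x hx => NullPos.nhds hP hN hJ hσ (hpair.props hG).2.1 hpos (hη x hx))
      refine ⟨u, α, η, hu, fun x hx v hv => hud x hx v (hker x v hv), hu0, huz, hpair, ?_⟩
      intro x hx hux v hv h0
      exact (huU x hx hux).self_of_nhds v hv h0)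
  obtain ⟨hα, hηs, hαη, hηc⟩ := hpair.props hG
  obtain ⟨ε, hε, ht⟩ := unif isCompact_univ
    (fun ε y => ∀ ε' : ℝ, 0 < ε' → ε' ≤ ε → TamesAt (σ + ε' • η) J y)
    (fun ε ε' y hle hp ε'' h0 h1 => hp ε'' h0 (h1.trans hle))
    (fun x _ => hN d X J hJ σ η hσ hηs hpos x (hη x))
  refine ⟨σ + ε • η, ε • α, hσ.add (hηs.smul ε), ?_, fun x => ht x (mem_univ x) ε hε le_rfl,
    hα.smul ε, ?_⟩
  · have h1 := hσc.add (hηc.smul ε) hσ (hηs.smul ε)
    have h2 : (0 : Form d X 3) + ε • (0 : Form d X 3) = 0 := by rw [smul_zero, add_zero]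
    rw [h2] at h1
    exact h1
  · have h1 := hαη.smul ε
    rwa [add_sub_cancel_left]

/-- planar null sets are thin -/
theorem PlanarNull.thinAt (hL : S_LOCAL) [T2Space X] {J : End d X} (hJ : IsAlmostComplex J)
    (σ : Form d X 2) {C : Set X} (hC : PlanarNull d C) (z : X) : ThinAt σ J C z := by
  obtain ⟨g, B, hg, hB⟩ := hL d X J hJ z
  refine ⟨d * d, fun i x => B (finProdFinEquiv.symm i).1 (finProdFinEquiv.symm i).2 *
    g (finProdFinEquiv.symm i).1 x, fun i => g (finProdFinEquiv.symm i).2, univ,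
    univ_mem, fun i => (SmoothFun.const _).mul (hg _), fun i => hg _, fun i => ?_,
    fun v hv _ => ?_⟩
  · rw [inter_univ]
    exact hC _ _ ((SmoothFun.const _).mul (hg _)) (hg _)
  · have h1 := hB v hv
    refine lt_of_lt_of_eq h1 ?_
    rw [sum_apply2, sum_apply2, ← finProdFinEquiv.sum_comp, Fintype.sum_prod_type]
    refine Finset.sum_congr rfl fun j _ => ?_
    rw [sum_apply2]
    refine Finset.sum_congr rfl fun k _ => ?_
    have h2 : (B j k • dfdg (d := d) (g j) (g k)) z ![v, J z v] =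
      B j k * dfdg (d := d) (g j) (g k) z ![v, J z v] := rfl
    have h6 : ∀ w : TangentSpace (𝓡 d) z, dd (d := d) (fun _ : X => B j k) z w = 0 := by
      intro w
      unfold dd
      rw [mfderiv_const]; rfl
    rw [h2, dfdg_apply, dfdg_apply]
    simp only [Equiv.symm_apply_apply]
    rw [dd_mul (SmoothFun.const _) (hg _), dd_mul (SmoothFun.const _) (hg _), h6, h6]
    ring

end

section

variable {d m : ℕ} {X Y : Type} [TopologicalSpace X] [ChartedSpace (E d) X]
  [IsManifold (𝓡 d) ∞ X] [TopologicalSpace Y] [ChartedSpace (E m) Y] [IsManifold (𝓡 m) ∞ Y]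

theorem pull_apply (f : X → Y) (τ : Form m Y 2) (x : X) (v w : TangentSpace (𝓡 d) x) :
    pull (d := d) f τ x ![v, w] =
      τ (f x) ![mfderiv (𝓡 d) (𝓡 m) f x v, mfderiv (𝓡 d) (𝓡 m) f x w] := by
  unfold pull
  rw [ContinuousAlternatingMap.compContinuousLinearMap_apply]
  congr 1
  funext i
  fin_cases i <;> rfl

theorem mapThm (hG : S_GEN) (hP : S_PERT) (hN : S_NULL) (hPl : S_PLANAR) (hPu : S_PULL)
    [CompactSpace X] [T2Space X] [T2Space Y] {J : End d X} (hJ : IsAlmostComplex J)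
    (JY : End m Y) {f : X → Y}
    (hf : ContMDiff (𝓡 d) (𝓡 m) ∞ f)
    (hfJ : ∀ (x : X) (v : TangentSpace (𝓡 d) x), mfderiv (𝓡 d) (𝓡 m) f x (J x v) =
      JY (f x) (mfderiv (𝓡 d) (𝓡 m) f x v))
    {τ : Form m Y 2} (hτ : IsSmooth τ) (hτc : IsClosedForm τ)
    (hpos : ∀ x : X, TamesAt τ JY (f x))
    (hthin : ∀ z : X, ¬ Function.Injective (mfderiv (𝓡 d) (𝓡 m) f z) →
      ThinAt (pull f τ) J (connectedComponentIn
        ({x | ¬ Function.Injective (mfderiv (𝓡 d) (𝓡 m) f x)} ∩ f ⁻¹' {f z}) z) z) :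
    TamedInClass J (pull f τ) := by
  have key : ∀ (x : X) (v : TangentSpace (𝓡 d) x), pull (d := d) f τ x ![v, J x v] =
      τ (f x) ![mfderiv (𝓡 d) (𝓡 m) f x v, JY (f x) (mfderiv (𝓡 d) (𝓡 m) f x v)] := by
    intro x v
    rw [pull_apply, hfJ]
  have hker : ∀ (x : X) (v : TangentSpace (𝓡 d) x), pull (d := d) f τ x ![v, J x v] = 0 →
      mfderiv (𝓡 d) (𝓡 m) f x v = 0 := by
    intro x v h0
    by_contra hne
    have := hpos x _ hne
    rw [← key, h0] at this
    exact lt_irrefl _ this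
  have hz : ∀ (x : X) (v : TangentSpace (𝓡 d) x), mfderiv (𝓡 d) (𝓡 m) f x v = 0 →
      pull (d := d) f τ x ![v, J x v] = 0 := by
    intro x v h0
    rw [key, h0, map_zero]
    have : (![0, 0] : Fin 2 → TangentSpace (𝓡 m) (f x)) = 0 := by
      funext i; fin_cases i <;> rfl
    rw [this]
    exact (τ (f x)).map_zero
  have hD : {x | ¬ TamesAt (pull (d := d) f τ) J x} =
      {x | ¬ Function.Injective (mfderiv (𝓡 d) (𝓡 m) f x)} := by
    ext x
    rw [mem_setOf_eq, mem_setOf_eq, not_iff_not]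
    constructor
    · intro h
      rw [injective_iff_map_eq_zero]
      intro v hv
      by_contra hne
      have h1 := h v hne
      rw [hz x v hv] at h1
      exact lt_irrefl _ h1
    · intro h v hv
      rw [key]
      apply hpos x
      intro h0
      exact hv ((injective_iff_map_eq_zero _).1 h v h0)
  refine main2 hG hP hN hPl hJ hf (hPu d m X Y f τ hf hτ hτc).1 (hPu d m X Y f τ hf hτ hτc).2
    ?_ hker ?_
  · intro x v
    rw [key]
    by_cases h0 : mfderiv (𝓡 d) (𝓡 m) f x v = 0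
    · rw [← key, hz x v h0]
    · exact (hpos x _ h0).le
  · intro z hzt
    rw [hD]
    apply hthin
    have : z ∈ {x | ¬ TamesAt (pull (d := d) f τ) J x} := hzt
    rw [hD] at this
    exact this

end

end Pool.Agent.Y501.SY
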