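import Pool.Agent.Y153.SY.Avg
import Pool.Agent.Y141.SY.Mean
import Pool.Agent.Y391.SY.Desc
import Pool.Agent.Y501.SY.Main2

/-!
Amenable descent of symplectic forms.
-/

set_option autoImplicit false

open Set Filter Topology MeasureTheory
open scoped Manifold ContDiff

noncomputable section

namespace Pool.Agent.Y501.SY

section

variable {d : ℕ} {Z X : Type} [TopologicalSpace Z] [ChartedSpace (E d) Z]
  [IsManifold (𝓡 d) ∞ Z] [TopologicalSpace X] [ChartedSpace (E d) X]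
  [IsManifold (𝓡 d) ∞ X] {Γ : Type} [Group Γ] [MulAction Γ Z]

theorem pull_mul (hsm : ∀ γ : Γ, ContMDiff (𝓡 d) (𝓡 d) ∞ (fun z : Z => γ • z))
    (w : Form d Z 2) (γ g : Γ) (z : Z) (u v : TangentSpace (𝓡 d) z) :
    pull (d := d) (fun z : Z => γ • z) w (g • z)
      ![mfderiv (𝓡 d) (𝓡 d) (fun z : Z => g • z) z u,
        mfderiv (𝓡 d) (𝓡 d) (fun z : Z => g • z) z v] =
    pull (d := d) (fun z : Z => (γ * g) • z) w z ![u, v] := by
  have h1 : (fun z : Z => (γ * g) • z) = (fun z : Z => γ • z) ∘ (fun z : Z => g • z) := by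
    funext z; exact mul_smul γ g z
  have h2 : ∀ u : TangentSpace (𝓡 d) z, mfderiv (𝓡 d) (𝓡 d) ((fun z : Z => γ • z) ∘ (fun z : Z => g • z)) z u =
      mfderiv (𝓡 d) (𝓡 d) (fun z : Z => γ • z) (g • z)
        (mfderiv (𝓡 d) (𝓡 d) (fun z : Z => g • z) z u) := by
    intro u
    rw [mfderiv_comp z ((hsm γ (g • z)).mdifferentiableAt (by simp))
      ((hsm g z).mdifferentiableAt (by simp))]
    rfl
  rw [h1, pull_apply, pull_apply, h2, h2]
  rfl

theorem amen {m : (Γ → ℝ) → ℝ} (hm : IsMean m)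
    (hsm : ∀ γ : Γ, ContMDiff (𝓡 d) (𝓡 d) ∞ (fun z : Z => γ • z)) {pr : Z → X}
    (hpr : IsLocalDiffeomorph (𝓡 d) (𝓡 d) ∞ pr) (hsurj : Function.Surjective pr)
    (hfib : ∀ z z' : Z, pr z = pr z' ↔ ∃ γ : Γ, γ • z = z')
    (J : End d X) {w : Form d Z 2} (hw : IsSmooth w) (hwc : IsClosedForm w)
    (hbd : BoundedTranslates (Γ := Γ) w)
    (htame : ∀ (z : Z) (u v : TangentSpace (𝓡 d) z), u ≠ 0 →
      mfderiv (𝓡 d) (𝓡 d) pr z v = J (pr z) (mfderiv (𝓡 d) (𝓡 d) pr z u) →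
      ∃ c : ℝ, 0 < c ∧ ∀ γ : Γ, c ≤ pull (d := d) (fun z : Z => γ • z) w z ![u, v]) :
    ∃ σ : Form d X 2, IsSmooth σ ∧ IsClosedForm σ ∧ ∀ x, TamesAt σ J x := by
  obtain ⟨w', hw', hwc', hav⟩ := Pool.Agent.Y141.SY.t_MEAN Pool.Agent.Y153.SY.t_AVG d Z Γ m hm
    hsm w hw hwc hbd
  have hinv : ∀ γ : Γ, pull (d := d) (fun z : Z => γ • z) w' = w' := by
    intro g
    funext z
    ext u
    have hu : ![u 0, u 1] = u := by
      funext i; fin_cases i <;> rfl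
    have e1 : pull (d := d) (fun z : Z => g • z) w' z u =
        w' (g • z) ![mfderiv (𝓡 d) (𝓡 d) (fun z : Z => g • z) z (u 0),
          mfderiv (𝓡 d) (𝓡 d) (fun z : Z => g • z) z (u 1)] := by
      rw [← pull_apply, hu]
    rw [e1, (hav _ _).2, (hav _ _).2]
    have e2 : (fun γ : Γ => pull (d := d) (fun z : Z => γ • z) w (g • z)
        ![mfderiv (𝓡 d) (𝓡 d) (fun z : Z => g • z) z (u 0),
          mfderiv (𝓡 d) (𝓡 d) (fun z : Z => g • z) z (u 1)]) =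
        fun γ : Γ => (fun γ : Γ => pull (d := d) (fun z : Z => γ • z) w z u) (γ * g) := by
      funext γ
      rw [pull_mul hsm, hu]
    rw [e2, hm.inv g _ (hav z u).1]
  obtain ⟨σ, hσ, hσc, hpull⟩ := Pool.Agent.Y391.SY.t_DESC d Z X Γ pr hsm hpr hsurj hfib w' hw' hwc'
    hinv
  refine ⟨σ, hσ, hσc, fun x v hv => ?_⟩
  obtain ⟨z, rfl⟩ := hsurj x
  have hbij : Function.Bijective (mfderiv (𝓡 d) (𝓡 d) pr z) := by
    have h1 := (hpr z).mfderivToContinuousLinearEquiv_coe (by simp)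
    rw [← h1]
    exact ((hpr z).mfderivToContinuousLinearEquiv (by simp)).bijective
  obtain ⟨u, hu⟩ := hbij.2 v
  obtain ⟨u', hu'⟩ := hbij.2 (J (pr z) v)
  have hu0 : u ≠ 0 := by
    rintro rfl
    apply hv
    rw [← hu, map_zero]
  obtain ⟨c, hc, hcle⟩ := htame z u u' hu0 (by rw [hu', hu])
  have e1 : w' z ![u, u'] = σ (pr z) ![v, J (pr z) v] := by
    rw [← hpull, pull_apply, hu, hu']
  rw [← e1, (hav z _).2]
  have hb := (hav z ![u, u']).1
  have hbc : Bdd (fun _ : Γ => -c) := ⟨|(-c)|, fun _ => le_rfl⟩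
  have h2 := hm.nonneg (fun γ : Γ => pull (d := d) (fun z : Z => γ • z) w z ![u, u'] + (-c))
    (by
      obtain ⟨C, hC⟩ := hb
      exact ⟨C + |(-c)|, fun γ => (abs_add_le _ _).trans (add_le_add (hC γ) le_rfl)⟩)
    (fun γ => by have := hcle γ; linarith)
  rw [hm.add _ _ hb hbc] at h2
  have h3 : m (fun _ : Γ => -c) = -c := by
    have h4 := hm.smul (-c) (fun _ => 1) ⟨1, fun _ => by simp⟩
    rw [hm.one] at h4
    simpa using h4
  rw [h3] at h2
  linarith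

end

end Pool.Agent.Y501.SY
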