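import Pool.Agent.Y501.SY.StmU
import Pool.Agent.Y501.SY.AmenIff
import Pool.Agent.Y501.SY.FinalG

/-!
Prescribed classes, amenable coverings and small exceptional sets.
-/

set_option autoImplicit false

open Set Filter Topology MeasureTheory
open scoped Manifold ContDiff

noncomputable section

namespace Pool.Agent.Y501.SY

section

variable {d : ℕ} {X : Type} [TopologicalSpace X] [ChartedSpace (E d) X]

/-- `C` is small at `z` relative to the set `P` of directions. -/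
def SmallP (J : End d X) (C : Set X) (z : X) (P : TangentSpace (𝓡 d) z → Prop) : Prop :=
  (∃ N ∈ 𝓝 z, μH[2] (chartAt (E d) z '' (C ∩ N ∩ (chartAt (E d) z).source)) = 0) ∨
  (∀ v : TangentSpace (𝓡 d) z, v ∈ ZT (d := d) C z → J z v ∈ ZT (d := d) C z → v = 0) ∨
  ∃ (n : ℕ) (a b : Fin n → X → ℝ) (N : Set X), N ∈ 𝓝 z ∧ (∀ i, SmoothFun (d := d) (a i)) ∧
    (∀ i, SmoothFun (d := d) (b i)) ∧
    (∀ i, volume ((fun x => (a i x, b i x)) '' (C ∩ N)) = 0) ∧
    ∀ v : TangentSpace (𝓡 d) z, v ≠ 0 → P v → 0 < (∑ i, dfdg (a i) (b i)) z ![v, J z v]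

theorem SmallP.smallAt {J : End d X} {C C' : Set X} {z : X} {P : TangentSpace (𝓡 d) z → Prop}
    (h : SmallP J C z P) (hC : C' ⊆ C) {σ : Form d X 2}
    (hP : ∀ v : TangentSpace (𝓡 d) z, v ≠ 0 → σ z ![v, J z v] ≤ 0 → P v) :
    SmallAt σ J C' z := by
  rcases h with ⟨N, hN, h⟩ | h | ⟨n, a, b, N, hN, ha, hb, hnull, hpos⟩
  · refine Or.inl ⟨N, hN, measure_mono_null (image_mono ?_) h⟩
    exact inter_subset_inter_left _ (inter_subset_inter_left _ hC)
  · refine Or.inr (Or.inl fun v h1 h2 => h v ?_ ?_)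
    · exact fun g hg hg0 => h1 g hg fun x hx => hg0 x (hC hx)
    · exact fun g hg hg0 => h2 g hg fun x hx => hg0 x (hC hx)
  · refine Or.inr (Or.inr ⟨n, a, b, N, hN, ha, hb, fun i => ?_, fun v hv h1 =>
      hpos v hv (hP v hv h1)⟩)
    exact measure_mono_null (image_mono (inter_subset_inter_left _ hC)) (hnull i)

end

section

variable {d : ℕ} {Z X : Type} [TopologicalSpace Z] [ChartedSpace (E d) Z]
  [TopologicalSpace X] [ChartedSpace (E d) X] (Γ : Type) [Group Γ] [MulAction Γ Z]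

/-- the translates of `w` are uniformly positive at `z` on `(v, J v)`, where `v` is a tangent
vector of `X` at `pr z` -/
def UPos (pr : Z → X) (J : End d X) (w : Form d Z 2) (z : Z)
    (v : TangentSpace (𝓡 d) (pr z)) : Prop :=
  ∃ u u' : TangentSpace (𝓡 d) z, mfderiv (𝓡 d) (𝓡 d) pr z u = v ∧
    mfderiv (𝓡 d) (𝓡 d) pr z u' = J (pr z) v ∧
    ∃ c : ℝ, 0 < c ∧ ∀ γ : Γ, c ≤ pull (d := d) (fun z : Z => γ • z) w z ![u, u']

/-- the points of `X` over which `w` does not uniformly tame `J` -/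
def NotUnif (pr : Z → X) (J : End d X) (w : Form d Z 2) : Set X :=
  {x | ∃ z : Z, pr z = x ∧ ∃ v : TangentSpace (𝓡 d) (pr z), v ≠ 0 ∧ ¬ UPos Γ pr J w z v}

end

section

variable {d : ℕ} {Z X : Type} [TopologicalSpace Z] [ChartedSpace (E d) Z]
  [IsManifold (𝓡 d) ∞ Z] [TopologicalSpace X] [ChartedSpace (E d) X]
  [IsManifold (𝓡 d) ∞ X] {Γ : Type} [Group Γ] [MulAction Γ Z]

omit [IsManifold (𝓡 d) ∞ Z] [IsManifold (𝓡 d) ∞ X] in
theorem pull1_apply (f : X → Z) (β : Form d Z 1) (x : X) (u : Fin 1 → TangentSpace (𝓡 d) x) :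
    pull1 (d := d) f β x u = β (f x) ![mfderiv (𝓡 d) (𝓡 d) f x (u 0)] := by
  have h : (fun i : Fin 1 => (mfderiv (𝓡 d) (𝓡 d) f x : TangentSpace (𝓡 d) x →
      TangentSpace (𝓡 d) (f x)) (u i)) = ![mfderiv (𝓡 d) (𝓡 d) f x (u 0)] := by
    funext i
    fin_cases i
    rfl
  exact congrArg (β (f x)) h

theorem closed_of_isD {β : Form d X 1} {ρ : Form d X 2} (hβ : IsSmooth β) (hρ : IsSmooth ρ)
    (hβρ : IsD β ρ) : IsClosedForm ρ := by
  have h1 := (Pool.Agent.Y658.SY.t_PROD d X (fun _ => 1) β ρ (SmoothFun.const 1) hβ hρ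
    hβρ).2.2.2.1
  have h2 : prodD (fun _ : X => (1 : ℝ)) β ρ = ρ := by
    funext x
    ext m
    have h3 := (Pool.Agent.Y658.SY.t_PROD d X (fun _ => 1) β ρ (SmoothFun.const 1) hβ hρ
      hβρ).2.2.2.2 x (m 0) (m 1)
    have h4 : ![m 0, m 1] = m := by
      funext i; fin_cases i <;> rfl
    have h6 : ∀ w : TangentSpace (𝓡 d) x, dd (d := d) (fun _ : X => (1 : ℝ)) x w = 0 := by
      intro w
      unfold dd
      rw [mfderiv_const]; rfl
    rw [h6, h6, h4] at h3
    rw [h3]; ring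
  rwa [h2] at h1

theorem amenU (hBT : S_BT) (hM1 : S_MEAN1) (hD1 : S_DESC1) {m : (Γ → ℝ) → ℝ} (hm : IsMean m)
    (hsm : ∀ γ : Γ, ContMDiff (𝓡 d) (𝓡 d) ∞ (fun z : Z => γ • z)) {pr : Z → X}
    (hpr : IsLocalDiffeomorph (𝓡 d) (𝓡 d) ∞ pr) (hsurj : Function.Surjective pr)
    (hfib : ∀ z z' : Z, pr z = pr z' ↔ ∃ γ : Γ, γ • z = z')
    [CompactSpace X] [T2Space X] {J : End d X} (hJ : IsAlmostComplex J)
    {σ : Form d X 2} (hσ : IsSmooth σ) (hσc : IsClosedForm σ)
    {β : Form d Z 1} {η : Form d Z 2} (hβ : IsSmooth β) (hη : IsSmooth η) (hβη : IsD β η)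
    (hbt : BoundedTranslates1 (Γ := Γ) β)
    (hsmall : ∀ z : Z, pr z ∈ NotUnif Γ pr J (pull (d := d) pr σ + η) →
      SmallP J (connectedComponentIn (NotUnif Γ pr J (pull (d := d) pr σ + η)) (pr z)) (pr z)
        (fun v => ¬ UPos Γ pr J (pull (d := d) pr σ + η) z v)) :
    ∃ (α : Form d X 1) (ρ : Form d X 2), IsSmooth α ∧ IsSmooth ρ ∧ IsD α ρ ∧
      IsClosedForm (σ + ρ) ∧ ∀ x, TamesAt (σ + ρ) J x := by
  have hbt2 := hBT d Z Γ hsm β η hβ hη hβη hbt
  obtain ⟨β', η', hβ', hη', hβη', hav1, hav2⟩ := hM1 Pool.Agent.Y153.SY.t_AVG d Z Γ m hm hsm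
    β η hβ hη hβη hbt hbt2
  have hcomp : ∀ (γ g : Γ), (fun z : Z => (γ * g) • z) =
      (fun z : Z => γ • z) ∘ (fun z : Z => g • z) := by
    intro γ g
    funext z; exact mul_smul γ g z
  have hinv1 : ∀ g : Γ, pull1 (d := d) (fun z : Z => g • z) β' = β' := by
    intro g
    funext z
    ext u
    have e1 := pull1_apply (fun z : Z => g • z) β' z u
    rw [e1, (hav1 _ _).2, (hav1 _ _).2]
    have e2 : (fun γ : Γ => pull1 (d := d) (fun z : Z => γ • z) β (g • z)
        ![mfderiv (𝓡 d) (𝓡 d) (fun z : Z => g • z) z (u 0)]) =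
        fun γ : Γ => (fun γ : Γ => pull1 (d := d) (fun z : Z => γ • z) β z u) (γ * g) := by
      funext γ
      have h2 : ∀ u : TangentSpace (𝓡 d) z,
          mfderiv (𝓡 d) (𝓡 d) ((fun z : Z => γ • z) ∘ (fun z : Z => g • z)) z u =
          mfderiv (𝓡 d) (𝓡 d) (fun z : Z => γ • z) (g • z)
            (mfderiv (𝓡 d) (𝓡 d) (fun z : Z => g • z) z u) := by
        intro u
        rw [mfderiv_comp z ((hsm γ (g • z)).mdifferentiableAt (by simp))
          ((hsm g z).mdifferentiableAt (by simp))]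
        rfl
      change _ = pull1 (d := d) (fun z : Z => (γ * g) • z) β z u
      rw [hcomp, pull1_apply, pull1_apply, h2]
      rfl
    rw [e2, hm.inv g _ (hav1 z u).1]
  have hinv2 : ∀ g : Γ, pull (d := d) (fun z : Z => g • z) η' = η' := by
    intro g
    funext z
    ext u
    have hu : ![u 0, u 1] = u := by
      funext i; fin_cases i <;> rfl
    have e1 : pull (d := d) (fun z : Z => g • z) η' z u =
        η' (g • z) ![mfderiv (𝓡 d) (𝓡 d) (fun z : Z => g • z) z (u 0),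
          mfderiv (𝓡 d) (𝓡 d) (fun z : Z => g • z) z (u 1)] := by
      rw [← pull_apply, hu]
    rw [e1, (hav2 _ _).2, (hav2 _ _).2]
    have e2 : (fun γ : Γ => pull (d := d) (fun z : Z => γ • z) η (g • z)
        ![mfderiv (𝓡 d) (𝓡 d) (fun z : Z => g • z) z (u 0),
          mfderiv (𝓡 d) (𝓡 d) (fun z : Z => g • z) z (u 1)]) =
        fun γ : Γ => (fun γ : Γ => pull (d := d) (fun z : Z => γ • z) η z u) (γ * g) := by
      funext γ
      rw [pull_mul hsm, hu]
    rw [e2, hm.inv g _ (hav2 z u).1]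
  obtain ⟨α₀, ρ₀, hα₀, hρ₀, hαρ₀, hpα, hpρ⟩ := hD1 d Z X Γ pr hsm hpr hsurj hfib β' η' hβ' hη'
    hβη' hinv1 hinv2
  have hρ₀c : IsClosedForm ρ₀ := closed_of_isD hα₀ hρ₀ hαρ₀
  have hσ' : IsSmooth (σ + ρ₀) := hσ.add hρ₀
  have hσ'c : IsClosedForm (σ + ρ₀) := by
    have h1 := hσc.add hρ₀c hσ hρ₀
    rwa [add_zero] at h1
  have hprs : ContMDiff (𝓡 d) (𝓡 d) ∞ pr := hpr.contMDiff
  have hprγ : ∀ (γ : Γ) (z : Z), pr (γ • z) = pr z := fun γ z =>
    ((hfib z (γ • z)).2 ⟨γ, rfl⟩).symm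
  -- uniform positivity implies positivity of the average
  have key : ∀ (z : Z) (v : TangentSpace (𝓡 d) (pr z)),
      UPos Γ pr J (pull (d := d) pr σ + η) z v → 0 < (σ + ρ₀) (pr z) ![v, J (pr z) v] := by
    rintro z v ⟨u, u', hu, hu', c, hc, hle⟩
    have e1 : (σ + ρ₀) (pr z) ![v, J (pr z) v] =
        pull (d := d) pr σ z ![u, u'] + η' z ![u, u'] := by
      have : (σ + ρ₀) (pr z) ![v, J (pr z) v] =
        σ (pr z) ![v, J (pr z) v] + ρ₀ (pr z) ![v, J (pr z) v] := rfl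
      rw [this, ← hpρ, pull_apply, pull_apply, hu, hu']
    have hb := (hav2 z ![u, u']).1
    have e2 : ∀ γ : Γ, pull (d := d) (fun z : Z => γ • z) (pull (d := d) pr σ + η) z ![u, u'] =
        pull (d := d) pr σ z ![u, u'] + pull (d := d) (fun z : Z => γ • z) η z ![u, u'] := by
      intro γ
      have h1 : pull (d := d) (fun z : Z => γ • z) (pull (d := d) pr σ + η) z ![u, u'] =
        pull (d := d) (fun z : Z => γ • z) (pull (d := d) pr σ) z ![u, u'] +
          pull (d := d) (fun z : Z => γ • z) η z ![u, u'] := rfl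
      rw [h1, pull_inv hsm hprs hprγ]
    rw [e1, (hav2 z _).2]
    have hbc : Bdd (fun _ : Γ => pull (d := d) pr σ z ![u, u'] - c) := ⟨_, fun _ => le_rfl⟩
    have h2 := hm.nonneg (fun γ : Γ => pull (d := d) (fun z : Z => γ • z) η z ![u, u'] +
        (pull (d := d) pr σ z ![u, u'] - c))
      (by
        obtain ⟨C, hC⟩ := hb
        exact ⟨C + |pull (d := d) pr σ z ![u, u'] - c|,
          fun γ => (abs_add_le _ _).trans (add_le_add (hC γ) le_rfl)⟩)
      (fun γ => by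
        have := hle γ
        rw [e2] at this
        linarith)
    rw [hm.add _ _ hb hbc] at h2
    have h3 : m (fun _ : Γ => pull (d := d) pr σ z ![u, u'] - c) =
        pull (d := d) pr σ z ![u, u'] - c := by
      have h4 := hm.smul (pull (d := d) pr σ z ![u, u'] - c) (fun _ => 1) ⟨1, fun _ => by simp⟩
      rw [hm.one] at h4
      simpa using h4
    rw [h3] at h2
    linarith
  have hsub : {x | ¬ TamesAt (σ + ρ₀) J x} ⊆ NotUnif Γ pr J (pull (d := d) pr σ + η) := by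
    intro x hx
    obtain ⟨z, rfl⟩ := hsurj x
    by_contra hne
    apply hx
    intro v hv
    apply key z v
    by_contra hn
    exact hne ⟨z, rfl, v, hv, hn⟩
  have hconst : ∀ (x : X) (v : TangentSpace (𝓡 d) x), (σ + ρ₀) x ![v, J x v] ≤ 0 →
      mfderiv (𝓡 d) (𝓡 0) (fun _ : X => (0 : E 0)) x v = 0 := by
    intro x v _
    rw [mfderiv_const]; rfl
  obtain ⟨σ', α, h1, h2, h3, -, h5, h6⟩ := final hJ hσ' hσ'c (f := fun _ : X => (0 : E 0))
    contMDiff_const hconst (by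
      intro x hx
      obtain ⟨z, rfl⟩ := hsurj x
      refine (hsmall z (hsub hx)).smallAt (connectedComponentIn_mono _
        (inter_subset_left.trans hsub)) fun v hv hle => ?_
      intro hup
      exact absurd (key z v hup) (not_lt.2 hle))
  have hρ : IsSmooth (σ' - σ) := by
    have h7 := h1.add (hσ.smul (-1))
    have h8 : σ' + (-1 : ℝ) • σ = σ' - σ := by
      funext x
      ext u
      change σ' x u + (-1 : ℝ) * σ x u = σ' x u - σ x u
      ring
    rwa [h8] at h7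
  refine ⟨α₀ + α, σ' - σ, hα₀.add h5, hρ, ?_, ?_, ?_⟩
  · have h7 := hαρ₀.add h6 hα₀ h5
    have h8 : ρ₀ + (σ' - (σ + ρ₀)) = σ' - σ := by abel
    rwa [h8] at h7
  · rwa [add_sub_cancel]
  · rwa [add_sub_cancel]

end

end Pool.Agent.Y501.SY
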