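import Pool.Agent.Y501.SY.StmT
import Pool.Agent.Y501.SY.FinalG

/-!
Removable singularities of taming forms: the main theorem, assuming the statements of the steps.
-/

set_option autoImplicit false

open Set Filter Topology MeasureTheory
open scoped Manifold ContDiff

noncomputable section

namespace Pool.Agent.Y501.SY

section

variable {d : ℕ} {X : Type} [TopologicalSpace X] [ChartedSpace (E d) X]
  [IsManifold (𝓡 d) ∞ X]

omit [IsManifold (𝓡 d) ∞ X] in
theorem ev_chart (x : X) (P : X → Prop) :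
    (∀ᶠ p in 𝓝 (chartAt (E d) x x), P ((chartAt (E d) x).symm p)) ↔ ∀ᶠ y in 𝓝 x, P y := by
  have h2 : (chartAt (E d) x).symm (chartAt (E d) x x) = x :=
    (chartAt (E d) x).left_inv (mem_chart_source (E d) x)
  constructor
  · intro h
    have h1 : ContinuousAt (chartAt (E d) x) x :=
      (chartAt (E d) x).continuousAt (mem_chart_source (E d) x)
    filter_upwards [h1.eventually h, (chartAt (E d) x).open_source.mem_nhds
      (mem_chart_source (E d) x)] with y hy hy2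
    rwa [(chartAt (E d) x).left_inv hy2] at hy
  · intro h
    have h1 : ContinuousAt (chartAt (E d) x).symm (chartAt (E d) x x) :=
      (chartAt (E d) x).continuousAt_symm (mem_chart_target (E d) x)
    have h3 : ∀ᶠ y in 𝓝 ((chartAt (E d) x).symm (chartAt (E d) x x)), P y := by rwa [h2]
    exact h1.eventually h3

/-- a chart independent form of uniform taming -/
theorem UTAt_iff (hI : S_IMM) {m : ℕ} {F : X → E m} (hF : ContMDiff (𝓡 d) (𝓡 m) ∞ F)
    (hFi : ∀ x, Function.Injective (mfderiv (𝓡 d) (𝓡 m) F x)) (σ : Form d X 2) (J : End d X)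
    (K : Set X) (x : X) :
    UTAt σ J K x ↔ ∃ c : ℝ, 0 < c ∧ ∀ᶠ y in 𝓝 x, y ∉ K → ∀ v : TangentSpace (𝓡 d) y,
      c * nm F y v ^ 2 ≤ σ y ![v, J y v] := by
  obtain ⟨r, hr, hball⟩ := Metric.nhds_basis_closedBall.mem_iff.1
    ((chartAt (E d) x).open_target.mem_nhds (mem_chart_target (E d) x))
  obtain ⟨c₁, C₁, hc₁, hC₁, hnm⟩ := hI d m X F hF hFi x _
    (isCompact_closedBall (chartAt (E d) x x) r) hball
  have hN : ∀ᶠ p in 𝓝 (chartAt (E d) x x), p ∈ Metric.closedBall (chartAt (E d) x x) r :=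
    Metric.closedBall_mem_nhds _ hr
  constructor
  · rintro ⟨c, hc, h⟩
    refine ⟨c * C₁⁻¹ ^ 2, by positivity, ?_⟩
    rw [← ev_chart (d := d) x (fun y => y ∉ K → ∀ v : TangentSpace (𝓡 d) y,
      c * C₁⁻¹ ^ 2 * nm F y v ^ 2 ≤ σ y ![v, J y v])]
    filter_upwards [h, hN] with p hp hpN hpK v
    have hpt := hball hpN
    have hv := Pool.Agent.Y455.SY.AB x hpt v
    obtain ⟨v', hv'⟩ : ∃ v', v' = Pool.Agent.Y455.SY.B x p v := ⟨_, rfl⟩
    rw [← hv'] at hv
    have h0 := Pool.Agent.Y455.SY.Q_eq σ J x hpt v'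
    unfold Pool.Agent.Y455.SY.Q at h0
    rw [hv] at h0
    rw [← h0]
    refine le_trans ?_ (hp hpK v')
    have h4 := (hnm p hpN v').2
    change nm F ((chartAt (E d) x).symm p) (Pool.Agent.Y455.SY.A x p v') ≤ C₁ * ‖v'‖ at h4
    rw [hv] at h4
    have n1 : 0 ≤ nm F ((chartAt (E d) x).symm p) v := norm_nonneg _
    have h6 : C₁⁻¹ * nm F ((chartAt (E d) x).symm p) v ≤ ‖v'‖ := by
      rw [inv_mul_eq_div, div_le_iff₀ hC₁, mul_comm]
      exact h4
    have h7 : (C₁⁻¹ * nm F ((chartAt (E d) x).symm p) v) ^ 2 ≤ ‖v'‖ ^ 2 :=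
      pow_le_pow_left₀ (by positivity) h6 2
    calc c * C₁⁻¹ ^ 2 * nm F ((chartAt (E d) x).symm p) v ^ 2
        = c * (C₁⁻¹ * nm F ((chartAt (E d) x).symm p) v) ^ 2 := by ring
      _ ≤ c * ‖v'‖ ^ 2 := by gcongr
  · rintro ⟨c, hc, h⟩
    refine ⟨c * c₁ ^ 2, by positivity, ?_⟩
    rw [← ev_chart (d := d) x (fun y => y ∉ K → ∀ v : TangentSpace (𝓡 d) y,
      c * nm F y v ^ 2 ≤ σ y ![v, J y v])] at h
    filter_upwards [h, hN] with p hp hpN hpK v
    have hpt := hball hpN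
    have h0 := Pool.Agent.Y455.SY.Q_eq σ J x hpt v
    unfold Pool.Agent.Y455.SY.Q at h0
    rw [h0]
    refine le_trans ?_ (hp hpK (Pool.Agent.Y455.SY.A x p v))
    have h4 := (hnm p hpN v).1
    change c₁ * ‖v‖ ≤ nm F ((chartAt (E d) x).symm p) (Pool.Agent.Y455.SY.A x p v) at h4
    have h7 : (c₁ * ‖v‖) ^ 2 ≤ nm F ((chartAt (E d) x).symm p)
        (Pool.Agent.Y455.SY.A x p v) ^ 2 := pow_le_pow_left₀ (by positivity) h4 2
    calc c * c₁ ^ 2 * ‖v‖ ^ 2 = c * (c₁ * ‖v‖) ^ 2 := by ring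
      _ ≤ _ := by gcongr

theorem isOpen_UTAt (hI : S_IMM) {m : ℕ} {F : X → E m} (hF : ContMDiff (𝓡 d) (𝓡 m) ∞ F)
    (hFi : ∀ x, Function.Injective (mfderiv (𝓡 d) (𝓡 m) F x)) (σ : Form d X 2) (J : End d X)
    (K : Set X) : IsOpen {x | UTAt σ J K x} := by
  rw [isOpen_iff_eventually]
  intro x hx
  obtain ⟨c, hc, h⟩ := (UTAt_iff hI hF hFi σ J K x).1 hx
  filter_upwards [eventually_eventually_nhds.2 h] with y hy
  exact (UTAt_iff hI hF hFi σ J K y).2 ⟨c, hc, hy⟩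

theorem mainT (hI : S_IMM) (hQ : S_QB) (hGl : S_GLOB) (hSt : S_STEP) (hd : 1 ≤ d)
    [CompactSpace X] [T2Space X] {J : End d X} (hJ : IsAlmostComplex J) {K : Set X}
    (hK : IsClosed K)
    (hH : ∀ x₀ : X, μH[(d : ℝ) - 1] (chartAt (E d) x₀ '' (K ∩ (chartAt (E d) x₀).source)) = 0)
    {σ : Form d X 2} (hσ : SmoothOff σ K) (hσc : IsDOff σ 0 K) (hb : ∀ x, BddAt σ K x)
    (hpos : ∀ x, x ∉ K → ∀ v : TangentSpace (𝓡 d) x, 0 ≤ σ x ![v, J x v])
    (hthin : ∀ z, ¬ UTAt σ J K z →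
      ThinAt2 0 0 J (connectedComponentIn {x | ¬ UTAt σ J K x} z) z)
    {U : Set X} (hU : IsOpen U) (hKU : K ⊆ U) :
    ∃ (α : Form d X 1) (η w : Form d X 2), IsSmooth α ∧ IsSmooth η ∧ IsD α η ∧ IsSmooth w ∧
      IsClosedForm w ∧ (∀ x, TamesAt w J x) ∧ ∀ x, x ∉ U → w x = (σ + η) x := by
  classical
  obtain ⟨m, F, hF, -, hFi⟩ := exists_embedding_euclidean_of_compact (I := 𝓡 d) (M := X)
  have hFc : IsClosed {x | ¬ UTAt σ J K x} :=
    (isOpen_UTAt hI hF hFi σ J K).isClosed_compl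
  have hne : ∃ v : E d, v ≠ 0 := by
    have : Nontrivial (E d) := by
      haveI : Nonempty (Fin d) := ⟨⟨0, hd⟩⟩
      infer_instance
    exact exists_ne 0
  have hD2 : D2 (0 : Form d X 2) 0 J {x | ¬ UTAt σ J K x} = {x | ¬ UTAt σ J K x} := by
    apply Subset.antisymm
    · exact fun x hx => hx.1
    · intro x hx
      obtain ⟨v, hv⟩ := hne
      exact ⟨hx, v, hv, rfl, rfl⟩
  obtain ⟨α, η, hpair, hη⟩ := level2 Pool.Agent.Y484.SY.t_GEN Pool.Agent.Y108.SY.t_PERT2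
    Pool.Agent.Y925.SY.t_PLANAR hJ (σ := 0) (θ := 0) IsSmooth.zero IsSmooth.zero hFc (by
      rw [hD2]
      exact hthin)
  obtain ⟨hα, hηs, hαη, hηc⟩ := hpair.props Pool.Agent.Y484.SY.t_GEN
  obtain ⟨s, hs, hUT⟩ := hGl hI hQ d m X F hF hFi J hJ σ η K hK hσ hσc hηs hηc hb hpos (by
    intro x
    by_cases h : UTAt σ J K x
    · exact Or.inl h
    · exact Or.inr fun v hv => hη x h v hv rfl rfl)
  -- the regularization
  choose! W hWo hWz hW using fun z (hz : z ∈ K) => hSt d m X F hF hFi J hJ hd U hU z (hKU hz)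
  have hfin : ∀ t : Finset X, (∀ z ∈ t, z ∈ K) → ∃ w : Form d X 2,
      UT F J w (K \ ⋃ z ∈ t, W z) ∧ ∀ x, x ∉ U → w x = (σ + s • η) x := by
    intro t
    induction t using Finset.induction_on with
    | empty =>
      intro _
      refine ⟨σ + s • η, ?_, fun x _ => rfl⟩
      have : K \ ⋃ z ∈ (∅ : Finset X), W z = K := by simp
      rw [this]
      exact hUT
    | insert a t ha ih =>
      intro ht
      obtain ⟨w, hw, hwU⟩ := ih fun z hz => ht z (Finset.mem_insert_of_mem hz)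
      have hop : IsOpen (⋃ z ∈ t, W z) :=
        isOpen_biUnion fun z hz => hWo z (ht z (Finset.mem_insert_of_mem hz))
      have hcl : IsClosed (K \ ⋃ z ∈ t, W z) := by
        rw [sdiff_eq]
        exact hK.inter hop.isClosed_compl
      obtain ⟨w', hw', hwU'⟩ := hW a (ht a (Finset.mem_insert_self a t)) _ w hcl
        (fun x₀ => measure_mono_null (image_mono (inter_subset_inter_left _ sdiff_subset))
          (hH x₀)) hw
      refine ⟨w', ?_, fun x hx => (hwU' x hx).trans (hwU x hx)⟩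
      have h1 : K \ ⋃ z ∈ insert a t, W z = (K \ ⋃ z ∈ t, W z) \ W a := by
        rw [Finset.set_biUnion_insert, union_comm, sdiff_sdiff_left]
        rfl
      rw [h1]
      exact hw'
  obtain ⟨t, htK, htc⟩ := hK.isCompact.elim_nhds_subcover W
    (fun z hz => (hWo z hz).mem_nhds (hWz z hz))
  obtain ⟨w, hw, hwU⟩ := hfin t htK
  have hempty : K \ ⋃ z ∈ t, W z = ∅ := by
    rw [sdiff_eq_empty]
    exact htc
  rw [hempty] at hw
  obtain ⟨c, hc, hwc⟩ := hw.pos
  refine ⟨s • α, s • η, w, hα.smul s, hηs.smul s, hαη.smul s,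
    fun V φ hV hφ => hw.smooth V φ hV hφ fun p _ => notMem_empty _,
    fun V φ hV hφ => hw.closed V φ hV hφ fun p _ => notMem_empty _, fun x v hv => ?_, hwU⟩
  refine lt_of_lt_of_le ?_ (hwc x (notMem_empty _) v)
  have h1 : 0 < nm F x v := by
    refine lt_of_le_of_ne (norm_nonneg _) fun h => hv ?_
    have h2 : (mfderiv (𝓡 d) (𝓡 m) F x v : E m) = 0 := norm_eq_zero.1 h.symm
    apply hFi x
    rw [map_zero]
    exact h2
  positivity

end

end Pool.Agent.Y501.SY
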