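import Pool.Agent.Y501.SY.PubT
import Pool.Agent.Y501.SY.Bridge
import Pool.Agent.Y501.SY.MainT

/-!
Removable singularities: comparison of the definitions.
-/

set_option autoImplicit false

open Set Filter Topology MeasureTheory
open scoped Manifold ContDiff

noncomputable section

namespace Pool.Agent.Y501.SYP

section

variable {d : ℕ} {X : Type} [TopologicalSpace X] [ChartedSpace (ES d) X]

attribute [local instance] cs mf

theorem smallAll_of [IsManifold 𝓘(ℝ, ES d) ∞ X] [T2Space X] {J : End (ES d) X}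
    (hJ : IsAlmostComplex J) {C : Set X} {z : X}
    (h : SmallAll J C z) : SY.ThinAt2 (d := d) (X := X) 0 0 J C z := by
  have h1 : SmallAt J C z (Null (0 : Form (ES d) X 2) 0 J z) := by
    rcases h with h | h | ⟨n, a, b, hab, hpos⟩
    · exact Or.inl h
    · exact Or.inr (Or.inl h)
    · exact Or.inr (Or.inr ⟨n, a, b, hab, fun v hv _ => hpos v hv trivial⟩)
  exact (smallAt2_of h1).thinAt2 (ac_of J hJ)

theorem bdd_off {K : Set X} (hK : IsClosed K) {σ : Form (ES d) X 2} (hσ : ClosedOff σ K)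
    [IsManifold 𝓘(ℝ, ES d) ∞ X] {x : X} (hx : x ∉ K) : BddNear σ K x := by
  have h1 : IsOpen ((chartAt (ES d) x).target ∩ (chartAt (ES d) x).symm ⁻¹' Kᶜ) :=
    (chartAt (ES d) x).isOpen_inter_preimage_symm hK.isOpen_compl
  have h2 := (hσ _ (chartAt (ES d) x).symm ⟨h1, (contMDiffOn_chart_symm
    (I := 𝓘(ℝ, ES d))).mono inter_subset_left⟩ (fun p hp => hp.2)).1
  have h3 : chartAt (ES d) x x ∈
      (chartAt (ES d) x).target ∩ (chartAt (ES d) x).symm ⁻¹' Kᶜ := by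
    refine ⟨mem_chart_target (ES d) x, ?_⟩
    rw [mem_preimage, (chartAt (ES d) x).left_inv (mem_chart_source (ES d) x)]
    exact hx
  have h4 : ContinuousAt (pb (chartAt (ES d) x).symm σ) (chartAt (ES d) x x) :=
    h2.continuousOn.continuousAt (h1.mem_nhds h3)
  refine ⟨‖pb (chartAt (ES d) x).symm σ (chartAt (ES d) x x)‖ + 1, ?_⟩
  filter_upwards [h4.norm.eventually_lt_const (lt_add_one _)] with p hp _
  exact hp.le

theorem removable [IsManifold 𝓘(ℝ, ES d) ∞ X] [CompactSpace X] [T2Space X]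
    (hI : SY.S_IMM) (hQ : SY.S_QB) (hGl : SY.S_GLOB) (hSt : SY.S_STEP) (hd : 1 ≤ d)
    (J : End (ES d) X) (hJ : IsAlmostComplex J) (K : Set X) (hK : IsClosed K)
    (hH : ∀ x₀ : X, μH[(d : ℝ) - 1] (chartAt (ES d) x₀ '' (K ∩ (chartAt (ES d) x₀).source)) = 0)
    (σ : Form (ES d) X 2) (hσ : ClosedOff σ K) (hb : ∀ x ∈ K, BddNear σ K x)
    (hpos : ∀ x, x ∉ K → ∀ v : TangentSpace 𝓘(ℝ, ES d) x, 0 ≤ qd σ J x v)
    (hsmall : ∀ z ∈ Crit σ J K, SmallAll J (connectedComponentIn (Crit σ J K) z) z)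
    (U : Set X) (hU : IsOpen U) (hKU : K ⊆ U) :
    ∃ (α : Form (ES d) X 1) (η w : Form (ES d) X 2), IsSmooth α ∧ IsSmooth η ∧ IsD α η ∧
      IsTamingSymplectic w J ∧ ∀ x, x ∉ U → w x = addF σ η x := by
  obtain ⟨α, η, w, h1, h2, h3, h4, h5, h6, h7⟩ := SY.mainT (d := d) (X := X) hI hQ hGl hSt hd
    (J := J) (ac_of J hJ) (K := K) hK hH (σ := σ)
    (fun V φ hV hφ hp => (hσ V φ ⟨hV, hφ⟩ hp).1)
    (fun V φ hV hφ hp p hpV => (hσ V φ ⟨hV, hφ⟩ hp).2 p hpV)
    (fun x => by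
      by_cases hx : x ∈ K
      · exact hb x hx
      · exact bdd_off hK hσ hx)
    hpos (fun z hz => smallAll_of hJ (hsmall z hz)) hU hKU
  exact ⟨α, η, w, (smooth_iff α).2 h1, (smooth_iff η).2 h2, (isD_iff α η).2 h3,
    symp_of ((smooth_iff w).2 h4) ((closed_iff w).2 h5) h6, h7⟩

end

end Pool.Agent.Y501.SYP
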