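import Pool.Agent.Y501.SY.PubU
import Pool.Agent.Y501.SY.BridgeA
import Pool.Agent.Y501.SY.AmenU

/-!
Prescribed classes, amenable coverings and small exceptional sets: comparison of the definitions.
-/

set_option autoImplicit false

open Set Filter Topology MeasureTheory
open scoped Manifold ContDiff

noncomputable section

namespace Pool.Agent.Y501.SYP

section

variable {d : ℕ}

attribute [local instance] cs mf

theorem smallP_of {X : Type} [TopologicalSpace X] [ChartedSpace (ES d) X]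
    {J : End (ES d) X} {C : Set X} {z : X}
    {P : TangentSpace 𝓘(ℝ, ES d) z → Prop} (h : SmallAt J C z P) :
    SY.SmallP (d := d) (X := X) J C z P := by
  rcases h with h | h | ⟨n, a, b, hab, hpos⟩
  · exact Or.inl h
  · exact Or.inr (Or.inl h)
  · choose N hN hN0 using fun i => (hab i).null
    refine Or.inr (Or.inr ⟨n, a, b, ⋂ i, N i, Filter.iInter_mem.2 hN, fun i => (hab i).smooth_a,
      fun i => (hab i).smooth_b, fun i => ?_, fun v hv h1 => ?_⟩)
    · exact measure_mono_null (image_mono (inter_subset_inter_right _ (iInter_subset _ _)))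
        (hN0 i)
    · have h3 := hpos v hv h1
      have e := SY.sum_apply2 (d := d) (X := X) Finset.univ
        (fun i => SY.dfdg (d := d) (X := X) (a i) (b i)) z ![v, J z v]
      refine lt_of_lt_of_eq h3 (Eq.trans ?_ e.symm)
      exact Finset.sum_congr rfl fun i _ =>
        (SY.dfdg_apply (d := d) (X := X) (a i) (b i) z v (J z v)).symm

variable {Z X : Type} [TopologicalSpace Z] [ChartedSpace (ES d) Z]
  [IsManifold 𝓘(ℝ, ES d) ∞ Z] [TopologicalSpace X] [ChartedSpace (ES d) X]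
  [IsManifold 𝓘(ℝ, ES d) ∞ X] {Γ : Type} [Group Γ] [MulAction Γ Z]

theorem seg_nondeg {J : End (ES d) X} {τ w : Form (ES d) X 2} (hτ : ∀ x, TamesAt τ J x)
    (hw : ∀ x, TamesAt w J x) (t : ℝ) (h0 : 0 ≤ t) (h1 : t ≤ 1) : Nondeg (seg τ w t) := by
  intro x v hv
  by_contra hne
  have h2 : 0 < τ x ![v, J x v] := hτ x v hne
  have h3 : 0 < w x ![v, J x v] := hw x v hne
  have h4 : (1 - t) * τ x ![v, J x v] + t * w x ![v, J x v] = 0 := hv (J x v)
  rcases lt_or_eq_of_le h0 with h | h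
  · have := mul_pos h h3
    have h5 : 0 ≤ (1 - t) * τ x ![v, J x v] := mul_nonneg (by linarith) h2.le
    linarith
  · rw [← h] at h4
    linarith

theorem amenable_class (hBT : SY.S_BT) (hM1 : SY.S_MEAN1) (hD1 : SY.S_DESC1)
    [CompactSpace X] [T2Space X] (hΓ : Amenable Γ) (pr : Z → X)
    (hpr : NormalCovering (ES d) Γ pr) (J : End (ES d) X) (hJ : IsAlmostComplex J)
    (σ : Form (ES d) X 2) (hσ : IsSmooth σ) (hσc : IsClosedForm σ)
    (β : Form (ES d) Z 1) (η : Form (ES d) Z 2) (hβ : IsSmooth β) (hη : IsSmooth η)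
    (hβη : IsD β η) (hbt : BoundedTranslates1 Γ β)
    (hsmall : SmallNotUnif Γ pr J (addF (lift pr σ) η)) :
    ∃ (α : Form (ES d) X 1) (ρ : Form (ES d) X 2), IsSmooth α ∧ IsSmooth ρ ∧ IsD α ρ ∧
      IsTamingSymplectic (addF σ ρ) J ∧ ∀ τ : Form (ES d) X 2, (∀ x, TamesAt τ J x) →
        ∀ t : ℝ, 0 ≤ t → t ≤ 1 → Nondeg (seg τ (addF σ ρ) t) := by
  obtain ⟨m, hm⟩ := hΓ
  obtain ⟨α, ρ, h1, h2, h3, h4, h5⟩ := SY.amenU (d := d) (Z := Z) (X := X) (Γ := Γ) hBT hM1 hD1
    (mean_of hm) hpr.smooth (pr := pr) hpr.diffeo hpr.surj hpr.orbits (J := J) (ac_of J hJ)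
    (σ := σ) ((smooth_iff σ).1 hσ) ((closed_iff σ).1 hσc) (β := β) (η := η)
    ((smooth_iff β).1 hβ) ((smooth_iff η).1 hη) ((isD_iff β η).1 hβη)
    (fun U φ hU hφ => by
      have := hbt U φ ⟨hU, hφ⟩
      exact ⟨this.smooth, this.bound⟩)
    (fun z hz => smallP_of (hsmall z hz))
  have h6 : IsTamingSymplectic (addF σ ρ) J :=
    symp_of ((smooth_iff _).2 (((smooth_iff σ).1 hσ).add h2)) ((closed_iff _).2 h4) h5
  exact ⟨α, ρ, (smooth_iff α).2 h1, (smooth_iff ρ).2 h2, (isD_iff α ρ).2 h3, h6,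
    fun τ hτ t ht0 ht1 => seg_nondeg hτ h6.tames t ht0 ht1⟩

end

end Pool.Agent.Y501.SYP
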