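import Pool.Agent.Y501.SY.StepP
import Pool.Agent.Y501.SY.MainT
import Pool.Agent.Y501.SY.AmenU

/-!
Removable singularities in a prescribed class: the main theorem, assuming the statements of the
steps.
-/

set_option autoImplicit false

open Set Filter Topology MeasureTheory
open scoped Manifold ContDiff

noncomputable section

namespace Pool.Agent.Y501.SY

section

variable {d : ℕ} {X : Type} [TopologicalSpace X] [ChartedSpace (E d) X]

/-- The one-form `β` is bounded off `K` near `x`. -/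
def BddAt1 (β : Form d X 1) (K : Set X) (x : X) : Prop :=
  ∃ B : ℝ, ∀ᶠ p in 𝓝 (chartAt (E d) x x), (chartAt (E d) x).symm p ∉ K →
    ‖pb (chartAt (E d) x).symm β p‖ ≤ B

theorem SmoothOff.addSmooth {k : ℕ} {σ τ : Form d X k} {K : Set X} (h : SmoothOff σ K)
    (h' : IsSmooth τ) : SmoothOff (σ + τ) K := by
  intro U φ hU hφ hK
  rw [pb_add]
  exact (h U φ hU hφ hK).add (h' U φ hU hφ)

theorem SmoothOff.diffAt {k : ℕ} {σ : Form d X k} {K : Set X} (h : SmoothOff σ K)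
    {U : Set (E d)} {φ : E d → X} (hU : IsOpen U) (hφ : ContMDiffOn (𝓡 d) (𝓡 d) ∞ φ U)
    (hK : ∀ p ∈ U, φ p ∉ K) {p : E d} (hp : p ∈ U) : DifferentiableAt ℝ (pb φ σ) p :=
  ((h U φ hU hφ hK).contDiffAt (hU.mem_nhds hp)).differentiableAt (by simp)

theorem closedOff_of {β : Form d X 1} {σ₀ σ : Form d X 2} {K : Set X} (hσ₀ : IsSmooth σ₀)
    (hσ₀c : IsClosedForm σ₀) (hβ : SmoothOff β K) (h : IsDOff β (σ - σ₀) K) : IsDOff σ 0 K := by
  intro U φ hU hφ hK p hp
  have h1 : pb φ σ =ᶠ[𝓝 p] pb φ σ₀ + extDeriv (pb φ β) := by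
    filter_upwards [hU.mem_nhds hp] with q hq
    have h2 := h U φ hU hφ hK q hq
    have h3 : pb φ (σ - σ₀) q = pb φ σ q - pb φ σ₀ q := rfl
    rw [Pi.add_apply, h2, h3]
    abel
  rw [h1.extDeriv_eq]
  have h4 : ContDiffAt ℝ ∞ (pb φ β) p := (hβ U φ hU hφ hK).contDiffAt (hU.mem_nhds hp)
  have h5 : DifferentiableAt ℝ (extDeriv (pb φ β)) p := by
    have h6 : ContDiffAt ℝ 1 (fderiv ℝ (pb φ β)) p :=
      h4.fderiv_right (m := 1) (by norm_cast)
    have h7 : extDeriv (pb φ β) = fun q =>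
      ContinuousAlternatingMap.alternatizeUncurryFinCLM ℝ (E d) ℝ (fderiv ℝ (pb φ β) q) := rfl
    rw [h7]
    exact (ContinuousAlternatingMap.alternatizeUncurryFinCLM ℝ (E d) ℝ).differentiableAt.comp p
      (h6.differentiableAt (by simp))
  have h8 : DifferentiableAt ℝ (pb φ σ₀) p :=
    ((hσ₀ U φ hU hφ).contDiffAt (hU.mem_nhds hp)).differentiableAt (by simp)
  rw [extDeriv_add h8 h5, hσ₀c U φ hU hφ p hp]
  have h9 : extDeriv (extDeriv (pb φ β)) p = 0 :=
    extDeriv_extDeriv_apply h4 Pool.Agent.Y515.SY.smooth2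
  rw [h9]
  simp

variable [IsManifold (𝓡 d) ∞ X]

theorem bdd1_glob (hI : S_IMM) [CompactSpace X] {m : ℕ} {F : X → E m}
    (hF : ContMDiff (𝓡 d) (𝓡 m) ∞ F)
    (hFi : ∀ x, Function.Injective (mfderiv (𝓡 d) (𝓡 m) F x)) {β : Form d X 1} {K : Set X}
    (hb : ∀ x, BddAt1 β K x) :
    ∃ B : ℝ, 0 < B ∧ ∀ x, x ∉ K → ∀ v : TangentSpace (𝓡 d) x, |β x ![v]| ≤ B * nm F x v := by
  obtain ⟨ε, hε, h⟩ := unif (isCompact_univ (X := X))
    (fun (ε : ℝ) (y : X) => y ∉ K → ∀ v : TangentSpace (𝓡 d) y, ε * |β y ![v]| ≤ nm F y v)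
    (fun ε ε' y hle hp hy v =>
      (mul_le_mul_of_nonneg_right hle (abs_nonneg _)).trans (hp hy v))
    (fun x _ => by
      obtain ⟨B, hB⟩ := hb x
      obtain ⟨r, hr, hball⟩ := Metric.nhds_basis_closedBall.mem_iff.1
        ((chartAt (E d) x).open_target.mem_nhds (mem_chart_target (E d) x))
      obtain ⟨c₁, C₁, hc₁, hC₁, hnm⟩ := hI d m X F hF hFi x _
        (isCompact_closedBall (chartAt (E d) x x) r) hball
      have hN : ∀ᶠ p in 𝓝 (chartAt (E d) x x), p ∈ Metric.closedBall (chartAt (E d) x x) r :=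
        Metric.closedBall_mem_nhds _ hr
      refine ⟨c₁ / (|B| + 1), by positivity, ?_⟩
      rw [← ev_chart (d := d) x (fun y => y ∉ K → ∀ v : TangentSpace (𝓡 d) y,
        c₁ / (|B| + 1) * |β y ![v]| ≤ nm F y v)]
      filter_upwards [hB, hN] with p hp hpN hpK v
      have hpt := hball hpN
      have hv := Pool.Agent.Y455.SY.AB x hpt v
      obtain ⟨v', hv'⟩ : ∃ v', v' = Pool.Agent.Y455.SY.B x p v := ⟨_, rfl⟩
      rw [← hv'] at hv
      have h1 : β ((chartAt (E d) x).symm p) ![v] = pb (chartAt (E d) x).symm β p ![v'] := by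
        rw [pb_app1]
        change _ = β ((chartAt (E d) x).symm p) ![Pool.Agent.Y455.SY.A x p v']
        rw [hv]
      rw [h1]
      have h2 := le_norm1 (pb (chartAt (E d) x).symm β p) v'
      have h3 : ‖pb (chartAt (E d) x).symm β p‖ ≤ |B| + 1 :=
        (hp hpK).trans ((le_abs_self _).trans (by linarith))
      have h4 := (hnm p hpN v').1
      change c₁ * ‖v'‖ ≤ nm F ((chartAt (E d) x).symm p) (Pool.Agent.Y455.SY.A x p v') at h4
      rw [hv] at h4
      have h5 : |pb (chartAt (E d) x).symm β p ![v']| ≤ (|B| + 1) * ‖v'‖ :=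
        h2.trans (mul_le_mul_of_nonneg_right h3 (norm_nonneg _))
      have h6 : c₁ / (|B| + 1) * |pb (chartAt (E d) x).symm β p ![v']| ≤ c₁ * ‖v'‖ := by
        rw [div_mul_eq_mul_div, div_le_iff₀ (by positivity)]
        calc c₁ * |pb (chartAt (E d) x).symm β p ![v']| ≤ c₁ * ((|B| + 1) * ‖v'‖) := by gcongr
          _ = c₁ * ‖v'‖ * (|B| + 1) := by ring
      exact h6.trans h4)
  refine ⟨ε⁻¹, by positivity, fun x hx v => ?_⟩
  have h1 := h x (mem_univ x) hx v
  rw [inv_mul_eq_div, le_div_iff₀ hε, mul_comm]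
  exact h1

theorem mainP (hI : S_IMM) (hQ : S_QB) (hGl : S_GLOB) (hRGP : S_RGP) (hJ1 : S_J1) (hHH : S_HH)
    (hKer : S_KER) (hSm : S_SM) (hCap : S_CAP) (hPa : S_PATCHP) (hd : 1 ≤ d)
    [CompactSpace X] [T2Space X] {J : End d X} (hJ : IsAlmostComplex J) {K : Set X}
    (hK : IsClosed K)
    (hH : ∀ x₀ : X, μH[(d : ℝ) - 1] (chartAt (E d) x₀ '' (K ∩ (chartAt (E d) x₀).source)) = 0)
    {σ₀ : Form d X 2} (hσ₀ : IsSmooth σ₀) (hσ₀c : IsClosedForm σ₀) {β : Form d X 1}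
    {σ : Form d X 2} (hβ : SmoothOff β K) (hσ : SmoothOff σ K) (hβσ : IsDOff β (σ - σ₀) K)
    (hb1 : ∀ x, BddAt1 β K x) (hb : ∀ x, BddAt σ K x)
    (hpos : ∀ x, x ∉ K → ∀ v : TangentSpace (𝓡 d) x, 0 ≤ σ x ![v, J x v])
    (hthin : ∀ z, ¬ UTAt σ J K z →
      ThinAt2 0 0 J (connectedComponentIn {x | ¬ UTAt σ J K x} z) z) :
    ∃ (α : Form d X 1) (ρ : Form d X 2), IsSmooth α ∧ IsSmooth ρ ∧ IsD α ρ ∧
      IsClosedForm (σ₀ + ρ) ∧ ∀ x, TamesAt (σ₀ + ρ) J x := by
  classical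
  obtain ⟨m, F, hF, -, hFi⟩ := exists_embedding_euclidean_of_compact (I := 𝓡 d) (M := X)
  have hσc : IsDOff σ 0 K := closedOff_of hσ₀ hσ₀c hβ hβσ
  have hFc : IsClosed {x | ¬ UTAt σ J K x} :=
    (isOpen_UTAt hI hF hFi σ J K).isClosed_compl
  have hne : ∃ v : E d, v ≠ 0 := by
    have : Nontrivial (E d) := by
      have : Nonempty (Fin d) := ⟨⟨0, hd⟩⟩
      infer_instance
    exact exists_ne 0
  have hD2 : D2 (0 : Form d X 2) 0 J {x | ¬ UTAt σ J K x} = {x | ¬ UTAt σ J K x} := by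
    apply Subset.antisymm
    · exact fun x hx => hx.1
    · intro x hx
      obtain ⟨v, hv⟩ := hne
      exact ⟨hx, v, hv, rfl, rfl⟩
  obtain ⟨α₁, η, hpair, hη⟩ := level2 Pool.Agent.Y484.SY.t_GEN Pool.Agent.Y108.SY.t_PERT2
    Pool.Agent.Y925.SY.t_PLANAR hJ (σ := 0) (θ := 0) IsSmooth.zero IsSmooth.zero hFc (by
      rw [hD2]
      exact hthin)
  obtain ⟨hα₁, hηs, hαη, hηc⟩ := hpair.props Pool.Agent.Y484.SY.t_GEN
  obtain ⟨s, hs, hUT⟩ := hGl hI hQ d m X F hF hFi J hJ σ η K hK hσ hσc hηs hηc hb hpos (by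
    intro x
    by_cases h : UTAt σ J K x
    · exact Or.inl h
    · exact Or.inr fun v hv => hη x h v hv rfl rfl)
  have hstart : UTP F J σ₀ (β + s • α₁) (σ + s • η) K := by
    refine ⟨hβ.addSmooth (hα₁.smul s), hUT.smooth, ?_, ?_, hUT.bdd, hUT.pos⟩
    · intro U φ hU hφ hKφ p hp
      have h1 := hβσ U φ hU hφ hKφ p hp
      have h2 := (hαη.smul s) U φ hU hφ p hp
      rw [pb_add, extDeriv_add (hβ.diffAt hU hφ hKφ hp) ((hα₁.smul s).diffAt hU hφ hp), h1, h2]
      have h3 : pb φ (σ + s • η - σ₀) p = pb φ (σ - σ₀) p + pb φ (s • η) p := by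
        have e : σ + s • η - σ₀ = (σ - σ₀) + s • η := by abel
        rw [e, pb_add]
        rfl
      rw [h3]
    · refine bdd1_glob hI hF hFi fun x => ?_
      obtain ⟨B, hB⟩ := hb1 x
      have h1 : ContDiffOn ℝ ∞ (pb (chartAt (E d) x).symm (s • α₁)) (chartAt (E d) x).target :=
        (hα₁.smul s) _ _ (chartAt (E d) x).open_target contMDiffOn_chart_symm
      have h2 : ContinuousAt (pb (chartAt (E d) x).symm (s • α₁)) (chartAt (E d) x x) :=
        h1.continuousOn.continuousAt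
          ((chartAt (E d) x).open_target.mem_nhds (mem_chart_target (E d) x))
      refine ⟨B + (‖pb (chartAt (E d) x).symm (s • α₁) (chartAt (E d) x x)‖ + 1), ?_⟩
      filter_upwards [hB, h2.norm.eventually_lt_const (lt_add_one _)] with p hp hp2 hpK
      rw [pb_add, Pi.add_apply]
      exact (norm_add_le _ _).trans (add_le_add (hp hpK) hp2.le)
  choose W hWo hWz hW using fun z : X => stepP hI hQ hRGP hJ1 hHH hKer hSm hCap hPa
    Pool.Agent.Y363.SY.t_LOCAL Pool.Agent.Y484.SY.t_GEN Pool.Agent.Y455.SY.t_PERT hF hFi hJ hd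
    hσ₀ hσ₀c z
  have hfin : ∀ t : Finset X, ∃ (β' : Form d X 1) (w : Form d X 2),
      UTP F J σ₀ β' w (K \ ⋃ z ∈ t, W z) := by
    intro t
    induction t using Finset.induction_on with
    | empty =>
      refine ⟨β + s • α₁, σ + s • η, ?_⟩
      have : K \ ⋃ z ∈ (∅ : Finset X), W z = K := by simp
      rw [this]
      exact hstart
    | insert a t ha ih =>
      obtain ⟨β', w, hw⟩ := ih
      have hop : IsOpen (⋃ z ∈ t, W z) := isOpen_biUnion fun z _ => hWo z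
      have hcl : IsClosed (K \ ⋃ z ∈ t, W z) := by
        rw [sdiff_eq]
        exact hK.inter hop.isClosed_compl
      obtain ⟨β'', w', hw'⟩ := hW a _ β' w hcl
        (fun x₀ => measure_mono_null (image_mono (inter_subset_inter_left _ sdiff_subset))
          (hH x₀)) hw
      refine ⟨β'', w', ?_⟩
      have h1 : K \ ⋃ z ∈ insert a t, W z = (K \ ⋃ z ∈ t, W z) \ W a := by
        rw [Finset.set_biUnion_insert, union_comm, sdiff_sdiff_left]
        rfl
      rw [h1]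
      exact hw'
  obtain ⟨t, -, htc⟩ := hK.isCompact.elim_nhds_subcover W
    (fun z _ => (hWo z).mem_nhds (hWz z))
  obtain ⟨β', w, hw⟩ := hfin t
  have hempty : K \ ⋃ z ∈ t, W z = ∅ := by
    rw [sdiff_eq_empty]
    exact htc
  rw [hempty] at hw
  obtain ⟨c, hc, hwc⟩ := hw.pos
  have hβs : IsSmooth β' := fun V φ hV hφ => hw.smβ V φ hV hφ fun p _ => notMem_empty _
  have hws : IsSmooth w := fun V φ hV hφ => hw.smooth V φ hV hφ fun p _ => notMem_empty _
  have hρ : IsSmooth (w - σ₀) := by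
    have h7 := hws.add (hσ₀.smul (-1))
    have h8 : w + (-1 : ℝ) • σ₀ = w - σ₀ := by
      funext x
      ext u
      change w x u + (-1 : ℝ) * σ₀ x u = w x u - σ₀ x u
      ring
    rwa [h8] at h7
  have hd' : IsD β' (w - σ₀) := fun V φ hV hφ => hw.isD V φ hV hφ fun p _ => notMem_empty _
  have hcl : IsClosedForm (σ₀ + (w - σ₀)) := by
    have h1 := hσ₀c.add (closed_of_isD hβs hρ hd') hσ₀ hρ
    rwa [add_zero] at h1
  refine ⟨β', w - σ₀, hβs, hρ, hd', hcl, fun x v hv => ?_⟩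
  rw [add_sub_cancel]
  refine lt_of_lt_of_le ?_ (hwc x (notMem_empty _) v)
  have h1 : 0 < nm F x v := by
    refine lt_of_le_of_ne (norm_nonneg _) fun h => hv ?_
    have h2 : (mfderiv (𝓡 d) (𝓡 m) F x v : E m) = 0 := norm_eq_zero.1 h.symm
    apply hFi x
    rw [map_zero]
    exact h2
  positivity

end

end Pool.Agent.Y501.SY
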