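import Pool.Agent.Y501.SY.PubV
import Pool.Agent.Y501.SY.BridgeT
import Pool.Agent.Y501.SY.MainP

/-!
Removable singularities in a prescribed class: comparison of the definitions.
-/

set_option autoImplicit false

open Set Filter Topology MeasureTheory
open scoped Manifold ContDiff

noncomputable section

namespace Pool.Agent.Y501.SYP

section

variable {d : ℕ} {X : Type} [TopologicalSpace X] [ChartedSpace (ES d) X]

attribute [local instance] cs mf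

theorem bddK_off {k : ℕ} {K : Set X} (hK : IsClosed K) {σ : Form (ES d) X k}
    (hσ : SmoothOff σ K) [IsManifold 𝓘(ℝ, ES d) ∞ X] {x : X} (hx : x ∉ K) :
    BddNearK σ K x := by
  have h1 : IsOpen ((chartAt (ES d) x).target ∩ (chartAt (ES d) x).symm ⁻¹' Kᶜ) :=
    (chartAt (ES d) x).isOpen_inter_preimage_symm hK.isOpen_compl
  have h2 := hσ _ (chartAt (ES d) x).symm ⟨h1, (contMDiffOn_chart_symm
    (I := 𝓘(ℝ, ES d))).mono inter_subset_left⟩ (fun p hp => hp.2)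
  have h3 : chartAt (ES d) x x ∈
      (chartAt (ES d) x).target ∩ (chartAt (ES d) x).symm ⁻¹' Kᶜ := by
    refine ⟨mem_chart_target (ES d) x, ?_⟩
    rw [mem_preimage, (chartAt (ES d) x).left_inv (mem_chart_source (ES d) x)]
    exact hx
  have h4 : ContinuousAt (pb (chartAt (ES d) x).symm σ) (chartAt (ES d) x x) :=
    h2.continuousOn.continuousAt (h1.mem_nhds h3)
  refine ⟨‖pb (chartAt (ES d) x).symm σ (chartAt (ES d) x x)‖ + 1, ?_⟩
  filter_upwards [h4.norm.eventually_lt_const (lt_add_one _)] with p hp _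
  exact hp.le

theorem segment_nondeg {J : End (ES d) X} {τ w : Form (ES d) X 2} (hτ : ∀ x, TamesAt τ J x)
    (hw : ∀ x, TamesAt w J x) (t : ℝ) (h0 : 0 ≤ t) (h1 : t ≤ 1) :
    NondegForm (segment τ w t) := by
  intro x v hv
  by_contra hne
  have h2 : 0 < τ x ![v, J x v] := hτ x v hne
  have h3 : 0 < w x ![v, J x v] := hw x v hne
  have h4 : (1 - t) * τ x ![v, J x v] + t * w x ![v, J x v] = 0 := hv (J x v)
  rcases lt_or_eq_of_le h0 with h | h
  · have := mul_pos h h3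
    have h5 : 0 ≤ (1 - t) * τ x ![v, J x v] := mul_nonneg (by linarith) h2.le
    linarith
  · rw [← h] at h4
    linarith

theorem removableClass [IsManifold 𝓘(ℝ, ES d) ∞ X] [CompactSpace X] [T2Space X]
    (hI : SY.S_IMM) (hQ : SY.S_QB) (hGl : SY.S_GLOB) (hRGP : SY.S_RGP) (hJ1 : SY.S_J1)
    (hHH : SY.S_HH) (hKer : SY.S_KER) (hSm : SY.S_SM) (hCap : SY.S_CAP) (hPa : SY.S_PATCHP)
    (hd : 1 ≤ d) (J : End (ES d) X) (hJ : IsAlmostComplex J) (K : Set X) (hK : IsClosed K)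
    (hH : ∀ x₀ : X, μH[(d : ℝ) - 1] (chartAt (ES d) x₀ '' (K ∩ (chartAt (ES d) x₀).source)) = 0)
    (σ₀ : Form (ES d) X 2) (hσ₀ : IsSmooth σ₀) (hσ₀c : IsClosedForm σ₀)
    (β : Form (ES d) X 1) (σ : Form (ES d) X 2) (hβ : SmoothOff β K) (hσ : SmoothOff σ K)
    (hβσ : EqPlusD σ σ₀ β K) (hb : ∀ x ∈ K, BddNearK β K x ∧ BddNearK σ K x)
    (hpos : ∀ x, x ∉ K → ∀ v : TangentSpace 𝓘(ℝ, ES d) x, 0 ≤ qd σ J x v)
    (hsmall : ∀ z ∈ Crit σ J K, SmallAll J (connectedComponentIn (Crit σ J K) z) z) :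
    ∃ (α : Form (ES d) X 1) (ρ : Form (ES d) X 2), IsSmooth α ∧ IsSmooth ρ ∧ IsD α ρ ∧
      IsTamingSymplectic (addF σ₀ ρ) J ∧ ∀ τ : Form (ES d) X 2, (∀ x, TamesAt τ J x) →
        ∀ t : ℝ, 0 ≤ t → t ≤ 1 → NondegForm (segment τ (addF σ₀ ρ) t) := by
  obtain ⟨α, ρ, h1, h2, h3, h4, h5⟩ := SY.mainP (d := d) (X := X) hI hQ hGl hRGP hJ1 hHH hKer hSm
    hCap hPa hd (J := J) (ac_of J hJ) (K := K) hK hH (σ₀ := σ₀) ((smooth_iff σ₀).1 hσ₀)
    ((closed_iff σ₀).1 hσ₀c) (β := β) (σ := σ)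
    (fun V φ hV hφ hp => hβ V φ ⟨hV, hφ⟩ hp)
    (fun V φ hV hφ hp => hσ V φ ⟨hV, hφ⟩ hp)
    (fun V φ hV hφ hp p hpV => by
      exact (sub_eq_iff_eq_add'.2 (hβσ V φ ⟨hV, hφ⟩ hp p hpV)).symm)
    (fun x => by
      by_cases hx : x ∈ K
      · exact (hb x hx).1
      · exact bddK_off hK hβ hx)
    (fun x => by
      by_cases hx : x ∈ K
      · exact (hb x hx).2
      · exact bddK_off hK hσ hx)
    hpos (fun z hz => smallAll_of hJ (hsmall z hz))
  have h6 : IsTamingSymplectic (addF σ₀ ρ) J :=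
    symp_of ((smooth_iff _).2 (((smooth_iff σ₀).1 hσ₀).add h2)) ((closed_iff _).2 h4) h5
  exact ⟨α, ρ, (smooth_iff α).2 h1, (smooth_iff ρ).2 h2, (isD_iff α ρ).2 h3, h6,
    fun τ hτ t ht0 ht1 => segment_nondeg hτ h6.tames t ht0 ht1⟩

end

end Pool.Agent.Y501.SYP
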