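import Pool.Agent.Y501.SY.Glue
import Pool.Agent.Y501.SY.Thin

/-!
Thin compact sets: an exact form positive on the null directions over them.
-/

set_option autoImplicit false

open Set Filter Topology MeasureTheory
open scoped Manifold ContDiff

noncomputable section

namespace Pool.Agent.Y501.SY

section

variable {d : ℕ} {X : Type} [TopologicalSpace X] [ChartedSpace (E d) X]

/-- `τ` is positive on the null directions of `σ` at `x`. -/
def NullPos (σ : Form d X 2) (J : End d X) (τ : Form d X 2) (x : X) : Prop :=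
  ∀ v : TangentSpace (𝓡 d) x, v ≠ 0 → σ x ![v, J x v] = 0 → 0 < τ x ![v, J x v]

variable [IsManifold (𝓡 d) ∞ X]

theorem pertNull (hP : S_PERT) (hN : S_NULL) {J : End d X} (hJ : IsAlmostComplex J)
    {σ τ : Form d X 2} (hσ : IsSmooth σ) (hτ : IsSmooth τ)
    (hpos : ∀ (x : X) (v : TangentSpace (𝓡 d) x), 0 ≤ σ x ![v, J x v])
    {κ : Type} [Fintype κ] (e : κ → Form d X 2) (he : ∀ k, IsSmooth (e k)) (x : X)
    (h : NullPos σ J τ x) : ∃ ε : ℝ, 0 < ε ∧ ∀ᶠ y in 𝓝 x, ∀ t : κ → ℝ, (∀ k, |t k| ≤ ε) →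
      NullPos σ J (τ + ∑ k, t k • e k) y := by
  obtain ⟨ε₀, h0, h1⟩ := hN d X J hJ σ τ hσ hτ hpos x h
  have h2 := h1.self_of_nhds ε₀ h0 le_rfl
  obtain ⟨ε₁, h3, h4⟩ := hP d X J hJ κ (σ + ε₀ • τ) e (hσ.add (hτ.smul ε₀)) he x h2
  refine ⟨ε₁ / ε₀, div_pos h3 h0, ?_⟩
  filter_upwards [h4] with y hy t ht v hv hσv
  have h5 := hy (fun k => ε₀ * t k) (fun k => by
    rw [abs_mul, abs_of_pos h0]
    calc ε₀ * |t k| ≤ ε₀ * (ε₁ / ε₀) := mul_le_mul_of_nonneg_left (ht k) h0.le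
      _ = ε₁ := by field_simp) v hv
  have h6 : (σ + ε₀ • τ + ∑ k, (ε₀ * t k) • e k) y ![v, J y v] =
      σ y ![v, J y v] + ε₀ * τ y ![v, J y v] + (∑ k, (ε₀ * t k) • e k) y ![v, J y v] := rfl
  have h7 : (τ + ∑ k, t k • e k) y ![v, J y v] =
      τ y ![v, J y v] + (∑ k, t k • e k) y ![v, J y v] := rfl
  rw [h6, hσv, sum_apply2, zero_add] at h5
  rw [h7, sum_apply2]
  have h8 : ∑ k, ((ε₀ * t k) • e k) y ![v, J y v] = ε₀ * ∑ k, (t k • e k) y ![v, J y v] := by
    rw [Finset.mul_sum]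
    refine Finset.sum_congr rfl fun k _ => ?_
    have h9 : ((ε₀ * t k) • e k) y ![v, J y v] = (ε₀ * t k) * e k y ![v, J y v] := rfl
    have h10 : (t k • e k) y ![v, J y v] = t k * e k y ![v, J y v] := rfl
    rw [h9, h10, mul_assoc]
  rw [h8, ← mul_add] at h5
  exact (mul_pos_iff_of_pos_left h0).1 h5

theorem NullPos.nhds (hP : S_PERT) (hN : S_NULL) {J : End d X} (hJ : IsAlmostComplex J)
    {σ τ : Form d X 2} (hσ : IsSmooth σ) (hτ : IsSmooth τ)
    (hpos : ∀ (x : X) (v : TangentSpace (𝓡 d) x), 0 ≤ σ x ![v, J x v]) {x : X}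
    (h : NullPos σ J τ x) : ∀ᶠ y in 𝓝 x, NullPos σ J τ y := by
  obtain ⟨ε, hε, hp⟩ := pertNull hP hN hJ hσ hτ hpos (κ := Fin 0) (fun _ => 0)
    (fun k => k.elim0) x h
  filter_upwards [hp] with y hy
  have := hy (fun _ => 0) (fun k => k.elim0)
  simpa using this

theorem coreN (hG : S_GEN) (hP : S_PERT) (hN : S_NULL) (hPl : S_PLANAR) {J : End d X}
    (hJ : IsAlmostComplex J) {σ : Form d X 2} (hσ : IsSmooth σ)
    (hpos : ∀ (x : X) (v : TangentSpace (𝓡 d) x), 0 ≤ σ x ![v, J x v])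
    {K : Set X} (hK : IsCompact K) {ι : Type} [Fintype ι]
    (c a b : ι → X → ℝ) (M : ι → Set X) (hM : ∀ i, IsClosed (M i))
    (hcM : ∀ i x, c i x ≠ 0 → x ∈ M i)
    (hc : ∀ i, SmoothFun (d := d) (c i)) (ha : ∀ i, SmoothFun (d := d) (a i))
    (hb : ∀ i, SmoothFun (d := d) (b i))
    (hnull : ∀ i, volume ((fun x => (a i x, b i x)) '' (K ∩ M i)) = 0)
    (htau : ∀ x ∈ K, NullPos σ J (∑ i, hdfdg (c i) (a i) (b i)) x) :
    ∃ (α : Form d X 1) (η : Form d X 2), Pair α η ∧ ∀ x ∈ K, NullPos σ J η x := by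
  classical
  -- the error forms
  let e : ι × Bool → Form d X 2 := fun k =>
    if k.2 then hdfdg (fun _ => 1) (c k.1) (b k.1) else hdfdg (fun _ => 1) (c k.1) (a k.1)
  have he : ∀ k, IsSmooth (e k) := by
    rintro ⟨i, k⟩
    cases k
    · exact (hG d X (fun _ => 1) (c i) (a i) (SmoothFun.const 1) (hc i) (ha i)).2.1
    · exact (hG d X (fun _ => 1) (c i) (b i) (SmoothFun.const 1) (hc i) (hb i)).2.1
  have hts : IsSmooth (∑ i, hdfdg (d := d) (c i) (a i) (b i)) :=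
    IsSmooth.sum _ fun i _ => (hG d X (c i) (a i) (b i) (hc i) (ha i) (hb i)).2.1
  obtain ⟨ε, hε, hpert⟩ := unif hK
    (fun ε y => ∀ t : ι × Bool → ℝ, (∀ k, |t k| ≤ ε) →
      NullPos σ J ((∑ i, hdfdg (c i) (a i) (b i)) + ∑ k, t k • e k) y)
    (fun ε ε' y hle hp t ht => hp t fun k => (ht k).trans hle)
    (fun x hx => pertNull hP hN hJ hσ hts hpos e he x (htau x hx))
  have hcpt : ∀ i, IsCompact ((fun x => (a i x, b i x)) '' (K ∩ M i)) := fun i =>
    (hK.inter_right (hM i)).image ((ha i).continuous.prodMk (hb i).continuous)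
  choose P Q hPs hQs hPε hQε hPQ using fun i => hPl _ (hcpt i) (hnull i) ε hε
  have s1 : ∀ i, SmoothFun (d := d) (fun x => P i (a i x)) := fun i =>
    SmoothFun.comp1 (hPs i) (ha i)
  have s2 : ∀ i, SmoothFun (d := d) (fun x => Q i (a i x, b i x)) := fun i =>
    SmoothFun.comp2 (hQs i) (ha i) (hb i)
  have s1' : ∀ i, SmoothFun (d := d) (fun x => c i x * P i (a i x)) := fun i => (hc i).mul (s1 i)
  have s2' : ∀ i, SmoothFun (d := d) (fun x => c i x * Q i (a i x, b i x)) := fun i =>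
    (hc i).mul (s2 i)
  have s2'' : ∀ i, SmoothFun (d := d) (fun x => (-1) * (c i x * Q i (a i x, b i x))) := fun i =>
    (SmoothFun.const (-1)).mul (s2' i)
  refine ⟨∑ i, (fdg (fun x => c i x * P i (a i x)) (b i) +
      fdg (fun x => (-1) * (c i x * Q i (a i x, b i x))) (a i)),
    ∑ i, (dfdg (fun x => c i x * P i (a i x)) (b i) +
      dfdg (fun x => (-1) * (c i x * Q i (a i x, b i x))) (a i)), ?_, ?_⟩
  · exact Pair.sum _ fun i _ => Pair.add _ _ _ _ (Pair.gen _ _ (s1' i) (hb i))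
      (Pair.gen _ _ (s2'' i) (ha i))
  · intro x hx v hv hσv
    let t : ι × Bool → ℝ := fun k => if k.2 then P k.1 (a k.1 x) else - Q k.1 (a k.1 x, b k.1 x)
    have ht : ∀ k, |t k| ≤ ε := by
      rintro ⟨i, k⟩
      cases k
      · change |-Q i (a i x, b i x)| ≤ ε
        rw [abs_neg]; exact hQε i _
      · exact hPε i _
    have h1 := hpert x hx t ht v hv hσv
    refine lt_of_lt_of_eq h1 ?_
    have h2 : ((∑ i, hdfdg (d := d) (c i) (a i) (b i)) + ∑ k, t k • e k) x ![v, J x v] =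
        (∑ i, hdfdg (d := d) (c i) (a i) (b i)) x ![v, J x v] +
          (∑ k, t k • e k) x ![v, J x v] := rfl
    rw [h2, sum_apply2, sum_apply2, sum_apply2, Fintype.sum_prod_type, ← Finset.sum_add_distrib]
    refine Finset.sum_congr rfl fun i _ => ?_
    rw [Fintype.sum_bool]
    have h3 : (t (i, true) • e (i, true)) x ![v, J x v] =
        P i (a i x) * (hdfdg (d := d) (fun _ => 1) (c i) (b i) x ![v, J x v]) := rfl
    have h4 : (t (i, false) • e (i, false)) x ![v, J x v] =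
        (- Q i (a i x, b i x)) * (hdfdg (d := d) (fun _ => 1) (c i) (a i) x ![v, J x v]) := rfl
    have h5 : (dfdg (d := d) (fun x => c i x * P i (a i x)) (b i) +
        dfdg (fun x => (-1) * (c i x * Q i (a i x, b i x))) (a i) : Form d X 2) x ![v, J x v] =
        dfdg (d := d) (fun x => c i x * P i (a i x)) (b i) x ![v, J x v] +
        dfdg (d := d) (fun x => (-1) * (c i x * Q i (a i x, b i x))) (a i) x ![v, J x v] := rfl
    rw [h3, h4, h5, hdfdg_apply, hdfdg_apply, hdfdg_apply, dfdg_apply, dfdg_apply,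
      dd_mul (hc i) (s1 i), dd_mul (hc i) (s1 i), dd_comp1 (hPs i) (ha i),
      dd_comp1 (hPs i) (ha i), dd_mul (SmoothFun.const (-1)) (s2' i),
      dd_mul (SmoothFun.const (-1)) (s2' i), dd_mul (hc i) (s2 i), dd_mul (hc i) (s2 i),
      dd_comp2 (hQs i) (ha i) (hb i), dd_comp2 (hQs i) (ha i) (hb i)]
    have h6 : ∀ w : TangentSpace (𝓡 d) x, dd (d := d) (fun _ : X => (-1 : ℝ)) x w = 0 := by
      intro w
      unfold dd
      rw [mfderiv_const]; rfl
    rw [h6, h6]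
    have h7 : c i x * fderiv ℝ (Q i) (a i x, b i x) ((0, 1) : ℝ × ℝ) =
        c i x * (1 - deriv (P i) (a i x)) := by
      by_cases hcx : c i x = 0
      · rw [hcx, zero_mul, zero_mul]
      · have h8 := hPQ i (a i x, b i x) ⟨x, ⟨hx, hcM i x hcx⟩, rfl⟩
        have h9 : fderiv ℝ (Q i) (a i x, b i x) ((0, 1) : ℝ × ℝ) = 1 - deriv (P i) (a i x) := by
          have h8' : deriv (P i) (a i x) +
            fderiv ℝ (Q i) (a i x, b i x) ((0, 1) : ℝ × ℝ) = 1 := h8
          linarith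
        rw [h9]
    generalize fderiv ℝ (Q i) (a i x, b i x) ((0, 1) : ℝ × ℝ) = q at *
    generalize fderiv ℝ (Q i) (a i x, b i x) ((1, 0) : ℝ × ℝ) = r at *
    generalize dd (d := d) (a i) x v = av at *
    generalize dd (d := d) (a i) x (J x v) = aJ at *
    generalize dd (d := d) (b i) x v = bv at *
    generalize dd (d := d) (b i) x (J x v) = bJ at *
    linear_combination (-(av * bJ - aJ * bv)) * h7

theorem coverN (hG : S_GEN) (hP : S_PERT) (hN : S_NULL) (hPl : S_PLANAR) [T2Space X]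
    {J : End d X} (hJ : IsAlmostComplex J) {σ : Form d X 2} (hσ : IsSmooth σ)
    (hpos : ∀ (x : X) (v : TangentSpace (𝓡 d) x), 0 ≤ σ x ![v, J x v])
    {K : Set X} (hK : IsCompact K) (hthin : ∀ z ∈ K, ThinAt σ J K z) :
    ∃ (α : Form d X 1) (η : Form d X 2), Pair α η ∧ ∀ x ∈ K, NullPos σ J η x := by
  classical
  have hchi : ∀ z ∈ K, ∃ (n : ℕ) (a b : Fin n → X → ℝ) (χ : X → ℝ) (M : Set X),
      (∀ i, SmoothFun (d := d) (a i)) ∧ (∀ i, SmoothFun (d := d) (b i)) ∧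
      SmoothFun (d := d) χ ∧ (∀ y, 0 ≤ χ y) ∧ 0 < χ z ∧ IsClosed M ∧ (∀ y, χ y ≠ 0 → y ∈ M) ∧
      (∀ i, volume ((fun x => (a i x, b i x)) '' (K ∩ M)) = 0) ∧
      ∀ y, χ y ≠ 0 → NullPos σ J (∑ i, dfdg (a i) (b i)) y := by
    intro z hz
    obtain ⟨n, a, b, N, hNz, ha, hb, hnull, hposz⟩ := hthin z hz
    have hts : IsSmooth (∑ i, dfdg (d := d) (a i) (b i)) := by
      refine IsSmooth.sum _ fun i _ => ?_
      have := (hG d X (fun _ => 1) (a i) (b i) (SmoothFun.const 1) (ha i) (hb i)).2.1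
      have h2 : hdfdg (d := d) (fun _ => (1 : ℝ)) (a i) (b i) = dfdg (a i) (b i) := by
        funext x; exact one_smul ℝ _
      rwa [h2] at this
    have hnz : NullPos σ J (∑ i, dfdg (a i) (b i)) z := fun v hv h0 => hposz v hv h0.le
    have hnear := NullPos.nhds hP hN hJ hσ hts hpos hnz
    obtain ⟨f, hf⟩ := (SmoothBumpFunction.nhds_basis_support (I := 𝓡 d)
      (Filter.inter_mem hnear hNz)).ex_mem
    refine ⟨n, a, b, f, tsupport f, ha, hb, f.contMDiff, fun y => f.nonneg,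
      by rw [f.eq_one]; exact one_pos, isClosed_tsupport f, fun y hy => subset_tsupport _ hy,
      fun i => ?_, fun y hy => ?_⟩
    · refine measure_mono_null ?_ (hnull i)
      exact image_mono (inter_subset_inter_right _ (fun y hy => (hf hy).2))
    · exact (hf (subset_tsupport _ hy)).1
  choose! n a b χ M ha hb hχ hχ0 hχz hMc hχM hnull hχt using hchi
  obtain ⟨t, htK, htc⟩ := hK.elim_nhds_subcover (fun z => {y | z ∈ K → 0 < χ z y})
    (fun z hz => by
      have := (isOpen_lt continuous_const (hχ z hz).continuous).mem_nhds (hχz z hz)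
      filter_upwards [this] with y hy _ using hy)
  refine coreN hG hP hN hPl hJ hσ hpos hK (ι := Σ z : ↥t, Fin (n z))
    (fun i x => χ i.1 x) (fun i => a i.1 i.2) (fun i => b i.1 i.2) (fun i => M i.1)
    (fun i => hMc _ (htK _ i.1.2)) (fun i x h => hχM _ (htK _ i.1.2) x h)
    (fun i => hχ _ (htK _ i.1.2)) (fun i => ha _ (htK _ i.1.2) _) (fun i => hb _ (htK _ i.1.2) _)
    (fun i => hnull _ (htK _ i.1.2) _) ?_
  intro x hx v hv hσv
  rw [sum_apply2, Fintype.sum_sigma]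
  have h1 : ∀ z : ↥t, ∑ i : Fin (n z), (hdfdg (d := d) (fun x => χ z x)
      (a z i) (b z i)) x ![v, J x v] =
      χ z x * (∑ i, dfdg (d := d) (a z i) (b z i)) x ![v, J x v] := by
    intro z
    rw [sum_apply2, Finset.mul_sum]
    refine Finset.sum_congr rfl fun i _ => ?_
    rw [hdfdg_apply, dfdg_apply]
  have h3 : ∀ z : ↥t, 0 ≤ χ z x * (∑ i, dfdg (d := d) (a z i) (b z i)) x ![v, J x v] := by
    intro z
    by_cases h : χ z x = 0
    · rw [h, zero_mul]
    · exact mul_nonneg (hχ0 _ (htK _ z.2) _) (hχt z (htK _ z.2) x h v hv hσv).le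
  obtain ⟨z, hzt, hz⟩ := mem_iUnion₂.1 (htc hx)
  have hz' : 0 < χ z x := hz (htK z hzt)
  calc (0 : ℝ) < χ z x * (∑ i, dfdg (d := d) (a z i) (b z i)) x ![v, J x v] :=
        mul_pos hz' (hχt z (htK z hzt) x hz'.ne' v hv hσv)
    _ ≤ ∑ z : ↥t, χ z x * (∑ i, dfdg (d := d) (a z i) (b z i)) x ![v, J x v] :=
        Finset.single_le_sum
          (f := fun z : ↥t => χ z x * (∑ i, dfdg (d := d) (a z i) (b z i)) x ![v, J x v])
          (fun z _ => h3 z) (Finset.mem_univ (⟨z, hzt⟩ : ↥t))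
    _ = _ := Finset.sum_congr rfl fun z _ => (h1 z).symm

end

end Pool.Agent.Y501.SY
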