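import Pool.Agent.Y501.SY.Thin

/-!
Two level version: definitions and statements of the steps.
-/

set_option autoImplicit false

open Set Filter Topology MeasureTheory
open scoped Manifold ContDiff

noncomputable section

namespace Pool.Agent.Y501.SY

section

variable {d : ℕ} {X : Type} [TopologicalSpace X] [ChartedSpace (E d) X]

/-- `τ` is positive on the nonzero vectors `v` with `σ(v, J v) = θ(v, J v) = 0`. -/
def NullPos2 (σ θ : Form d X 2) (J : End d X) (τ : Form d X 2) (x : X) : Prop :=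
  ∀ v : TangentSpace (𝓡 d) x, v ≠ 0 → σ x ![v, J x v] = 0 → θ x ![v, J x v] = 0 →
    0 < τ x ![v, J x v]

/-- `C` is thin at `z`, relative to `σ`, `θ` and `J`: there are finitely many pairs
`(a, b)` of smooth functions on `X` such that each `(a, b)` maps a neighbourhood of `z` in `C`
onto a Lebesgue null set of the plane, and the sum of the forms `da ∧ db` is positive on all
`(v, J v)` with `v` a nonzero tangent vector at `z` with `σ(v, J v) = θ(v, J v) = 0`. -/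
def ThinAt2 (σ θ : Form d X 2) (J : End d X) (C : Set X) (z : X) : Prop :=
  ∃ (n : ℕ) (a b : Fin n → X → ℝ) (N : Set X), N ∈ 𝓝 z ∧ (∀ i, SmoothFun (d := d) (a i)) ∧
    (∀ i, SmoothFun (d := d) (b i)) ∧
    (∀ i, volume ((fun x => (a i x, b i x)) '' (C ∩ N)) = 0) ∧
    NullPos2 σ θ J (∑ i, dfdg (a i) (b i)) z

/-- wedge product of a linear form and an alternating map in one variable -/
def wedge1 {V : Type} [NormedAddCommGroup V] [NormedSpace ℝ V] (a : V →L[ℝ] ℝ)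
    (b : V [⋀^Fin 1]→L[ℝ] ℝ) : V [⋀^Fin 2]→L[ℝ] ℝ :=
  ContinuousAlternatingMap.alternatizeUncurryFin (a.smulRight b)

/-- the form `du ∧ β` -/
def duw (u : X → ℝ) (β : Form d X 1) : Form d X 2 := fun x =>
  wedge1 (V := E d) (dd u x) (β x)

/-- the form `du ∧ β + u ρ` -/
def prodD (u : X → ℝ) (β : Form d X 1) (ρ : Form d X 2) : Form d X 2 := fun x =>
  duw u β x + u x • ρ x

end

/-- positivity on the null vectors is stable under small perturbations -/
def S_PERT2 : Prop := ∀ (d : ℕ) (X : Type) [TopologicalSpace X] [ChartedSpace (E d) X]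
  [IsManifold (𝓡 d) ∞ X] (J : End d X), IsAlmostComplex J →
  ∀ (κ : Type) [Fintype κ] (σ θ τ : Form d X 2) (η : κ → Form d X 2), IsSmooth σ → IsSmooth θ →
  IsSmooth τ → (∀ k, IsSmooth (η k)) → ∀ x : X, NullPos2 σ θ J τ x →
  ∃ ε : ℝ, 0 < ε ∧ ∀ᶠ y in 𝓝 x, ∀ t : κ → ℝ, (∀ k, |t k| ≤ ε) →
    NullPos2 σ θ J (τ + ∑ k, t k • η k) y

/-- lexicographic positivity -/
def S_NULL2 : Prop := ∀ (d : ℕ) (X : Type) [TopologicalSpace X] [ChartedSpace (E d) X]
  [IsManifold (𝓡 d) ∞ X] (J : End d X), IsAlmostComplex J →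
  ∀ (σ θ η : Form d X 2), IsSmooth σ → IsSmooth θ → IsSmooth η → ∀ (F : Set X),
  (∀ y ∈ F, ∀ v : TangentSpace (𝓡 d) y, σ y ![v, J y v] = 0 → 0 ≤ θ y ![v, J y v]) →
  ∀ x : X, NullPos2 σ θ J η x →
  ∃ ε₀ : ℝ, 0 < ε₀ ∧ ∀ᶠ y in 𝓝 x, y ∈ F → ∀ ε : ℝ, 0 < ε → ε ≤ ε₀ →
    ∀ v : TangentSpace (𝓡 d) y, v ≠ 0 → σ y ![v, J y v] = 0 →
      0 < (θ + ε • η) y ![v, J y v]

/-- product rule for general forms -/
def S_PROD : Prop := ∀ (d : ℕ) (X : Type) [TopologicalSpace X] [ChartedSpace (E d) X]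
  [IsManifold (𝓡 d) ∞ X] (u : X → ℝ) (β : Form d X 1) (ρ : Form d X 2),
  SmoothFun (d := d) u → IsSmooth β → IsSmooth ρ → IsD β ρ →
  IsSmooth (fun x => u x • β x : Form d X 1) ∧ IsSmooth (prodD u β ρ) ∧
  IsD (fun x => u x • β x : Form d X 1) (prodD u β ρ) ∧ IsClosedForm (prodD u β ρ) ∧
  ∀ (x : X) (v w : TangentSpace (𝓡 d) x), prodD u β ρ x ![v, w] =
    dd u x v * β x ![w] - dd u x w * β x ![v] + u x * ρ x ![v, w]

end Pool.Agent.Y501.SY
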