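import Mathlib

/-!
Differential forms on smooth manifolds, tested along smooth maps from open subsets of the model
space; almost complex structures; taming; planar null sets.
-/

set_option autoImplicit false

open Set Filter Topology
open scoped Manifold ContDiff

noncomputable section

namespace Pool.Agent.Y501.SY

/-- Euclidean space -/
abbrev E (d : ℕ) := EuclideanSpace ℝ (Fin d)

section forms

variable {d : ℕ} {X : Type} [TopologicalSpace X] [ChartedSpace (E d) X]

variable (d X) in
/-- A `k`-form on `X`, without any regularity. -/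
abbrev Form (k : ℕ) : Type := (x : X) → (TangentSpace (𝓡 d) x) [⋀^Fin k]→L[ℝ] ℝ

/-- The pull-back of a form to the model space. -/
def pb {k : ℕ} (φ : E d → X) (σ : Form d X k) (p : E d) : (E d) [⋀^Fin k]→L[ℝ] ℝ :=
  (σ (φ p)).compContinuousLinearMap (mfderiv (𝓡 d) (𝓡 d) φ p)

/-- A form is smooth if its pull-back by every smooth map from an open subset of the model space
is smooth. -/
def IsSmooth {k : ℕ} (σ : Form d X k) : Prop :=
  ∀ (U : Set (E d)) (φ : E d → X), IsOpen U → ContMDiffOn (𝓡 d) (𝓡 d) ∞ φ U →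
    ContDiffOn ℝ ∞ (pb φ σ) U

/-- `η` is the exterior derivative of `α`. -/
def IsD {k : ℕ} (α : Form d X k) (η : Form d X (k + 1)) : Prop :=
  ∀ (U : Set (E d)) (φ : E d → X), IsOpen U → ContMDiffOn (𝓡 d) (𝓡 d) ∞ φ U →
    ∀ p ∈ U, extDeriv (pb φ α) p = pb φ η p

/-- closed forms -/
def IsClosedForm {k : ℕ} (σ : Form d X k) : Prop := IsD σ 0

variable (d X) in
/-- an endomorphism of the tangent bundle -/
abbrev End : Type := (x : X) → TangentSpace (𝓡 d) x →L[ℝ] TangentSpace (𝓡 d) x

/-- An endomorphism of the tangent bundle in the chart at `x₀`. -/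
def inChart (J : End d X) (x₀ : X) (p : E d) : E d →L[ℝ] E d :=
  (mfderiv (𝓡 d) (𝓡 d) (chartAt (E d) x₀) ((chartAt (E d) x₀).symm p)).comp
    ((J ((chartAt (E d) x₀).symm p)).comp
      (mfderiv (𝓡 d) (𝓡 d) (chartAt (E d) x₀).symm p))

/-- continuous almost complex structures -/
structure IsAlmostComplex (J : End d X) : Prop where
  sq : ∀ (x : X) (v : TangentSpace (𝓡 d) x), J x (J x v) = -v
  cont : ∀ x₀ : X, ContinuousOn (inChart J x₀) (chartAt (E d) x₀).target

/-- `σ` tames `J` at `x`. -/
def TamesAt (σ : Form d X 2) (J : End d X) (x : X) : Prop :=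
  ∀ v : TangentSpace (𝓡 d) x, v ≠ 0 → 0 < σ x ![v, J x v]

/-- smooth real functions -/
abbrev SmoothFun (f : X → ℝ) : Prop := ContMDiff (𝓡 d) 𝓘(ℝ, ℝ) ∞ f

/-- the differential of a real function -/
def dd (f : X → ℝ) (x : X) : TangentSpace (𝓡 d) x →L[ℝ] ℝ :=
  mfderiv (𝓡 d) 𝓘(ℝ, ℝ) f x

end forms

section lin

variable {V : Type} [NormedAddCommGroup V] [NormedSpace ℝ V]

/-- a linear form as an alternating map in one variable -/
def one (a : V →L[ℝ] ℝ) : V [⋀^Fin 1]→L[ℝ] ℝ :=
  ContinuousAlternatingMap.ofSubsingleton ℝ V ℝ (0 : Fin 1) a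

/-- the wedge product of two linear forms -/
def wedge (a b : V →L[ℝ] ℝ) : V [⋀^Fin 2]→L[ℝ] ℝ :=
  ContinuousAlternatingMap.alternatizeUncurryFin (a.smulRight (one b))

@[simp] theorem one_apply (a : V →L[ℝ] ℝ) (v : Fin 1 → V) : one a v = a (v 0) := rfl

theorem wedge_apply (a b : V →L[ℝ] ℝ) (v : Fin 2 → V) :
    wedge a b v = a (v 0) * b (v 1) - a (v 1) * b (v 0) := by
  unfold wedge
  rw [ContinuousAlternatingMap.alternatizeUncurryFin_apply]
  simp [Fin.sum_univ_two, Fin.removeNth, Fin.succAbove]
  ring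

end lin

section forms

variable {d : ℕ} {X : Type} [TopologicalSpace X] [ChartedSpace (E d) X]

/-- the one-form `f dg` -/
def fdg (f g : X → ℝ) : Form d X 1 := fun x => f x • one (V := E d) (dd g x)

/-- the two-form `df ∧ dg` -/
def dfdg (f g : X → ℝ) : Form d X 2 := fun x => wedge (V := E d) (dd f x) (dd g x)

/-- the two-form `h df ∧ dg` -/
def hdfdg (h f g : X → ℝ) : Form d X 2 := fun x => h x • wedge (V := E d) (dd f x) (dd g x)

/-- finite sums of one-forms `f dg`, together with their exterior derivatives -/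
inductive Pair : Form d X 1 → Form d X 2 → Prop
  | zero : Pair 0 0
  | gen (f g : X → ℝ) : SmoothFun (d := d) f → SmoothFun (d := d) g → Pair (fdg f g) (dfdg f g)
  | add (α α' : Form d X 1) (η η' : Form d X 2) : Pair α η → Pair α' η' →
      Pair (α + α') (η + η')

variable (d) in
/-- A subset of `X` is planar null if its image under every smooth map from `X` to the plane has
Lebesgue measure zero. -/
def PlanarNull (C : Set X) : Prop :=
  ∀ f g : X → ℝ, SmoothFun (d := d) f → SmoothFun (d := d) g →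
    MeasureTheory.volume ((fun x => (f x, g x)) '' C) = 0

end forms

end Pool.Agent.Y501.SY
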