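import Pool.Agent.Y501.SY.Cover

/-!
Gluing along the fibres of a map which is constant in the null directions.
-/

set_option autoImplicit false

open Set Filter Topology MeasureTheory
open scoped Manifold ContDiff

noncomputable section

namespace Pool.Agent.Y501.SY

theorem alt_swap {V : Type} [AddCommGroup V] [Module ℝ V] [TopologicalSpace V]
    (η : V [⋀^Fin 2]→L[ℝ] ℝ) (v w : V) : η ![v, w] = - η ![w, v] := by
  have h := η.toAlternatingMap.map_swap ![w, v] (i := 0) (j := 1) (by decide)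
  have h2 : (![w, v] ∘ Equiv.swap (0 : Fin 2) 1) = ![v, w] := by
    funext i; fin_cases i <;> simp
  rw [h2] at h
  exact h

theorem alt_neg {V : Type} [AddCommGroup V] [Module ℝ V] [TopologicalSpace V]
    (η : V [⋀^Fin 2]→L[ℝ] ℝ) (v w : V) : η ![v, -w] = - η ![v, w] := by
  have h := η.toAlternatingMap.map_update_neg ![v, w] 1 w
  have h2 : Function.update ![v, w] 1 (-w) = ![v, -w] := by
    funext i; fin_cases i <;> simp
  have h3 : Function.update ![v, w] 1 w = ![v, w] := by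
    funext i; fin_cases i <;> simp
  rw [h2, h3] at h
  exact h

section

variable {d : ℕ} {X : Type} [TopologicalSpace X] [ChartedSpace (E d) X]

theorem null_J {J : End d X} (hJ : IsAlmostComplex J) (σ : Form d X 2) (x : X)
    (v : TangentSpace (𝓡 d) x) : σ x ![J x v, J x (J x v)] = σ x ![v, J x v] := by
  rw [hJ.sq, alt_neg, alt_swap, neg_neg]

variable [IsManifold (𝓡 d) ∞ X]

theorem glue {J : End d X} (hJ : IsAlmostComplex J) (σ : Form d X 2) {D : Set X}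
    (hD : IsCompact D) (hnull : ∀ (x : X) (v : TangentSpace (𝓡 d) x), v ≠ 0 →
      σ x ![v, J x v] = 0 → x ∈ D)
    (h : ∀ z ∈ D, ∃ (u : X → ℝ) (α : Form d X 1) (η : Form d X 2), SmoothFun (d := d) u ∧
      (∀ x ∈ D, ∀ v : TangentSpace (𝓡 d) x, σ x ![v, J x v] = 0 → dd u x v = 0) ∧
      (∀ x, 0 ≤ u x) ∧ 0 < u z ∧ Pair α η ∧
      ∀ x ∈ D, u x ≠ 0 → ∀ v : TangentSpace (𝓡 d) x, v ≠ 0 → σ x ![v, J x v] = 0 →
        0 < η x ![v, J x v]) :
    ∃ (α : Form d X 1) (η : Form d X 2), Pair α η ∧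
      ∀ (x : X) (v : TangentSpace (𝓡 d) x), v ≠ 0 → σ x ![v, J x v] = 0 →
        0 < η x ![v, J x v] := by
  classical
  choose! u α η hu hu0 hun huz hpair hpos using h
  obtain ⟨t, htD, htc⟩ := hD.elim_nhds_subcover (fun z => {y | z ∈ D → 0 < u z y})
    (fun z hz => by
      have := (isOpen_lt continuous_const (hu z hz).continuous).mem_nhds (huz z hz)
      filter_upwards [this] with y hy _ using hy)
  have h1 : ∀ z : ↥t, ∃ (α' : Form d X 1) (η' : Form d X 2), Pair α' η' ∧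
      ∀ x (v w : TangentSpace (𝓡 d) x), η' x ![v, w] = u z x * η z x ![v, w] +
        (dd (u z) x v * α z x ![w] - dd (u z) x w * α z x ![v]) := by
    intro z
    obtain ⟨α', η', h1, _, h3⟩ := (hpair z (htD z z.2)).smulFun (hu z (htD z z.2))
    exact ⟨α', η', h1, h3⟩
  choose α' η' hp' he' using h1
  refine ⟨∑ z, α' z, ∑ z, η' z, Pair.sum _ fun z _ => hp' z, ?_⟩
  intro x v hv hσ
  have hxD := hnull x v hv hσ
  have hσ' : σ x ![J x v, J x (J x v)] = 0 := by rw [null_J hJ]; exact hσ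
  have h2 : ∀ z : ↥t, η' z x ![v, J x v] = u z x * η z x ![v, J x v] := by
    intro z
    rw [he', hu0 z (htD z z.2) x hxD v hσ, hu0 z (htD z z.2) x hxD (J x v) hσ']
    ring
  have h3 : ∀ z : ↥t, 0 ≤ η' z x ![v, J x v] := by
    intro z
    rw [h2]
    by_cases h : u z x = 0
    · rw [h, zero_mul]
    · exact mul_nonneg (hun z (htD z z.2) x) (hpos z (htD z z.2) x hxD h v hv hσ).le
  rw [sum_apply2]
  obtain ⟨z, hzt, hz⟩ := mem_iUnion₂.1 (htc hxD)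
  have hz' : 0 < u z x := hz (htD z hzt)
  have h4 : 0 < η' ⟨z, hzt⟩ x ![v, J x v] := by
    rw [h2]
    exact mul_pos hz' (hpos z (htD z hzt) x hxD hz'.ne' v hv hσ)
  exact lt_of_lt_of_le h4 (Finset.single_le_sum (f := fun z : ↥t => η' z x ![v, J x v])
    (fun z _ => h3 z) (Finset.mem_univ (⟨z, hzt⟩ : ↥t)))

/-- a clopen neighbourhood of a component inside an open set -/
theorem comp_clopen {F : Type} [TopologicalSpace F] [CompactSpace F] [T2Space F] (z : F)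
    {U : Set F} (hU : IsOpen U) (h : connectedComponent z ⊆ U) :
    ∃ s : Set F, IsClopen s ∧ z ∈ s ∧ s ⊆ U := by
  have : Nonempty { s : Set F // IsClopen s ∧ z ∈ s } := ⟨⟨univ, isClopen_univ, mem_univ z⟩⟩
  have h1 : ∀ x ∈ ⋂ s : { s : Set F // IsClopen s ∧ z ∈ s }, (s : Set F), U ∈ 𝓝 x := by
    intro x hx
    rw [← connectedComponent_eq_iInter_isClopen] at hx
    exact hU.mem_nhds (h hx)
  have h2 : Directed (· ⊇ ·) (fun s : { s : Set F // IsClopen s ∧ z ∈ s } => (s : Set F)) := by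
    intro s t
    exact ⟨⟨s.1 ∩ t.1, s.2.1.inter t.2.1, s.2.2, t.2.2⟩, inter_subset_left, inter_subset_right⟩
  obtain ⟨i, hi⟩ := exists_subset_nhds_of_isCompact' h2
    (fun s => s.2.1.isClosed.isCompact) (fun s => s.2.1.isClosed) h1
  exact ⟨i, i.2.1, i.2.2, hi⟩

theorem comp_sep {Y : Type} [TopologicalSpace Y] [T2Space Y] {F : Set Y} (hF : IsCompact F)
    {z : Y} (hz : z ∈ F) {U : Set Y} (hU : IsOpen U) (h : connectedComponentIn F z ⊆ U) :
    ∃ O₁ O₂ : Set Y, IsOpen O₁ ∧ IsOpen O₂ ∧ Disjoint O₁ O₂ ∧ z ∈ O₁ ∧ O₁ ⊆ U ∧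
      F ⊆ O₁ ∪ O₂ := by
  have : CompactSpace ↥F := isCompact_iff_compactSpace.1 hF
  have h' : connectedComponent (⟨z, hz⟩ : F) ⊆ Subtype.val ⁻¹' U := by
    intro x hx
    apply h
    rw [connectedComponentIn_eq_image hz]
    exact ⟨x, hx, rfl⟩
  obtain ⟨s, hs, hzs, hsU⟩ := comp_clopen (⟨z, hz⟩ : F) (hU.preimage continuous_subtype_val) h'
  have c1 : IsCompact (Subtype.val '' s) := hs.isClosed.isCompact.image continuous_subtype_val
  have c2 : IsCompact (Subtype.val '' sᶜ) :=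
    hs.compl.isClosed.isCompact.image continuous_subtype_val
  have hdis : Disjoint (Subtype.val '' s) (Subtype.val '' sᶜ) := by
    rw [disjoint_image_iff Subtype.val_injective]
    exact disjoint_compl_right
  obtain ⟨O₁, O₂, o1, o2, h1, h2, h3⟩ := SeparatedNhds.of_isCompact_isCompact c1 c2 hdis
  refine ⟨O₁ ∩ U, O₂, o1.inter hU, o2, h3.mono_left inter_subset_left,
    ⟨h1 ⟨_, hzs, rfl⟩, ?_⟩, inter_subset_right, ?_⟩
  · exact hsU hzs
  · intro x hx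
    by_cases hxs : (⟨x, hx⟩ : F) ∈ s
    · exact Or.inl ⟨h1 ⟨_, hxs, rfl⟩, hsU hxs⟩
    · exact Or.inr (h2 ⟨⟨x, hx⟩, hxs, rfl⟩)

theorem dd_eventually_const {u : X → ℝ} {c : ℝ} {x : X} (h : ∀ᶠ y in 𝓝 x, u y = c)
    (v : TangentSpace (𝓡 d) x) : dd (d := d) u x v = 0 := by
  unfold dd
  have h1 : u =ᶠ[𝓝 x] fun _ => c := h
  rw [h1.mfderiv_eq, mfderiv_const]
  rfl

/-- the separating function -/
theorem sepfun [CompactSpace X] [T2Space X] {m : ℕ} {Y : Type} [TopologicalSpace Y]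
    [ChartedSpace (E m) Y] [IsManifold (𝓡 m) ∞ Y] [T2Space Y] {f : X → Y}
    (hf : ContMDiff (𝓡 d) (𝓡 m) ∞ f) {D : Set X} (hD : IsCompact D) {z : X} (hz : z ∈ D)
    {U : Set X} (hU : IsOpen U) (h : connectedComponentIn (D ∩ f ⁻¹' {f z}) z ⊆ U) :
    ∃ u : X → ℝ, SmoothFun (d := d) u ∧ (∀ x, 0 ≤ u x) ∧ 0 < u z ∧
      (∀ x ∈ D, u x ≠ 0 → x ∈ U) ∧
      ∀ x ∈ D, ∀ v : TangentSpace (𝓡 d) x, mfderiv (𝓡 d) (𝓡 m) f x v = 0 → dd u x v = 0 := by
  have hfc := hf.continuous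
  have hF : IsCompact (D ∩ f ⁻¹' {f z}) := hD.inter_right (isClosed_singleton.preimage hfc)
  obtain ⟨O₁, O₂, o1, o2, hdis, hz1, hO1, hFO⟩ := comp_sep hF ⟨hz, rfl⟩ hU h
  have hR : IsCompact (D \ (O₁ ∪ O₂)) := hD.diff (o1.union o2)
  have hfz : f z ∉ f '' (D \ (O₁ ∪ O₂)) := by
    rintro ⟨y, ⟨hyD, hyO⟩, hy⟩
    exact hyO (hFO ⟨hyD, hy⟩)
  have hG : (f '' (D \ (O₁ ∪ O₂)))ᶜ ∈ 𝓝 (f z) := (hR.image hfc).isClosed.isOpen_compl.mem_nhds hfz
  obtain ⟨b, hb⟩ := (SmoothBumpFunction.nhds_basis_support (I := 𝓡 m) hG).ex_mem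
  have hDV : D ∩ f ⁻¹' (tsupport b) ⊆ O₁ ∪ O₂ := by
    intro x hx
    by_contra hxO
    exact hb hx.2 ⟨x, ⟨hx.1, hxO⟩, rfl⟩
  have hDVc : IsClosed (D ∩ f ⁻¹' (tsupport b)) :=
    hD.isClosed.inter ((isClosed_tsupport b).preimage hfc)
  have k1 : IsClosed ((D ∩ f ⁻¹' (tsupport b)) \ O₂) := hDVc.sdiff o2
  have k2 : IsClosed ((D ∩ f ⁻¹' (tsupport b)) \ O₁) := hDVc.sdiff o1
  have kd : Disjoint ((D ∩ f ⁻¹' (tsupport b)) \ O₁) ((D ∩ f ⁻¹' (tsupport b)) \ O₂) := by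
    rw [Set.disjoint_left]
    rintro x ⟨hx, hx1⟩ ⟨_, hx2⟩
    rcases hDV hx with h | h
    · exact hx1 h
    · exact hx2 h
  obtain ⟨ψ, hψ0, hψ1, hψ⟩ := exists_contMDiffMap_zero_one_nhds_of_isClosed (n := (⊤ : ℕ∞)) (𝓡 d) k2 k1 kd
  have hbs : SmoothFun (d := d) (fun x => b (f x)) := b.contMDiff.comp hf
  have hψs : SmoothFun (d := d) (fun x => ψ x) := ψ.contMDiff
  have hzt : f z ∈ tsupport b := by
    apply subset_tsupport
    change b (f z) ≠ 0
    rw [b.eq_one]; exact one_ne_zero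
  have hz2 : z ∈ (D ∩ f ⁻¹' (tsupport b)) \ O₂ :=
    ⟨⟨hz, hzt⟩, fun h2 => (Set.disjoint_left.1 hdis) hz1 h2⟩
  have e1 : ∀ x ∈ (D ∩ f ⁻¹' (tsupport b)) \ O₂, ∀ᶠ y in 𝓝 x, ψ y = 1 := fun x hx =>
    hψ1.filter_mono (nhds_le_nhdsSet hx)
  have e0 : ∀ x ∈ (D ∩ f ⁻¹' (tsupport b)) \ O₁, ∀ᶠ y in 𝓝 x, ψ y = 0 := fun x hx =>
    hψ0.filter_mono (nhds_le_nhdsSet hx)
  refine ⟨fun x => ψ x * b (f x), hψs.mul hbs, fun x => mul_nonneg (hψ x).1 b.nonneg, ?_, ?_, ?_⟩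
  · change 0 < ψ z * b (f z)
    rw [(e1 z hz2).self_of_nhds, b.eq_one]
    norm_num
  · intro x hx hux
    have h1 : ψ x ≠ 0 := left_ne_zero_of_mul hux
    have h2 : b (f x) ≠ 0 := right_ne_zero_of_mul hux
    have h3 : x ∈ D ∩ f ⁻¹' (tsupport b) := ⟨hx, subset_tsupport _ h2⟩
    by_contra hxU
    exact h1 (e0 x ⟨h3, fun h => hxU (hO1 h)⟩).self_of_nhds
  · intro x hx v hv
    rw [dd_mul hψs hbs]
    have hb0 : dd (d := d) (fun x => b (f x)) x v = 0 := by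
      have hbd : MDifferentiableAt (𝓡 m) 𝓘(ℝ, ℝ) b (f x) :=
        (b.contMDiff (f x)).mdifferentiableAt (by simp)
      have hfd : MDifferentiableAt (𝓡 d) (𝓡 m) f x := (hf x).mdifferentiableAt (by simp)
      have h1 := (hbd.hasMFDerivAt.comp x hfd.hasMFDerivAt).mfderiv
      have h2 := congrArg (fun L => L v) h1
      refine Eq.trans h2 ?_
      change (mfderiv (𝓡 m) 𝓘(ℝ, ℝ) b (f x)) (mfderiv (𝓡 d) (𝓡 m) f x v) = 0
      rw [hv, map_zero]
    rw [hb0, mul_zero, zero_add]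
    by_cases hxt : f x ∈ tsupport b
    · have h3 : x ∈ D ∩ f ⁻¹' (tsupport b) := ⟨hx, hxt⟩
      have : dd (d := d) (fun x => ψ x) x v = 0 := by
        rcases hDV h3 with h | h
        · exact dd_eventually_const (e1 x ⟨h3, fun h2 => (Set.disjoint_left.1 hdis) h h2⟩) v
        · exact dd_eventually_const (e0 x ⟨h3, fun h2 => (Set.disjoint_left.1 hdis) h2 h⟩) v
      rw [this, mul_zero]
    · have : b (f x) = 0 := by
        by_contra h
        exact hxt (subset_tsupport _ h)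
      rw [this, zero_mul]

end

end Pool.Agent.Y501.SY
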