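import Pool.Agent.Y501.SY.Glue

/-!
The main theorem, assuming the statements of the steps.
-/

set_option autoImplicit false

open Set Filter Topology MeasureTheory
open scoped Manifold ContDiff

noncomputable section

namespace Pool.Agent.Y501.SY

theorem compact_comp {Y : Type} [TopologicalSpace Y] {F : Set Y} (hF : IsCompact F)
    {z : Y} (hz : z ∈ F) : IsCompact (connectedComponentIn F z) := by
  have : CompactSpace ↥F := isCompact_iff_compactSpace.1 hF
  rw [connectedComponentIn_eq_image hz]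
  exact isClosed_connectedComponent.isCompact.image continuous_subtype_val

section

variable {d : ℕ} {X : Type} [TopologicalSpace X] [ChartedSpace (E d) X]
  [IsManifold (𝓡 d) ∞ X]

theorem main (hG : S_GEN) (hP : S_PERT) (hN : S_NULL) (hL : S_LOCAL) (hPl : S_PLANAR)
    [CompactSpace X] [T2Space X] {J : End d X} (hJ : IsAlmostComplex J)
    {m : ℕ} {Y : Type} [TopologicalSpace Y]
    [ChartedSpace (E m) Y] [IsManifold (𝓡 m) ∞ Y] [T2Space Y] {f : X → Y}
    (hf : ContMDiff (𝓡 d) (𝓡 m) ∞ f) {σ : Form d X 2} (hσ : IsSmooth σ)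
    (hσc : IsClosedForm σ)
    (hpos : ∀ (x : X) (v : TangentSpace (𝓡 d) x), 0 ≤ σ x ![v, J x v])
    (hker : ∀ (x : X) (v : TangentSpace (𝓡 d) x), σ x ![v, J x v] = 0 →
      mfderiv (𝓡 d) (𝓡 m) f x v = 0)
    (hcomp : ∀ z : X, ¬ TamesAt σ J z →
      PlanarNull d (connectedComponentIn ({x | ¬ TamesAt σ J x} ∩ f ⁻¹' {f z}) z)) :
    ∃ (σ' : Form d X 2) (α : Form d X 1), IsSmooth σ' ∧ IsClosedForm σ' ∧
      (∀ x, TamesAt σ' J x) ∧ IsSmooth α ∧ IsD α (σ' - σ) := by
  have hDc : IsClosed {x | ¬ TamesAt σ J x} := by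
    rw [← isOpen_compl_iff, isOpen_iff_eventually]
    intro x hx
    have hx' : TamesAt σ J x := by
      by_contra h; exact hx h
    filter_upwards [TamesAt.nhds hP hJ hσ hx'] with y hy h
    exact h hy
  have hD : IsCompact {x | ¬ TamesAt σ J x} := hDc.isCompact
  obtain ⟨α, η, hpair, hη⟩ := glue hJ σ hD
    (by
      intro x v hv h0 ht
      have := ht v hv
      rw [h0] at this
      exact lt_irrefl _ this)
    (by
      intro z hz
      have hF : IsCompact ({x | ¬ TamesAt σ J x} ∩ f ⁻¹' {f z}) :=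
        hD.inter_right (isClosed_singleton.preimage hf.continuous)
      obtain ⟨α, η, hpair, hη⟩ := cover hG hP hL hPl hJ
        (compact_comp hF (z := z) ⟨hz, rfl⟩) (hcomp z hz)
      have hU : IsOpen {x | ∀ᶠ y in 𝓝 x, TamesAt η J y} := isOpen_setOf_eventually_nhds
      obtain ⟨u, hu, hu0, huz, huU, hud⟩ := sepfun hf hD hz hU
        (fun x hx => TamesAt.nhds hP hJ (hpair.props hG).2.1 (hη x hx))
      refine ⟨u, α, η, hu, fun x hx v hv => hud x hx v (hker x v hv), hu0, huz, hpair, ?_⟩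
      intro x hx hux v hv _
      exact (huU x hx hux).self_of_nhds v hv)
  obtain ⟨hα, hηs, hαη, hηc⟩ := hpair.props hG
  obtain ⟨ε, hε, ht⟩ := unif isCompact_univ
    (fun ε y => ∀ ε' : ℝ, 0 < ε' → ε' ≤ ε → TamesAt (σ + ε' • η) J y)
    (fun ε ε' y hle hp ε'' h0 h1 => hp ε'' h0 (h1.trans hle))
    (fun x _ => hN d X J hJ σ η hσ hηs hpos x (hη x))
  refine ⟨σ + ε • η, ε • α, hσ.add (hηs.smul ε), ?_, fun x => ht x (mem_univ x) ε hε le_rfl,
    hα.smul ε, ?_⟩
  · have h1 := hσc.add (hηc.smul ε) hσ (hηs.smul ε)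
    have h2 : (0 : Form d X 3) + ε • (0 : Form d X 3) = 0 := by rw [smul_zero, add_zero]
    rw [h2] at h1
    exact h1
  · have h1 := hαη.smul ε
    rwa [add_sub_cancel_left]

end

end Pool.Agent.Y501.SY
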