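import Pool.Agent.Y501.SY.Cover3

/-!
The two level theorem, assuming the statements of the steps.
-/

set_option autoImplicit false

open Set Filter Topology MeasureTheory
open scoped Manifold ContDiff

noncomputable section

namespace Pool.Agent.Y501.SY

theorem compact_comp' {Y : Type} [TopologicalSpace Y] {F : Set Y} (hF : IsCompact F)
    {z : Y} (hz : z ∈ F) : IsCompact (connectedComponentIn F z) := by
  have : CompactSpace ↥F := isCompact_iff_compactSpace.1 hF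
  rw [connectedComponentIn_eq_image hz]
  exact isClosed_connectedComponent.isCompact.image continuous_subtype_val

section

variable {d : ℕ} {X : Type} [TopologicalSpace X] [ChartedSpace (E d) X]
  [IsManifold (𝓡 d) ∞ X]

omit [IsManifold (𝓡 d) ∞ X] in
theorem glue3 {J : End d X} (hJ : IsAlmostComplex J) (σ θ : Form d X 2) {D : Set X}
    (hD : IsCompact D)
    (h : ∀ z ∈ D, ∃ (u : X → ℝ) (α : Form d X 1) (η : Form d X 2), SmoothFun (d := d) u ∧
      (∀ x ∈ D, ∀ v : TangentSpace (𝓡 d) x, σ x ![v, J x v] = 0 → θ x ![v, J x v] = 0 →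
        dd u x v = 0) ∧
      (∀ x, 0 ≤ u x) ∧ 0 < u z ∧ Pair α η ∧
      ∀ x ∈ D, u x ≠ 0 → NullPos2 σ θ J η x) :
    ∃ (α : Form d X 1) (η : Form d X 2), Pair α η ∧ ∀ x ∈ D, NullPos2 σ θ J η x := by
  classical
  choose! u α η hu hu0 hun huz hpair hpos using h
  obtain ⟨t, htD, htc⟩ := hD.elim_nhds_subcover (fun z => {y | z ∈ D → 0 < u z y})
    (fun z hz => by
      have := (isOpen_lt continuous_const (hu z hz).continuous).mem_nhds (huz z hz)
      filter_upwards [this] with y hy _ using hy)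
  have h1 : ∀ z : ↥t, ∃ (α' : Form d X 1) (η' : Form d X 2), Pair α' η' ∧
      ∀ x (v w : TangentSpace (𝓡 d) x), η' x ![v, w] = u z x * η z x ![v, w] +
        (dd (u z) x v * α z x ![w] - dd (u z) x w * α z x ![v]) := by
    intro z
    obtain ⟨α', η', h1, _, h3⟩ := (hpair z (htD z z.2)).smulFun (hu z (htD z z.2))
    exact ⟨α', η', h1, h3⟩
  choose α' η' hp' he' using h1
  refine ⟨∑ z, α' z, ∑ z, η' z, Pair.sum _ fun z _ => hp' z, ?_⟩
  intro x hxD v hv hσ hθ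
  have hσ' : σ x ![J x v, J x (J x v)] = 0 := by rw [null_J hJ]; exact hσ
  have hθ' : θ x ![J x v, J x (J x v)] = 0 := by rw [null_J hJ]; exact hθ
  have h2 : ∀ z : ↥t, η' z x ![v, J x v] = u z x * η z x ![v, J x v] := by
    intro z
    rw [he', hu0 z (htD z z.2) x hxD v hσ hθ, hu0 z (htD z z.2) x hxD (J x v) hσ' hθ']
    ring
  have h3 : ∀ z : ↥t, 0 ≤ η' z x ![v, J x v] := by
    intro z
    rw [h2]
    by_cases h : u z x = 0
    · rw [h, zero_mul]
    · exact mul_nonneg (hun z (htD z z.2) x) (hpos z (htD z z.2) x hxD h v hv hσ hθ).le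
  rw [sum_apply2]
  obtain ⟨z, hzt, hz⟩ := mem_iUnion₂.1 (htc hxD)
  have hz' : 0 < u z x := hz (htD z hzt)
  have h4 : 0 < η' ⟨z, hzt⟩ x ![v, J x v] := by
    rw [h2]
    exact mul_pos hz' (hpos z (htD z hzt) x hxD hz'.ne' v hv hσ hθ)
  exact lt_of_lt_of_le h4 (Finset.single_le_sum (f := fun z : ↥t => η' z x ![v, J x v])
    (fun z _ => h3 z) (Finset.mem_univ (⟨z, hzt⟩ : ↥t)))

/-- The points of `F` which have a nonzero vector null for both `σ` and `θ`. -/
def D2 (σ θ : Form d X 2) (J : End d X) (F : Set X) : Set X :=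
  {x | x ∈ F ∧ ∃ v : TangentSpace (𝓡 d) x, v ≠ 0 ∧ σ x ![v, J x v] = 0 ∧ θ x ![v, J x v] = 0}

/-- level two -/
theorem level2 (hG : S_GEN) (hP : S_PERT2) (hPl : S_PLANAR) [CompactSpace X] [T2Space X]
    {J : End d X} (hJ : IsAlmostComplex J) {σ θ : Form d X 2} (hσ : IsSmooth σ)
    (hθ : IsSmooth θ) {F : Set X} (hF : IsClosed F)
    (hthin : ∀ z ∈ D2 σ θ J F, ThinAt2 σ θ J (connectedComponentIn (D2 σ θ J F) z) z) :
    ∃ (α : Form d X 1) (η : Form d X 2), Pair α η ∧ ∀ x ∈ F, NullPos2 σ θ J η x := by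
  have hopen : IsOpen {x : X | NullPos2 σ θ J 0 x} := by
    rw [isOpen_iff_eventually]
    intro x hx
    exact NullPos2.nhds hP hJ hσ hθ IsSmooth.zero hx
  have hDeq : D2 σ θ J F = F ∩ {x : X | NullPos2 σ θ J 0 x}ᶜ := by
    ext x
    constructor
    · rintro ⟨hx, v, hv, h1, h2⟩
      refine ⟨hx, fun h => ?_⟩
      have := h v hv h1 h2
      exact lt_irrefl _ this
    · rintro ⟨hx, h⟩
      refine ⟨hx, ?_⟩
      by_contra hne
      push Not at hne
      exact h fun v hv h1 h2 => absurd h2 (hne v hv h1)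
  have hDc : IsClosed (D2 σ θ J F) := by
    rw [hDeq]; exact hF.inter hopen.isClosed_compl
  have hD : IsCompact (D2 σ θ J F) := hDc.isCompact
  obtain ⟨α, η, hpair, hη⟩ := glue3 hJ σ θ hD
    (by
      intro z hz
      obtain ⟨α, η, hpair, hη⟩ := cover3 hG hP hPl hJ hσ hθ
        (compact_comp' hD hz) (by
          intro w hw
          have hwF := connectedComponentIn_subset _ _ hw
          rw [connectedComponentIn_eq hw]
          exact hthin w hwF)
      have hU : IsOpen {x | ∀ᶠ y in 𝓝 x, NullPos2 σ θ J η y} := isOpen_setOfPred_eventually_nhds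
      have hcc : connectedComponentIn (D2 σ θ J F ∩ (fun _ : X => (0 : E 0)) ⁻¹' {0}) z ⊆
          {x | ∀ᶠ y in 𝓝 x, NullPos2 σ θ J η y} := by
        have : (fun _ : X => (0 : E 0)) ⁻¹' {0} = univ := by
          ext x; simp
        rw [this, inter_univ]
        intro x hx
        exact NullPos2.nhds hP hJ hσ hθ (hpair.props hG).2.1 (hη x hx)
      obtain ⟨u, hu, hu0, huz, huU, hud⟩ := sepfun (d := d) (m := 0) (Y := E 0) (f := fun _ : X => (0 : E 0))
        contMDiff_const hD hz hU hcc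
      refine ⟨u, α, η, hu, fun x hx v _ _ => hud x hx v ?_, hu0, huz, hpair, ?_⟩
      · rw [mfderiv_const]; rfl
      · intro x hx hux
        exact (huU x hx hux).self_of_nhds)
  refine ⟨α, η, hpair, fun x hx v hv h1 h2 => hη x ⟨hx, v, hv, h1, h2⟩ v hv h1 h2⟩

theorem main3 (hG : S_GEN) (hP : S_PERT2) (hN : S_NULL) (hN2 : S_NULL2) (hPr : S_PROD)
    (hPl : S_PLANAR)
    [CompactSpace X] [T2Space X] {J : End d X} (hJ : IsAlmostComplex J)
    {m : ℕ} {Y : Type} [TopologicalSpace Y]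
    [ChartedSpace (E m) Y] [IsManifold (𝓡 m) ∞ Y] [T2Space Y] [SigmaCompactSpace Y] {f : X → Y}
    (hf : ContMDiff (𝓡 d) (𝓡 m) ∞ f) {σ ζ : Form d X 2} (hσ : IsSmooth σ)
    (hσc : IsClosedForm σ) (hζ : IsSmooth ζ) (hζc : IsClosedForm ζ)
    (hpos : ∀ (x : X) (v : TangentSpace (𝓡 d) x), 0 ≤ σ x ![v, J x v])
    (hker : ∀ (x : X) (v : TangentSpace (𝓡 d) x), σ x ![v, J x v] = 0 →
      mfderiv (𝓡 d) (𝓡 m) f x v = 0)
    (hfib : ∀ y : Y, ∃ (β : Form d X 1) (ρ : Form d X 2), IsSmooth β ∧ IsSmooth ρ ∧ IsD β ρ ∧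
      (∀ x ∈ f ⁻¹' {y}, ∀ v : TangentSpace (𝓡 d) x, σ x ![v, J x v] = 0 →
        0 ≤ (ζ + ρ) x ![v, J x v]) ∧
      ∀ z ∈ D2 σ (ζ + ρ) J (f ⁻¹' {y}),
        ThinAt2 σ (ζ + ρ) J (connectedComponentIn (D2 σ (ζ + ρ) J (f ⁻¹' {y})) z) z) :
    ∃ (α : Form d X 1) (ρ : Form d X 2), IsSmooth α ∧ IsSmooth ρ ∧ IsD α ρ ∧
      ∃ t₀ : ℝ, 0 < t₀ ∧ ∀ t : ℝ, 0 < t → t ≤ t₀ →
        IsSmooth (σ + t • (ζ + ρ)) ∧ IsClosedForm (σ + t • (ζ + ρ)) ∧
        ∀ x, TamesAt (σ + t • (ζ + ρ)) J x := by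
  classical
  -- the fibre forms
  have hlev : ∀ y : Y, ∃ (γ : Form d X 1) (ρ : Form d X 2), IsSmooth γ ∧ IsSmooth ρ ∧ IsD γ ρ ∧
      IsClosedForm ρ ∧ ∀ x ∈ f ⁻¹' {y}, NullPos2 σ 0 J (ζ + ρ) x := by
    intro y
    obtain ⟨β, ρ, hβ, hρ, hβρ, hpos2, hthin⟩ := hfib y
    have hF : IsClosed (f ⁻¹' {y}) := isClosed_singleton.preimage hf.continuous
    have hθ : IsSmooth (ζ + ρ) := hζ.add hρ
    have hρc : IsClosedForm ρ := by
      have h1 := (hPr d X (fun _ => 1) β ρ (SmoothFun.const 1) hβ hρ hβρ).2.2.2.1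
      have h2 : prodD (fun _ : X => (1 : ℝ)) β ρ = ρ := by
        funext x
        ext m
        have h3 := (hPr d X (fun _ => 1) β ρ (SmoothFun.const 1) hβ hρ hβρ).2.2.2.2 x (m 0) (m 1)
        have h4 : ![m 0, m 1] = m := by
          funext i; fin_cases i <;> rfl
        have h6 : ∀ w : TangentSpace (𝓡 d) x, dd (d := d) (fun _ : X => (1 : ℝ)) x w = 0 := by
          intro w
          unfold dd
          rw [mfderiv_const]; rfl
        rw [h6, h6, h4] at h3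
        rw [h3]; ring
      rwa [h2] at h1
    obtain ⟨α, η, hpair, hη⟩ := level2 hG hP hPl hJ hσ hθ hF hthin
    obtain ⟨hα, hηs, hαη, hηc⟩ := hpair.props hG
    obtain ⟨ε, hε, ht⟩ := unif hF.isCompact
      (fun ε x => x ∈ f ⁻¹' {y} → ∀ ε' : ℝ, 0 < ε' → ε' ≤ ε →
        ∀ v : TangentSpace (𝓡 d) x, v ≠ 0 → σ x ![v, J x v] = 0 →
          0 < ((ζ + ρ) + ε' • η) x ![v, J x v])
      (fun ε ε' y hle hp hy ε'' h0 h1 => hp hy ε'' h0 (h1.trans hle))
      (fun x hx => hN2 d X J hJ σ (ζ + ρ) η hσ hθ hηs (f ⁻¹' {y})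
        (fun x hx v hv => hpos2 x hx v hv) x (hη x hx))
    refine ⟨β + ε • α, ρ + ε • η, hβ.add (hα.smul ε), hρ.add (hηs.smul ε),
      hβρ.add (hαη.smul ε) hβ (hα.smul ε), ?_, ?_⟩
    · have h1 := hρc.add (hηc.smul ε) hρ (hηs.smul ε)
      have h2 : (0 : Form d X 3) + ε • (0 : Form d X 3) = 0 := by rw [smul_zero, add_zero]
      rw [h2] at h1
      exact h1
    · intro x hx v hv h1 _
      have := ht x hx hx ε hε le_rfl v hv h1
      rw [← add_assoc]
      exact this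
  choose γ ρ hγ hρ hγρ hρc hnull using hlev
  -- neighbourhoods
  have hV : ∀ y : Y, ∃ V : Set Y, IsOpen V ∧ y ∈ V ∧
      ∀ x, f x ∈ V → NullPos2 σ 0 J (ζ + ρ y) x := by
    intro y
    have hU : IsOpen {x : X | NullPos2 σ 0 J (ζ + ρ y) x} := by
      rw [isOpen_iff_eventually]
      intro x hx
      exact NullPos2.nhds hP hJ hσ IsSmooth.zero (hζ.add (hρ y)) hx
    have hK : IsCompact (f '' {x : X | NullPos2 σ 0 J (ζ + ρ y) x}ᶜ) :=
      hU.isClosed_compl.isCompact.image hf.continuous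
    refine ⟨(f '' {x : X | NullPos2 σ 0 J (ζ + ρ y) x}ᶜ)ᶜ, hK.isClosed.isOpen_compl, ?_, ?_⟩
    · rintro ⟨x, hx, hxy⟩
      exact hx (hnull y x hxy)
    · intro x hx
      by_contra hne
      exact hx ⟨x, hne, rfl⟩
  choose V hVo hyV hVn using hV
  have hR : IsCompact (range f) := isCompact_range hf.continuous
  obtain ⟨t, htc⟩ := hR.elim_finite_subcover V hVo (fun y _ => mem_iUnion.2 ⟨y, hyV y⟩)
  obtain ⟨r, hr⟩ := SmoothPartitionOfUnity.exists_isSubordinate (𝓡 m) hR.isClosed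
    (fun y : ↥t => V y) (fun y => hVo y) (by
      intro x hx
      obtain ⟨y, hy, hxy⟩ := mem_iUnion₂.1 (htc hx)
      exact mem_iUnion.2 ⟨⟨y, hy⟩, hxy⟩)
  have hrs : ∀ y : ↥t, SmoothFun (d := d) (fun x => r y (f x)) := fun y =>
    (r y).contMDiff.comp hf
  have hsum : ∀ x : X, ∑ y : ↥t, r y (f x) = 1 := by
    intro x
    rw [← finsum_eq_sum_of_fintype]
    exact r.sum_eq_one (mem_range_self x)
  have hP1 := fun y : ↥t => hPr d X (fun x => r y (f x)) (γ y) (ρ y) (hrs y) (hγ y) (hρ y) (hγρ y)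
  let α : Form d X 1 := ∑ y : ↥t, (fun x => r y (f x) • γ y x : Form d X 1)
  let η : Form d X 2 := ∑ y : ↥t, prodD (fun x => r y (f x)) (γ y) (ρ y)
  have hαs : IsSmooth α := IsSmooth.sum _ fun y _ => (hP1 y).1
  have hηs : IsSmooth η := IsSmooth.sum _ fun y _ => (hP1 y).2.1
  have hdsum : ∀ s : Finset ↥t, IsD (∑ y ∈ s, (fun x => r y (f x) • γ y x : Form d X 1))
      (∑ y ∈ s, prodD (fun x => r y (f x)) (γ y) (ρ y)) ∧
      IsClosedForm (∑ y ∈ s, prodD (fun x => r y (f x)) (γ y) (ρ y)) := by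
    intro s
    induction s using Finset.induction_on with
    | empty =>
      rw [Finset.sum_empty, Finset.sum_empty]
      exact ⟨IsD.zero, IsD.zero⟩
    | insert a s ha ih =>
      rw [Finset.sum_insert ha, Finset.sum_insert ha]
      refine ⟨(hP1 a).2.2.1.add ih.1 (hP1 a).1 (IsSmooth.sum _ fun y _ => (hP1 y).1), ?_⟩
      have h1 := (hP1 a).2.2.2.1.add ih.2 (hP1 a).2.1 (IsSmooth.sum _ fun y _ => (hP1 y).2.1)
      rwa [add_zero] at h1
  have hαη : IsD α η := (hdsum Finset.univ).1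
  have hηc : IsClosedForm η := (hdsum Finset.univ).2
  have hfin : ∀ (x : X) (v : TangentSpace (𝓡 d) x), v ≠ 0 → σ x ![v, J x v] = 0 →
      0 < (ζ + η) x ![v, J x v] := by
    intro x v hv h0
    have h0' : σ x ![J x v, J x (J x v)] = 0 := by rw [null_J hJ]; exact h0
    have hdu : ∀ (y : ↥t) (w : TangentSpace (𝓡 d) x), mfderiv (𝓡 d) (𝓡 m) f x w = 0 →
        dd (d := d) (fun x => r y (f x)) x w = 0 := by
      intro y w hw
      have hbd : MDifferentiableAt (𝓡 m) 𝓘(ℝ, ℝ) (r y) (f x) :=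
        ((r y).contMDiff (f x)).mdifferentiableAt (by simp)
      have hfd : MDifferentiableAt (𝓡 d) (𝓡 m) f x := (hf x).mdifferentiableAt (by simp)
      have h1 := (hbd.hasMFDerivAt.comp x hfd.hasMFDerivAt).mfderiv
      have h2 := congrArg (fun L => L w) h1
      refine Eq.trans h2 ?_
      change (mfderiv (𝓡 m) 𝓘(ℝ, ℝ) (r y) (f x)) (mfderiv (𝓡 d) (𝓡 m) f x w) = 0
      rw [hw, map_zero]
    have h1 : (ζ + η) x ![v, J x v] = ∑ y : ↥t, r y (f x) * (ζ + ρ y) x ![v, J x v] := by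
      have e1 : (ζ + η) x ![v, J x v] = ζ x ![v, J x v] + η x ![v, J x v] := rfl
      have e2 : η x ![v, J x v] = ∑ y : ↥t, r y (f x) * ρ y x ![v, J x v] := by
        change (∑ y : ↥t, prodD (fun x => r y (f x)) (γ y) (ρ y)) x ![v, J x v] = _
        rw [sum_apply2]
        refine Finset.sum_congr rfl fun y _ => ?_
        rw [(hP1 y).2.2.2.2, hdu y v (hker x v h0), hdu y (J x v) (hker x _ h0')]
        ring
      have e3 : ζ x ![v, J x v] = ∑ y : ↥t, r y (f x) * ζ x ![v, J x v] := by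
        rw [← Finset.sum_mul, hsum, one_mul]
      rw [e1, e2]
      nth_rewrite 1 [e3]
      rw [← Finset.sum_add_distrib]
      refine Finset.sum_congr rfl fun y _ => ?_
      have e4 : (ζ + ρ y) x ![v, J x v] = ζ x ![v, J x v] + ρ y x ![v, J x v] := rfl
      rw [e4]; ring
    rw [h1]
    have h2 : ∀ y : ↥t, r y (f x) ≠ 0 → 0 < (ζ + ρ y) x ![v, J x v] := by
      intro y hy
      have h3 : f x ∈ V y := hr y (subset_tsupport _ hy)
      exact hVn y x h3 v hv h0 rfl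
    have h3 : ∀ y : ↥t, 0 ≤ r y (f x) * (ζ + ρ y) x ![v, J x v] := by
      intro y
      by_cases h : r y (f x) = 0
      · rw [h, zero_mul]
      · exact mul_nonneg (r.nonneg y _) (h2 y h).le
    obtain ⟨y, hy⟩ : ∃ y : ↥t, 0 < r y (f x) := r.exists_pos_of_mem (mem_range_self x)
    exact lt_of_lt_of_le (mul_pos hy (h2 y hy.ne'))
      (Finset.single_le_sum (f := fun y : ↥t => r y (f x) * (ζ + ρ y) x ![v, J x v])
        (fun y _ => h3 y) (Finset.mem_univ y))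
  obtain ⟨t₀, ht₀, ht⟩ := unif isCompact_univ
    (fun ε y => ∀ ε' : ℝ, 0 < ε' → ε' ≤ ε → TamesAt (σ + ε' • (ζ + η)) J y)
    (fun ε ε' y hle hp ε'' h0 h1 => hp ε'' h0 (h1.trans hle))
    (fun x _ => hN d X J hJ σ (ζ + η) hσ (hζ.add hηs) hpos x (hfin x))
  have hcl : IsClosedForm (ζ + η) := by
    have h1 := hζc.add hηc hζ hηs
    rwa [add_zero] at h1
  refine ⟨α, η, hαs, hηs, hαη, t₀, ht₀, fun t h0 h1 => ⟨hσ.add ((hζ.add hηs).smul t), ?_,
    fun x => ht x (mem_univ x) t h0 h1⟩⟩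
  have h1 := hσc.add (hcl.smul t) hσ ((hζ.add hηs).smul t)
  have h2 : (0 : Form d X 3) + t • (0 : Form d X 3) = 0 := by rw [smul_zero, add_zero]
  rw [h2] at h1
  exact h1

end

end Pool.Agent.Y501.SY
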