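import Mathlib

/-!
Differential forms and almost complex structures on manifolds modelled on a normed space `V`:
the definitions used in the statements of the results.
-/

set_option autoImplicit false

open Set Filter Topology MeasureTheory
open scoped Manifold ContDiff

noncomputable section

namespace Pool.Agent.Y501.SYP

/-- Euclidean space of dimension `d` -/
def ES (d : ℕ) : Type := EuclideanSpace ℝ (Fin d)

instance instNormedES (d : ℕ) : NormedAddCommGroup (ES d) :=
  (PiLp.normedAddCommGroup 2 (fun _ : Fin d => ℝ) :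
    NormedAddCommGroup (EuclideanSpace ℝ (Fin d)))

instance instSpaceES (d : ℕ) : NormedSpace ℝ (ES d) :=
  (PiLp.normedSpace 2 ℝ (fun _ : Fin d => ℝ) : NormedSpace ℝ (EuclideanSpace ℝ (Fin d)))

instance instMeasES (d : ℕ) : MeasurableSpace (ES d) :=
  (WithLp.measurableSpace 2 (Fin d → ℝ) : MeasurableSpace (EuclideanSpace ℝ (Fin d)))

theorem borelES (d : ℕ) : BorelSpace (ES d) :=
  (inferInstance : BorelSpace (EuclideanSpace ℝ (Fin d)))

attribute [instance] borelES

section forms

variable {V : Type} [NormedAddCommGroup V] [NormedSpace ℝ V]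
  {X : Type} [TopologicalSpace X] [ChartedSpace V X]

variable (V X) in
/-- A `k`-form on `X`, without any regularity. -/
abbrev Form (k : ℕ) : Type := (x : X) → (TangentSpace 𝓘(ℝ, V) x) [⋀^Fin k]→L[ℝ] ℝ

variable (V X) in
/-- an endomorphism of the tangent bundle -/
abbrev End : Type := (x : X) → TangentSpace 𝓘(ℝ, V) x →L[ℝ] TangentSpace 𝓘(ℝ, V) x

/-- The pull-back of a form to the model space. -/
def pb {k : ℕ} (φ : V → X) (σ : Form V X k) (p : V) : V [⋀^Fin k]→L[ℝ] ℝ :=
  (σ (φ p)).compContinuousLinearMap (mfderiv 𝓘(ℝ, V) 𝓘(ℝ, V) φ p)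

/-- `φ` is smooth on the open set `U`. -/
def SmoothParam (U : Set V) (φ : V → X) : Prop :=
  IsOpen U ∧ ContMDiffOn 𝓘(ℝ, V) 𝓘(ℝ, V) ∞ φ U

/-- A form is smooth if its pull-back by every smooth map from an open subset of the model space
is smooth. -/
def IsSmooth {k : ℕ} (σ : Form V X k) : Prop :=
  ∀ (U : Set V) (φ : V → X), SmoothParam U φ → ContDiffOn ℝ ∞ (pb φ σ) U

/-- `η` is the exterior derivative of `α`. -/
def IsD {k : ℕ} (α : Form V X k) (η : Form V X (k + 1)) : Prop :=
  ∀ (U : Set V) (φ : V → X), SmoothParam U φ → ∀ p ∈ U, extDeriv (pb φ α) p = pb φ η p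

/-- closed forms -/
def IsClosedForm {k : ℕ} (σ : Form V X k) : Prop :=
  ∀ (U : Set V) (φ : V → X), SmoothParam U φ → ∀ p ∈ U, extDeriv (pb φ σ) p = 0

/-- An endomorphism of the tangent bundle in the chart at `x₀`. -/
def inChart (J : End V X) (x₀ : X) (p v : V) : V :=
  mfderiv 𝓘(ℝ, V) 𝓘(ℝ, V) (chartAt V x₀) ((chartAt V x₀).symm p)
    (J ((chartAt V x₀).symm p) (mfderiv 𝓘(ℝ, V) 𝓘(ℝ, V) (chartAt V x₀).symm p v))

/-- continuous almost complex structures (in finite dimension) -/
structure IsAlmostComplex (J : End V X) : Prop where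
  sq : ∀ (x : X) (v : TangentSpace 𝓘(ℝ, V) x), J x (J x v) = -v
  cont : ∀ (x₀ : X) (v : V), ContinuousOn (fun p => inChart J x₀ p v) (chartAt V x₀).target

/-- the number `σ(v, J v)` -/
def qd (σ : Form V X 2) (J : End V X) (x : X) (v : TangentSpace 𝓘(ℝ, V) x) : ℝ :=
  σ x ![v, J x v]

/-- `σ` tames `J` at `x`. -/
def TamesAt (σ : Form V X 2) (J : End V X) (x : X) : Prop :=
  ∀ v : TangentSpace 𝓘(ℝ, V) x, v ≠ 0 → 0 < qd σ J x v

/-- `σ` is a symplectic form: smooth, closed and nondegenerate; and it tames `J`. -/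
structure IsTamingSymplectic (σ : Form V X 2) (J : End V X) : Prop where
  smooth : IsSmooth σ
  closed : IsClosedForm σ
  nondeg : ∀ (x : X) (v : TangentSpace 𝓘(ℝ, V) x), (∀ w, σ x ![v, w] = 0) → v = 0
  tames : ∀ x, TamesAt σ J x

/-- the form `σ + t θ` -/
def comb (σ : Form V X 2) (t : ℝ) (θ : Form V X 2) : Form V X 2 := fun x => σ x + t • θ x

/-- smooth real functions -/
def SmoothFun (f : X → ℝ) : Prop := ContMDiff 𝓘(ℝ, V) 𝓘(ℝ, ℝ) ∞ f

/-- the differential of a real function -/
def dd (f : X → ℝ) (x : X) (v : TangentSpace 𝓘(ℝ, V) x) : ℝ := mfderiv 𝓘(ℝ, V) 𝓘(ℝ, ℝ) f x v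

/-- The tangent vectors at `z` annihilated by the differentials of all smooth functions which
vanish on `C`. -/
def ZT (C : Set X) (z : X) (v : TangentSpace 𝓘(ℝ, V) z) : Prop :=
  ∀ g : X → ℝ, SmoothFun (V := V) g → (∀ x ∈ C, g x = 0) → dd g z v = 0

/-- A pair of smooth functions `(a, b)` mapping a neighbourhood of `z` in `C` onto a Lebesgue null
set of the plane. -/
structure NullPair (C : Set X) (z : X) (a b : X → ℝ) : Prop where
  smooth_a : SmoothFun (V := V) a
  smooth_b : SmoothFun (V := V) b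
  null : ∃ N ∈ 𝓝 z, volume ((fun x => (a x, b x)) '' (C ∩ N)) = 0

/-- `C` is thin at `z` relative to a set `P` of tangent vectors at `z`: there are finitely many
pairs `(a, b)` of smooth functions mapping a neighbourhood of `z` in `C` onto Lebesgue null sets
of the plane, such that the sum of the forms `da ∧ db` is positive on `(v, J v)` for all nonzero
`v` in `P`. -/
def ThinAt (J : End V X) (C : Set X) (z : X) (P : TangentSpace 𝓘(ℝ, V) z → Prop) : Prop :=
  ∃ (n : ℕ) (a b : Fin n → X → ℝ), (∀ i, NullPair (V := V) C z (a i) (b i)) ∧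
    ∀ v : TangentSpace 𝓘(ℝ, V) z, v ≠ 0 → P v →
      0 < ∑ i, (dd (a i) z v * dd (b i) z (J z v) - dd (a i) z (J z v) * dd (b i) z v)

/-- `C` is small at `z`: it has two-dimensional Hausdorff measure zero near `z`, or its
tangent space at `z` (the vectors annihilated by the differentials of all smooth functions
vanishing on `C`) contains no `J`-complex line, or it is thin at `z`. -/
def SmallAt [MeasurableSpace V] [BorelSpace V] (J : End V X) (C : Set X) (z : X)
    (P : TangentSpace 𝓘(ℝ, V) z → Prop) : Prop :=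
  (∃ N ∈ 𝓝 z, μH[2] (chartAt V z '' (C ∩ N ∩ (chartAt V z).source)) = 0) ∨
  (∀ v : TangentSpace 𝓘(ℝ, V) z, ZT C z v → ZT C z (J z v) → v = 0) ∨
  ThinAt J C z P

/-- the sum of two forms -/
def addF (ζ ρ : Form V X 2) : Form V X 2 := fun x => ζ x + ρ x

/-- the vectors which are null for both `σ` and `θ` -/
def Null (σ θ : Form V X 2) (J : End V X) (x : X) (v : TangentSpace 𝓘(ℝ, V) x) : Prop :=
  qd σ J x v = 0 ∧ qd θ J x v = 0

/-- the points of `F` with a nonzero vector which is null for both `σ` and `θ` -/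
def Exc (σ θ : Form V X 2) (J : End V X) (F : Set X) : Set X :=
  {x | x ∈ F ∧ ∃ v : TangentSpace 𝓘(ℝ, V) x, v ≠ 0 ∧ Null σ θ J x v}

/-- For some smooth one-form `β` the form `θ = ζ + dβ` is nonnegative on the null vectors of `σ`
over `F`, and the components of the set of points of `F` with a nonzero vector which is null for
both `σ` and `θ` are small at all their points. -/
def GoodFibre [MeasurableSpace V] [BorelSpace V] (σ ζ : Form V X 2) (J : End V X) (F : Set X) :
    Prop :=
  ∃ (β : Form V X 1) (ρ : Form V X 2), IsSmooth β ∧ IsSmooth ρ ∧ IsD β ρ ∧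
    (∀ x ∈ F, ∀ v : TangentSpace 𝓘(ℝ, V) x, qd σ J x v = 0 → 0 ≤ qd (addF ζ ρ) J x v) ∧
    ∀ z ∈ Exc σ (addF ζ ρ) J F,
      SmallAt J (connectedComponentIn (Exc σ (addF ζ ρ) J F) z) z (Null σ (addF ζ ρ) J z)

end forms

end Pool.Agent.Y501.SYP
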