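import Pool.Agent.Y501.SY.Pub

/-!
Families of two-forms and almost complex structures: the definitions used in the statement of the
result on families.
-/

set_option autoImplicit false

open Set Filter Topology MeasureTheory
open scoped Manifold ContDiff

noncomputable section

namespace Pool.Agent.Y501.SYP

section

variable {P : Type} [TopologicalSpace P] {V : Type} [NormedAddCommGroup V] [NormedSpace ℝ V]
  {X : Type} [TopologicalSpace X] [ChartedSpace V X]

/-- jointly continuous families of two-forms, in charts -/
def ContFamForm (σ : P → Form V X 2) : Prop := ∀ x₀ : X,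
  ContinuousOn (fun q : P × V => pb (chartAt V x₀).symm (σ q.1) q.2)
    (univ ×ˢ (chartAt V x₀).target)

/-- jointly continuous families of endomorphisms, in charts (in finite dimension) -/
def ContFamEnd (J : P → End V X) : Prop := ∀ (x₀ : X) (v : V),
  ContinuousOn (fun q : P × V => inChart (J q.1) x₀ q.2 v) (univ ×ˢ (chartAt V x₀).target)

/-- the points where `σ` does not tame `J` -/
def NotTamed (σ : Form V X 2) (J : End V X) : Set X := {x | ¬ TamesAt σ J x}

/-- The components of the set of points where `σ` does not tame `J` are small at all their
points. -/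
def SmallNotTamed [MeasurableSpace V] [BorelSpace V] (σ : Form V X 2) (J : End V X) : Prop :=
  ∀ x ∈ NotTamed σ J, SmallAt J (connectedComponentIn (NotTamed σ J) x) x
    (fun v => qd σ J x v ≤ 0)

/-- the form `σ + ∑ i, c i • η i` -/
def plusSum {n : ℕ} (σ : Form V X 2) (c : Fin n → ℝ) (η : Fin n → Form V X 2) : Form V X 2 :=
  fun x => σ x + ∑ i, c i • η i x

end

end Pool.Agent.Y501.SYP
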