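import Pool.Agent.Y501.SY.Pub

/-!
Closed two-forms with singularities: the definitions used in the statement of the result on
removable singularities.
-/

set_option autoImplicit false

open Set Filter Topology MeasureTheory
open scoped Manifold ContDiff

noncomputable section

namespace Pool.Agent.Y501.SYP

section forms

variable {V : Type} [NormedAddCommGroup V] [NormedSpace ℝ V]
  {X : Type} [TopologicalSpace X] [ChartedSpace V X]

/-- `σ` is smooth and closed on the complement of `K`. -/
def ClosedOff (σ : Form V X 2) (K : Set X) : Prop :=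
  ∀ (U : Set V) (φ : V → X), SmoothParam U φ → (∀ p ∈ U, φ p ∉ K) →
    ContDiffOn ℝ ∞ (pb φ σ) U ∧ ∀ p ∈ U, extDeriv (pb φ σ) p = 0

/-- `σ` is bounded on the complement of `K` near `x`, in the chart at `x`. -/
def BddNear (σ : Form V X 2) (K : Set X) (x : X) : Prop :=
  ∃ B : ℝ, ∀ᶠ p in 𝓝 (chartAt V x x), (chartAt V x).symm p ∉ K →
    ‖pb (chartAt V x).symm σ p‖ ≤ B

/-- `σ` tames `J` uniformly on the complement of `K` near `x`, in the chart at `x`. -/
def UnifTamesNear (σ : Form V X 2) (J : End V X) (K : Set X) (x : X) : Prop :=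
  ∃ c : ℝ, 0 < c ∧ ∀ᶠ p in 𝓝 (chartAt V x x), (chartAt V x).symm p ∉ K →
    ∀ v : V, c * ‖v‖ ^ 2 ≤ pb (chartAt V x).symm σ p ![v, inChart J x p v]

/-- the points near which `σ` does not tame `J` uniformly on the complement of `K` -/
def Crit (σ : Form V X 2) (J : End V X) (K : Set X) : Set X := {x | ¬ UnifTamesNear σ J K x}

/-- `C` is small at `z` in all directions. -/
def SmallAll [MeasurableSpace V] [BorelSpace V] (J : End V X) (C : Set X) (z : X) : Prop :=
  SmallAt J C z (fun _ => True)

end forms

end Pool.Agent.Y501.SYP
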