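import Pool.Agent.Y501.SY.PubA

/-!
Bounded one-forms on amenable coverings: the definitions used in the statement of the result on
symplectic forms in a prescribed class.
-/

set_option autoImplicit false

open Set Filter Topology MeasureTheory
open scoped Manifold ContDiff

noncomputable section

namespace Pool.Agent.Y501.SYP

section

variable {V : Type} [NormedAddCommGroup V] [NormedSpace ℝ V]
  {Z X : Type} [TopologicalSpace Z] [ChartedSpace V Z]
  [TopologicalSpace X] [ChartedSpace V X]

/-- The translates of the one-form `β` by the group `Γ` are locally uniformly bounded, with all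
their derivatives. -/
def BoundedTranslates1 (Γ : Type) [Group Γ] [MulAction Γ Z] (β : Form V Z 1) : Prop :=
  ∀ (U : Set V) (φ : V → Z), SmoothParam U φ →
    UnifBdd (fun (γ : Γ) => pb (fun p => γ • φ p) β) U

/-- the pull-back of a two-form by `pr` -/
def lift (pr : Z → X) (σ : Form V X 2) : Form V Z 2 := fun z =>
  (σ (pr z)).compContinuousLinearMap (mfderiv 𝓘(ℝ, V) 𝓘(ℝ, V) pr z)

/-- For the tangent vector `v` of `X` at `pr z`, the numbers `(γ^* w)(u, u')`, where `u`, `u'` are
the lifts of `v` and `J v` to `z`, are bounded below by a positive constant, uniformly in `γ`. -/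
def UPos (Γ : Type) [Group Γ] [MulAction Γ Z] (pr : Z → X) (J : End V X) (w : Form V Z 2)
    (z : Z) (v : TangentSpace 𝓘(ℝ, V) (pr z)) : Prop :=
  ∃ u u' : TangentSpace 𝓘(ℝ, V) z, mfderiv 𝓘(ℝ, V) 𝓘(ℝ, V) pr z u = v ∧
    mfderiv 𝓘(ℝ, V) 𝓘(ℝ, V) pr z u' = J (pr z) v ∧
    ∃ c : ℝ, 0 < c ∧ ∀ γ : Γ, c ≤ translate γ w z ![u, u']

/-- the points of `X` over which `w` does not uniformly tame the lift of `J` -/
def NotUnif (Γ : Type) [Group Γ] [MulAction Γ Z] (pr : Z → X) (J : End V X) (w : Form V Z 2) :
    Set X :=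
  {x | ∃ z : Z, pr z = x ∧ ∃ v : TangentSpace 𝓘(ℝ, V) (pr z), v ≠ 0 ∧ ¬ UPos Γ pr J w z v}

/-- The components of the set of points over which `w` does not uniformly tame the lift of `J` are
small at all their points. -/
def SmallNotUnif [MeasurableSpace V] [BorelSpace V] (Γ : Type) [Group Γ] [MulAction Γ Z]
    (pr : Z → X) (J : End V X) (w : Form V Z 2) : Prop :=
  ∀ z : Z, pr z ∈ NotUnif Γ pr J w →
    SmallAt J (connectedComponentIn (NotUnif Γ pr J w) (pr z)) (pr z)
      (fun v => ¬ UPos Γ pr J w z v)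

/-- nondegenerate two-forms -/
def Nondeg (w : Form V X 2) : Prop :=
  ∀ (x : X) (v : TangentSpace 𝓘(ℝ, V) x), (∀ u, w x ![v, u] = 0) → v = 0

/-- the point `(1 - t) τ + t w` of the segment from `τ` to `w` -/
def seg (τ w : Form V X 2) (t : ℝ) : Form V X 2 := fun x => (1 - t) • τ x + t • w x

end

end Pool.Agent.Y501.SYP
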