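import Pool.Agent.Y501.SY.PubT

/-!
Closed two-forms with singularities in a prescribed class: the definitions used in the statement.
-/

set_option autoImplicit false

open Set Filter Topology MeasureTheory
open scoped Manifold ContDiff

noncomputable section

namespace Pool.Agent.Y501.SYP

section forms

variable {V : Type} [NormedAddCommGroup V] [NormedSpace ℝ V]
  {X : Type} [TopologicalSpace X] [ChartedSpace V X]

/-- smooth on the complement of `K` -/
def SmoothOff {k : ℕ} (σ : Form V X k) (K : Set X) : Prop :=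
  ∀ (U : Set V) (φ : V → X), SmoothParam U φ → (∀ p ∈ U, φ p ∉ K) → ContDiffOn ℝ ∞ (pb φ σ) U

/-- `σ = σ₀ + dβ` on the complement of `K` -/
def EqPlusD (σ σ₀ : Form V X 2) (β : Form V X 1) (K : Set X) : Prop :=
  ∀ (U : Set V) (φ : V → X), SmoothParam U φ → (∀ p ∈ U, φ p ∉ K) →
    ∀ p ∈ U, pb φ σ p = pb φ σ₀ p + extDeriv (pb φ β) p

/-- `σ` is bounded on the complement of `K` near `x`, in the chart at `x`. -/
def BddNearK {k : ℕ} (σ : Form V X k) (K : Set X) (x : X) : Prop :=
  ∃ B : ℝ, ∀ᶠ p in 𝓝 (chartAt V x x), (chartAt V x).symm p ∉ K →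
    ‖pb (chartAt V x).symm σ p‖ ≤ B

/-- nondegenerate two-forms -/
def NondegForm (w : Form V X 2) : Prop :=
  ∀ (x : X) (v : TangentSpace 𝓘(ℝ, V) x), (∀ u, w x ![v, u] = 0) → v = 0

/-- the point `(1 - t) τ + t w` of the segment from `τ` to `w` -/
def segment (τ w : Form V X 2) (t : ℝ) : Form V X 2 := fun x => (1 - t) • τ x + t • w x

end forms

end Pool.Agent.Y501.SYP
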