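import Pool.Agent.Y501.SY.Defs

/-!
Statements of the steps.
-/

set_option autoImplicit false

open Set Filter Topology MeasureTheory
open scoped Manifold ContDiff

noncomputable section

namespace Pool.Agent.Y501.SY

/-- Planar lemma: on a compact null set of the plane the area form is the exterior derivative of
an arbitrarily small one-form `P(x) dy - Q(x,y) dx`. -/
def S_PLANAR : Prop := ∀ K : Set (ℝ × ℝ), IsCompact K → volume K = 0 → ∀ ε : ℝ, 0 < ε →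
  ∃ (P : ℝ → ℝ) (Q : ℝ × ℝ → ℝ), ContDiff ℝ ∞ P ∧ ContDiff ℝ ∞ Q ∧ (∀ x, |P x| ≤ ε) ∧
    (∀ z, |Q z| ≤ ε) ∧ ∀ z ∈ K, deriv P z.1 + fderiv ℝ Q z ((0, 1) : ℝ × ℝ) = 1

/-- calculus of `f dg` -/
def S_GEN : Prop := ∀ (d : ℕ) (X : Type) [TopologicalSpace X] [ChartedSpace (E d) X]
  [IsManifold (𝓡 d) ∞ X] (h f g : X → ℝ), SmoothFun (d := d) h → SmoothFun (d := d) f →
  SmoothFun (d := d) g →
  IsSmooth (fdg (d := d) f g) ∧ IsSmooth (hdfdg (d := d) h f g) ∧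
    IsD (fdg (d := d) f g) (dfdg (d := d) f g) ∧ IsClosedForm (dfdg (d := d) f g)

/-- taming is stable under small perturbations -/
def S_PERT : Prop := ∀ (d : ℕ) (X : Type) [TopologicalSpace X] [ChartedSpace (E d) X]
  [IsManifold (𝓡 d) ∞ X] (J : End d X), IsAlmostComplex J →
  ∀ (κ : Type) [Fintype κ] (σ : Form d X 2) (η : κ → Form d X 2), IsSmooth σ →
  (∀ k, IsSmooth (η k)) → ∀ x : X, TamesAt σ J x →
  ∃ ε : ℝ, 0 < ε ∧ ∀ᶠ y in 𝓝 x, ∀ t : κ → ℝ, (∀ k, |t k| ≤ ε) →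
    TamesAt (σ + ∑ k, t k • η k) J y

/-- a weakly taming form plus a small multiple of a form positive on null vectors -/
def S_NULL : Prop := ∀ (d : ℕ) (X : Type) [TopologicalSpace X] [ChartedSpace (E d) X]
  [IsManifold (𝓡 d) ∞ X] (J : End d X), IsAlmostComplex J →
  ∀ (σ η : Form d X 2), IsSmooth σ → IsSmooth η →
  (∀ (x : X) (v : TangentSpace (𝓡 d) x), 0 ≤ σ x ![v, J x v]) → ∀ x : X,
  (∀ v : TangentSpace (𝓡 d) x, v ≠ 0 → σ x ![v, J x v] = 0 → 0 < η x ![v, J x v]) →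
  ∃ ε₀ : ℝ, 0 < ε₀ ∧ ∀ᶠ y in 𝓝 x, ∀ ε : ℝ, 0 < ε → ε ≤ ε₀ → TamesAt (σ + ε • η) J y

/-- an almost complex structure is tamed at each point by an exact form -/
def S_LOCAL : Prop := ∀ (d : ℕ) (X : Type) [TopologicalSpace X] [ChartedSpace (E d) X]
  [IsManifold (𝓡 d) ∞ X] [T2Space X] (J : End d X), IsAlmostComplex J → ∀ z : X,
  ∃ (g : Fin d → X → ℝ) (B : Fin d → Fin d → ℝ), (∀ j, SmoothFun (d := d) (g j)) ∧
    TamesAt (∑ j, ∑ k, B j k • dfdg (g j) (g k)) J z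

/-- sets of two-dimensional Hausdorff measure zero are planar null -/
def S_HAUS : Prop := ∀ (d : ℕ) (X : Type) [TopologicalSpace X] [ChartedSpace (E d) X]
  [IsManifold (𝓡 d) ∞ X] [CompactSpace X] (C : Set X),
  (∀ x : X, μH[2] (chartAt (E d) x '' (C ∩ (chartAt (E d) x).source)) = 0) → PlanarNull d C

/-- the pull-back of a two-form on `Y` by a map `X → Y` -/
def pull {d m : ℕ} {X Y : Type} [TopologicalSpace X] [ChartedSpace (E d) X]
    [TopologicalSpace Y] [ChartedSpace (E m) Y] (f : X → Y) (σ : Form m Y 2) : Form d X 2 :=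
  fun x => ((σ (f x)).compContinuousLinearMap (mfderiv (𝓡 d) (𝓡 m) f x))

/-- the pull-back of a smooth closed form is smooth and closed -/
def S_PULL : Prop := ∀ (d m : ℕ) (X Y : Type) [TopologicalSpace X] [ChartedSpace (E d) X]
  [IsManifold (𝓡 d) ∞ X] [TopologicalSpace Y] [ChartedSpace (E m) Y] [IsManifold (𝓡 m) ∞ Y]
  (f : X → Y) (σ : Form m Y 2), ContMDiff (𝓡 d) (𝓡 m) ∞ f → IsSmooth σ → IsClosedForm σ →
  IsSmooth (pull (d := d) f σ) ∧ IsClosedForm (pull (d := d) f σ)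

end Pool.Agent.Y501.SY
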