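import Pool.Agent.Y501.SY.Stm

/-!
Averaging bounded forms over amenable coverings: definitions and statements of the steps.
-/

set_option autoImplicit false

open Set Filter Topology MeasureTheory
open scoped Manifold ContDiff

noncomputable section

namespace Pool.Agent.Y501.SY

/-- bounded real functions -/
def Bdd {Γ : Type} (F : Γ → ℝ) : Prop := ∃ C : ℝ, ∀ γ, |F γ| ≤ C

/-- A right invariant mean on the bounded functions on a group `Γ` (the values of `m` at unbounded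
functions are irrelevant). -/
structure IsMean {Γ : Type} [Group Γ] (m : (Γ → ℝ) → ℝ) : Prop where
  add : ∀ F G, Bdd F → Bdd G → m (fun γ => F γ + G γ) = m F + m G
  smul : ∀ (c : ℝ) F, Bdd F → m (fun γ => c * F γ) = c * m F
  nonneg : ∀ F, Bdd F → (∀ γ, 0 ≤ F γ) → 0 ≤ m F
  one : m (fun _ => 1) = 1
  inv : ∀ (g : Γ) F, Bdd F → m (fun γ => F (γ * g)) = m F

/-- amenable (discrete) groups -/
def Amenable (Γ : Type) [Group Γ] : Prop := ∃ m : (Γ → ℝ) → ℝ, IsMean m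

/-- A family of functions on `U`, all of whose iterated derivatives are locally uniformly
bounded. -/
def UnifBdd {d : ℕ} {Γ : Type} {V : Type} [NormedAddCommGroup V] [NormedSpace ℝ V]
    (f : Γ → E d → V) (U : Set (E d)) : Prop :=
  (∀ γ, ContDiffOn ℝ ∞ (f γ) U) ∧
  ∀ n : ℕ, ∀ p ∈ U, ∃ N ∈ 𝓝 p, ∃ C : ℝ, ∀ q ∈ N, ∀ γ, ‖iteratedFDeriv ℝ n (f γ) q‖ ≤ C

/-- differentiation under the mean -/
def S_AVG : Prop := ∀ (d : ℕ) (Γ : Type) [Group Γ] (m : (Γ → ℝ) → ℝ), IsMean m →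
  ∀ (U : Set (E d)) (f : Γ → E d → ℝ), IsOpen U → UnifBdd f U →
  ContDiffOn ℝ ∞ (fun p => m (fun γ => f γ p)) U ∧
    ∀ p ∈ U, ∀ v : E d, fderiv ℝ (fun p => m (fun γ => f γ p)) p v =
      m (fun γ => fderiv ℝ (f γ) p v)

section

variable {d : ℕ} {Z : Type} [TopologicalSpace Z] [ChartedSpace (E d) Z]

/-- The translates of the two-form `w` by the group `Γ` are locally uniformly bounded, with all
their derivatives. -/
def BoundedTranslates {Γ : Type} [Group Γ] [MulAction Γ Z] (w : Form d Z 2) : Prop :=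
  ∀ (U : Set (E d)) (φ : E d → Z), IsOpen U → ContMDiffOn (𝓡 d) (𝓡 d) ∞ φ U →
    UnifBdd (fun (γ : Γ) => pb (fun p => γ • φ p) w) U

end

/-- the average of the translates of a form -/
def S_MEAN : Prop := S_AVG → ∀ (d : ℕ) (Z : Type) [TopologicalSpace Z] [ChartedSpace (E d) Z]
  [IsManifold (𝓡 d) ∞ Z] (Γ : Type) [Group Γ] [MulAction Γ Z] (m : (Γ → ℝ) → ℝ), IsMean m →
  (∀ γ : Γ, ContMDiff (𝓡 d) (𝓡 d) ∞ (fun z : Z => γ • z)) →
  ∀ w : Form d Z 2, IsSmooth w → IsClosedForm w → BoundedTranslates (Γ := Γ) w →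
  ∃ w' : Form d Z 2, IsSmooth w' ∧ IsClosedForm w' ∧
    ∀ (z : Z) (u : Fin 2 → TangentSpace (𝓡 d) z),
      Bdd (fun γ : Γ => pull (d := d) (fun z : Z => γ • z) w z u) ∧
      w' z u = m (fun γ : Γ => pull (d := d) (fun z : Z => γ • z) w z u)

/-- invariant closed forms descend -/
def S_DESC : Prop := ∀ (d : ℕ) (Z X : Type) [TopologicalSpace Z] [ChartedSpace (E d) Z]
  [IsManifold (𝓡 d) ∞ Z] [TopologicalSpace X] [ChartedSpace (E d) X]
  [IsManifold (𝓡 d) ∞ X] (Γ : Type) [Group Γ] [MulAction Γ Z] (pr : Z → X),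
  (∀ γ : Γ, ContMDiff (𝓡 d) (𝓡 d) ∞ (fun z : Z => γ • z)) →
  IsLocalDiffeomorph (𝓡 d) (𝓡 d) ∞ pr → Function.Surjective pr →
  (∀ z z' : Z, pr z = pr z' ↔ ∃ γ : Γ, γ • z = z') →
  ∀ w : Form d Z 2, IsSmooth w → IsClosedForm w →
  (∀ γ : Γ, pull (d := d) (fun z : Z => γ • z) w = w) →
  ∃ σ : Form d X 2, IsSmooth σ ∧ IsClosedForm σ ∧ pull (d := d) pr σ = w

end Pool.Agent.Y501.SY
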