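import Pool.Agent.Y501.SY.Thin

/-!
Removable singularities of bounded closed two-forms: statements of the steps.
-/

set_option autoImplicit false

open Set Filter Topology MeasureTheory
open scoped Manifold ContDiff

noncomputable section

namespace Pool.Agent.Y501.SY

/-- small cut-off functions: the compact set `k` has capacity zero -/
def Cap {d : ℕ} (k : Set (E d)) : Prop :=
  ∀ O : Set (E d), IsOpen O → k ⊆ O → ∀ δ : ℝ, 0 < δ → ∃ η : E d → ℝ, ContDiff ℝ ∞ η ∧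
    (∀ x, 0 ≤ η x) ∧ (∀ x, η x ≤ 1) ∧ (∀ᶠ x in 𝓝ˢ k, η x = 1) ∧ (∀ x, x ∉ O → η x = 0) ∧
    HasCompactSupport η ∧ volume (Function.support η) < ENNReal.ofReal δ ∧
    ∫ x, ‖fderiv ℝ η x‖ < δ

/-- compact sets of `(d-1)`-dimensional Hausdorff measure zero have capacity zero -/
def S_CAP : Prop := ∀ (d : ℕ), 1 ≤ d → ∀ (k : Set (E d)), IsCompact k →
  μH[(d : ℝ) - 1] k = 0 → Cap k

/-- `ρ` is a mollifier supported in the ball of radius `ε`. -/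
structure Moll {d : ℕ} (ε : ℝ) (ρ : E d → ℝ) : Prop where
  smooth : ContDiff ℝ ∞ ρ
  nonneg : ∀ y, 0 ≤ ρ y
  supp : ∀ y, ε ≤ ‖y‖ → ρ y = 0
  int : ∫ y, ρ y = 1

/-- mollification -/
def mol {d : ℕ} (ρ : E d → ℝ) (s : E d → (E d) [⋀^Fin 2]→L[ℝ] ℝ) (p : E d) :
    (E d) [⋀^Fin 2]→L[ℝ] ℝ := ∫ y, ρ y • s (p + y)

/-- the homotopy operator of the mollification -/
def hA {d : ℕ} (ρ : E d → ℝ) (s : E d → (E d) [⋀^Fin 2]→L[ℝ] ℝ) (p : E d) :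
    (E d) [⋀^Fin 1]→L[ℝ] ℝ :=
  ∫ y, ρ y • ∫ t in (0 : ℝ)..1, (s (p + t • y)).curryLeft y

/-- the mollification of a bounded form which is closed off a compact set of capacity zero is
smooth and closed -/
def S_MC : Prop := ∀ (d : ℕ) (V k : Set (E d)) (s : E d → (E d) [⋀^Fin 2]→L[ℝ] ℝ)
  (ε B : ℝ) (ρ : E d → ℝ) (W : Set (E d)), IsOpen V → IsCompact k → k ⊆ V → Cap k →
  ContDiffOn ℝ ∞ s (V \ k) → (∀ p ∈ V \ k, extDeriv s p = 0) → (∀ p ∈ V \ k, ‖s p‖ ≤ B) →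
  0 < ε → Moll ε ρ → IsOpen W → (∀ p ∈ W, Metric.closedBall p ε ⊆ V) →
  ContDiffOn ℝ ∞ (mol ρ s) W ∧ ∀ p ∈ W, extDeriv (mol ρ s) p = 0

/-- the homotopy formula for the mollification -/
def S_HT : Prop := ∀ (d : ℕ) (P O : Set (E d)) (s : E d → (E d) [⋀^Fin 2]→L[ℝ] ℝ)
  (ε B : ℝ) (ρ : E d → ℝ), IsOpen P → IsOpen O → ContDiffOn ℝ ∞ s P →
  (∀ p ∈ P, extDeriv s p = 0) → (∀ p ∈ P, ‖s p‖ ≤ B) → 0 < ε → Moll ε ρ →
  (∀ p ∈ O, Metric.closedBall p ε ⊆ P) →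
  ContDiffOn ℝ ∞ (hA ρ s) O ∧ (∀ p ∈ O, extDeriv (hA ρ s) p = mol ρ s p - s p) ∧
    ∀ p ∈ O, ‖hA ρ s p‖ ≤ ε * B

/-- local smoothing of a bounded weakly taming closed form -/
def S_MOLL : Prop := S_MC → S_HT → ∀ (d : ℕ) (V k N : Set (E d))
  (s : E d → (E d) [⋀^Fin 2]→L[ℝ] ℝ) (Js : E d → (E d →L[ℝ] E d)) (B δ : ℝ),
  IsOpen V → IsCompact k → IsOpen N → k ⊆ N → N ⊆ V → Cap k →
  ContDiffOn ℝ ∞ s (V \ k) → (∀ p ∈ V \ k, extDeriv s p = 0) → (∀ p ∈ V \ k, ‖s p‖ ≤ B) →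
  ContinuousOn Js V → (∀ p ∈ V \ k, ∀ v : E d, 0 ≤ s p ![v, Js p v]) → 0 < δ →
  ∃ (s' : E d → (E d) [⋀^Fin 2]→L[ℝ] ℝ) (N' : Set (E d)), IsCompact N' ∧ N' ⊆ N ∧
    ContDiffOn ℝ ∞ s' V ∧ (∀ p ∈ V, extDeriv s' p = 0) ∧ (∀ p ∈ V \ N', s' p = s p) ∧
    ∀ p ∈ V, ∀ v : E d, - δ * ‖v‖ ^ 2 ≤ s' p ![v, Js p v]

section

variable {d : ℕ} {X : Type} [TopologicalSpace X] [ChartedSpace (E d) X]

/-- smooth on the complement of `K` -/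
def SmoothOff {k : ℕ} (σ : Form d X k) (K : Set X) : Prop :=
  ∀ (U : Set (E d)) (φ : E d → X), IsOpen U → ContMDiffOn (𝓡 d) (𝓡 d) ∞ φ U →
    (∀ p ∈ U, φ p ∉ K) → ContDiffOn ℝ ∞ (pb φ σ) U

/-- `η` is the exterior derivative of `α` on the complement of `K` -/
def IsDOff {k : ℕ} (α : Form d X k) (η : Form d X (k + 1)) (K : Set X) : Prop :=
  ∀ (U : Set (E d)) (φ : E d → X), IsOpen U → ContMDiffOn (𝓡 d) (𝓡 d) ∞ φ U →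
    (∀ p ∈ U, φ p ∉ K) → ∀ p ∈ U, extDeriv (pb φ α) p = pb φ η p

/-- the form which is `s'` in the chart at `x₀` on the open set `O` and `σ` elsewhere -/
def patch {k : ℕ} (x₀ : X) (O : Set X) (s' : E d → (E d) [⋀^Fin k]→L[ℝ] ℝ) (σ : Form d X k) :
    Form d X k := fun x =>
  letI := Classical.propDecidable (x ∈ O)
  if x ∈ O then (s' (chartAt (E d) x₀ x)).compContinuousLinearMap
    (mfderiv (𝓡 d) (𝓡 d) (chartAt (E d) x₀) x) else σ x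

end

/-- patching -/
def S_PATCH : Prop := ∀ (d : ℕ) (X : Type) [TopologicalSpace X] [ChartedSpace (E d) X]
  [IsManifold (𝓡 d) ∞ X] [T2Space X] (x₀ : X) (O k K : Set X) (N' : Set (E d))
  (s' : E d → (E d) [⋀^Fin 2]→L[ℝ] ℝ) (σ : Form d X 2), IsOpen O →
  O ⊆ (chartAt (E d) x₀).source → k ⊆ O → IsClosed K → IsCompact N' →
  N' ⊆ chartAt (E d) x₀ '' O → chartAt (E d) x₀ '' k ⊆ N' →
  ContDiffOn ℝ ∞ s' (chartAt (E d) x₀ '' O) →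
  (∀ p ∈ chartAt (E d) x₀ '' O, extDeriv s' p = 0) →
  (∀ p ∈ (chartAt (E d) x₀ '' O) \ N', s' p = pb (chartAt (E d) x₀).symm σ p) →
  SmoothOff σ (k ∪ K) → IsDOff σ 0 (k ∪ K) →
  SmoothOff (patch x₀ O s' σ) K ∧ IsDOff (patch x₀ O s' σ) 0 K ∧
  (∀ x, x ∉ O ∨ chartAt (E d) x₀ x ∉ N' → patch x₀ O s' σ x = σ x) ∧
  ∀ p ∈ chartAt (E d) x₀ '' O, pb (chartAt (E d) x₀).symm (patch x₀ O s' σ) p = s' p

end Pool.Agent.Y501.SY
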