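import Pool.Agent.Y501.SY.StmR

/-!
Removable singularities, general singular sets: statements of the steps.
-/

set_option autoImplicit false

open Set Filter Topology MeasureTheory
open scoped Manifold ContDiff

noncomputable section

namespace Pool.Agent.Y501.SY

/-- smoothness of averages of a bounded measurable function over balls of positive variable
radius -/
def S_KER : Prop := ∀ (d : ℕ) (g χ : E d → ℝ), ContDiff ℝ ∞ g → HasCompactSupport g →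
  ContDiff ℝ ∞ χ → ∀ p₀ : E d, 0 < χ p₀ →
  (∀ f : E d → ℝ, AEStronglyMeasurable f volume → (∃ B : ℝ, ∀ x, |f x| ≤ B) →
    ContDiffAt ℝ ∞ (fun p => ∫ y, g y * f (p + χ p • y)) p₀) ∧
  ∃ C : ℝ, ∀ f : E d → ℝ, AEStronglyMeasurable f volume → (∃ B : ℝ, ∀ x, |f x| ≤ B) →
    Integrable f volume →
    |∫ y, g y * f (p₀ + χ p₀ • y)| ≤ C * ∫ x, |f x| ∧
    ‖fderiv ℝ (fun p => ∫ y, g y * f (p + χ p • y)) p₀‖ ≤ C * ∫ x, |f x|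

/-- differentiation under the integral for jointly smooth functions -/
def S_SM : Prop := ∀ (d : ℕ) (W : Type) [NormedAddCommGroup W] [NormedSpace ℝ W]
  [FiniteDimensional ℝ W] (ρ : E d → ℝ) (F : E d × E d → W) (p₀ : E d) (R : ℝ)
  (Ω : Set (E d × E d)), Continuous ρ → (∀ y, R ≤ ‖y‖ → ρ y = 0) → IsOpen Ω →
  ContDiffOn ℝ ∞ F Ω → (∀ y : E d, ‖y‖ ≤ R → (y, p₀) ∈ Ω) →
  ContDiffAt ℝ ∞ (fun p => ∫ y, ρ y • F (y, p)) p₀ ∧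
  HasFDerivAt (fun p => ∫ y, ρ y • F (y, p)) (∫ y, ρ y • fderiv ℝ (fun p => F (y, p)) p₀) p₀

/-- regularization of a bounded closed form near the support of `χ` by means of the maps
`p ↦ p + χ(p) y` -/
def S_RG : Prop := S_KER → S_SM → ∀ (d : ℕ) (V k : Set (E d)) (χ : E d → ℝ)
  (s : E d → (E d) [⋀^Fin 2]→L[ℝ] ℝ) (Js : E d → (E d →L[ℝ] E d)) (B δ₀ δ : ℝ),
  IsOpen V → k ⊆ V → IsOpen (V \ k) → (∀ Q : Set (E d), IsCompact Q → Q ⊆ V → Cap (k ∩ Q)) →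
  ContDiff ℝ ∞ χ → (∀ p, 0 ≤ χ p) → HasCompactSupport χ → tsupport χ ⊆ V →
  ContDiffOn ℝ ∞ s (V \ k) → (∀ p ∈ V \ k, extDeriv s p = 0) → (∀ p ∈ V \ k, ‖s p‖ ≤ B) →
  ContinuousOn Js V → 0 ≤ δ₀ → δ₀ < δ →
  (∀ p ∈ V \ k, ∀ v : E d, - δ₀ * ‖v‖ ^ 2 ≤ s p ![v, Js p v]) →
  ∃ (s' : E d → (E d) [⋀^Fin 2]→L[ℝ] ℝ) (B' : ℝ),
    ContDiffOn ℝ ∞ s' (V \ (k ∩ {p | χ p = 0})) ∧
    (∀ p ∈ V \ (k ∩ {p | χ p = 0}), extDeriv s' p = 0) ∧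
    (∀ p ∈ V \ (k ∩ {p | χ p = 0}), ‖s' p‖ ≤ B') ∧
    (∀ p, χ p = 0 → s' p = s p) ∧
    ∀ p ∈ V \ (k ∩ {p | χ p = 0}), ∀ v : E d, - δ * ‖v‖ ^ 2 ≤ s' p ![v, Js p v]

/-- patching, general version -/
def S_PATCH2 : Prop := ∀ (d : ℕ) (X : Type) [TopologicalSpace X] [ChartedSpace (E d) X]
  [IsManifold (𝓡 d) ∞ X] [T2Space X] (x₀ : X) (O K K' : Set X) (N' : Set (E d))
  (s' : E d → (E d) [⋀^Fin 2]→L[ℝ] ℝ) (σ : Form d X 2), IsOpen O →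
  O ⊆ (chartAt (E d) x₀).source → IsClosed K' → K' ⊆ K → IsCompact N' →
  N' ⊆ chartAt (E d) x₀ '' O → (∀ x ∈ K, x ∉ K' → x ∈ O ∧ chartAt (E d) x₀ x ∈ N') →
  ContDiffOn ℝ ∞ s' ((chartAt (E d) x₀ '' O) \ (chartAt (E d) x₀ '' (K' ∩ O))) →
  (∀ p ∈ (chartAt (E d) x₀ '' O) \ (chartAt (E d) x₀ '' (K' ∩ O)), extDeriv s' p = 0) →
  (∀ p ∈ (chartAt (E d) x₀ '' O) \ N', s' p = pb (chartAt (E d) x₀).symm σ p) →
  SmoothOff σ K → IsDOff σ 0 K →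
  SmoothOff (patch x₀ O s' σ) K' ∧ IsDOff (patch x₀ O s' σ) 0 K' ∧
  (∀ x, x ∉ O ∨ chartAt (E d) x₀ x ∉ N' → patch x₀ O s' σ x = σ x) ∧
  ∀ p ∈ chartAt (E d) x₀ '' O, pb (chartAt (E d) x₀).symm (patch x₀ O s' σ) p = s' p

end Pool.Agent.Y501.SY
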