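import Pool.Agent.Y501.SY.StmS
import Pool.Agent.Y455.SY.Pert

/-!
Removable singularities of taming forms: statements of the last steps.
-/

set_option autoImplicit false

open Set Filter Topology MeasureTheory
open scoped Manifold ContDiff

noncomputable section

namespace Pool.Agent.Y501.SY

section

variable {d : ℕ} {X : Type} [TopologicalSpace X] [ChartedSpace (E d) X]

/-- the norm of the metric induced by the immersion `F` -/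
def nm {m : ℕ} (F : X → E m) (x : X) (v : TangentSpace (𝓡 d) x) : ℝ :=
  norm (E := E m) (mfderiv (𝓡 d) (𝓡 m) F x v)

end

/-- an immersion of `X` in a Euclidean space is comparable with the norm in compact subsets of
the charts -/
def S_IMM : Prop := ∀ (d m : ℕ) (X : Type) [TopologicalSpace X] [ChartedSpace (E d) X]
  [IsManifold (𝓡 d) ∞ X] (F : X → E m), ContMDiff (𝓡 d) (𝓡 m) ∞ F →
  (∀ x, Function.Injective (mfderiv (𝓡 d) (𝓡 m) F x)) →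
  ∀ (x₀ : X) (N : Set (E d)), IsCompact N → N ⊆ (chartAt (E d) x₀).target →
  ∃ c C : ℝ, 0 < c ∧ 0 < C ∧ ∀ p ∈ N, ∀ v : E d,
    c * ‖v‖ ≤ nm F ((chartAt (E d) x₀).symm p)
      (mfderiv (𝓡 d) (𝓡 d) (chartAt (E d) x₀).symm p v) ∧
    nm F ((chartAt (E d) x₀).symm p)
      (mfderiv (𝓡 d) (𝓡 d) (chartAt (E d) x₀).symm p v) ≤ C * ‖v‖

/-- bounds for a smooth form and its quadratic form on compact subsets of the charts -/
def S_QB : Prop := ∀ (d : ℕ) (X : Type) [TopologicalSpace X] [ChartedSpace (E d) X]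
  [IsManifold (𝓡 d) ∞ X] (J : End d X), IsAlmostComplex J → ∀ (τ : Form d X 2), IsSmooth τ →
  ∀ (x₀ : X) (N : Set (E d)), IsCompact N → N ⊆ (chartAt (E d) x₀).target →
  (∃ C : ℝ, 0 < C ∧ ∀ p ∈ N, ‖pb (chartAt (E d) x₀).symm τ p‖ ≤ C ∧ ‖inChart J x₀ p‖ ≤ C ∧
    ∀ v : E d, |pb (chartAt (E d) x₀).symm τ p ![v, inChart J x₀ p v]| ≤ C * ‖v‖ ^ 2) ∧
  ((∀ p ∈ N, TamesAt τ J ((chartAt (E d) x₀).symm p)) → ∃ c : ℝ, 0 < c ∧ ∀ p ∈ N, ∀ v : E d,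
    c * ‖v‖ ^ 2 ≤ pb (chartAt (E d) x₀).symm τ p ![v, inChart J x₀ p v])

/-- local regularization of a uniformly taming form -/
def S_LREG : Prop := S_RG → S_KER → S_SM → ∀ (d : ℕ) (V k : Set (E d)) (χ : E d → ℝ)
  (s t : E d → (E d) [⋀^Fin 2]→L[ℝ] ℝ) (Js : E d → (E d →L[ℝ] E d)) (B c : ℝ), 0 < c →
  IsOpen V → k ⊆ V → IsOpen (V \ k) → (∀ Q : Set (E d), IsCompact Q → Q ⊆ V → Cap (k ∩ Q)) →
  ContDiff ℝ ∞ χ → (∀ p, 0 ≤ χ p) → HasCompactSupport χ → tsupport χ ⊆ V →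
  ContDiffOn ℝ ∞ s (V \ k) → (∀ p ∈ V \ k, extDeriv s p = 0) → (∀ p ∈ V \ k, ‖s p‖ ≤ B) →
  ContDiffOn ℝ ∞ t V → (∀ p ∈ V, extDeriv t p = 0) → (∀ p ∈ V, ‖t p‖ ≤ B) →
  ContinuousOn Js V → (∀ p ∈ V, ‖Js p‖ ≤ B) →
  (∀ p ∈ V, ∀ v : E d, c * ‖v‖ ^ 2 ≤ t p ![v, Js p v]) →
  (∀ p ∈ V \ k, ∀ v : E d, c * ‖v‖ ^ 2 ≤ s p ![v, Js p v]) →
  ∃ (s' : E d → (E d) [⋀^Fin 2]→L[ℝ] ℝ) (B' c' : ℝ), 0 < c' ∧
    ContDiffOn ℝ ∞ s' (V \ (k ∩ {p | χ p = 0})) ∧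
    (∀ p ∈ V \ (k ∩ {p | χ p = 0}), extDeriv s' p = 0) ∧
    (∀ p ∈ V \ (k ∩ {p | χ p = 0}), ‖s' p‖ ≤ B') ∧
    (∀ p, χ p = 0 → s' p = s p) ∧
    ∀ p ∈ V \ (k ∩ {p | χ p = 0}), ∀ v : E d, c' * ‖v‖ ^ 2 ≤ s' p ![v, Js p v]

section

variable {d : ℕ} {X : Type} [TopologicalSpace X] [ChartedSpace (E d) X]

/-- `σ` is bounded off `K` near `x`. -/
def BddAt (σ : Form d X 2) (K : Set X) (x : X) : Prop :=
  ∃ B : ℝ, ∀ᶠ p in 𝓝 (chartAt (E d) x x), (chartAt (E d) x).symm p ∉ K →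
    ‖pb (chartAt (E d) x).symm σ p‖ ≤ B

/-- `σ` tames `J` uniformly off `K` near `x`. -/
def UTAt (σ : Form d X 2) (J : End d X) (K : Set X) (x : X) : Prop :=
  ∃ c : ℝ, 0 < c ∧ ∀ᶠ p in 𝓝 (chartAt (E d) x x), (chartAt (E d) x).symm p ∉ K →
    ∀ v : E d, c * ‖v‖ ^ 2 ≤ pb (chartAt (E d) x).symm σ p ![v, inChart J x p v]

/-- smooth, closed, bounded and uniformly taming forms on the complement of `K` -/
structure UT {m : ℕ} (F : X → E m) (J : End d X) (σ : Form d X 2) (K : Set X) : Prop where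
  smooth : SmoothOff σ K
  closed : IsDOff σ 0 K
  bdd : ∃ B : ℝ, 0 < B ∧ ∀ x, x ∉ K → ∀ v w : TangentSpace (𝓡 d) x,
    |σ x ![v, w]| ≤ B * nm F x v * nm F x w
  pos : ∃ c : ℝ, 0 < c ∧ ∀ x, x ∉ K → ∀ v : TangentSpace (𝓡 d) x,
    c * nm F x v ^ 2 ≤ σ x ![v, J x v]

end

/-- adding a small multiple of a form which is taming where the given form is not uniformly
taming -/
def S_GLOB : Prop := S_IMM → S_QB → ∀ (d m : ℕ) (X : Type) [TopologicalSpace X]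
  [ChartedSpace (E d) X] [IsManifold (𝓡 d) ∞ X] [CompactSpace X] [T2Space X] (F : X → E m),
  ContMDiff (𝓡 d) (𝓡 m) ∞ F → (∀ x, Function.Injective (mfderiv (𝓡 d) (𝓡 m) F x)) →
  ∀ (J : End d X), IsAlmostComplex J → ∀ (σ η : Form d X 2) (K : Set X), IsClosed K →
  SmoothOff σ K → IsDOff σ 0 K → IsSmooth η → IsClosedForm η → (∀ x, BddAt σ K x) →
  (∀ x, x ∉ K → ∀ v : TangentSpace (𝓡 d) x, 0 ≤ σ x ![v, J x v]) →
  (∀ x, UTAt σ J K x ∨ TamesAt η J x) → ∃ s : ℝ, 0 < s ∧ UT F J (σ + s • η) K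

/-- one step of the regularization -/
def S_STEP : Prop := ∀ (d m : ℕ) (X : Type) [TopologicalSpace X]
  [ChartedSpace (E d) X] [IsManifold (𝓡 d) ∞ X] [CompactSpace X] [T2Space X] (F : X → E m),
  ContMDiff (𝓡 d) (𝓡 m) ∞ F → (∀ x, Function.Injective (mfderiv (𝓡 d) (𝓡 m) F x)) →
  ∀ (J : End d X), IsAlmostComplex J → 1 ≤ d → ∀ A : Set X, IsOpen A → ∀ z ∈ A,
  ∃ W : Set X, IsOpen W ∧ z ∈ W ∧ ∀ (K : Set X) (w : Form d X 2), IsClosed K →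
    (∀ x₀ : X, μH[(d : ℝ) - 1] (chartAt (E d) x₀ '' (K ∩ (chartAt (E d) x₀).source)) = 0) →
    UT F J w K → ∃ w' : Form d X 2, UT F J w' (K \ W) ∧ ∀ x, x ∉ A → w' x = w x

end Pool.Agent.Y501.SY
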