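import Pool.Agent.Y501.SY.StmA

/-!
Averaging bounded one-forms over amenable coverings: statements of the steps.
-/

set_option autoImplicit false

open Set Filter Topology MeasureTheory
open scoped Manifold ContDiff

noncomputable section

namespace Pool.Agent.Y501.SY

/-- the pull-back of a one-form on `Y` by a map `X → Y` -/
def pull1 {d m : ℕ} {X Y : Type} [TopologicalSpace X] [ChartedSpace (E d) X]
    [TopologicalSpace Y] [ChartedSpace (E m) Y] (f : X → Y) (β : Form m Y 1) : Form d X 1 :=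
  fun x => ((β (f x)).compContinuousLinearMap (mfderiv (𝓡 d) (𝓡 m) f x))

section

variable {d : ℕ} {Z : Type} [TopologicalSpace Z] [ChartedSpace (E d) Z]

/-- The translates of the one-form `β` by the group `Γ` are locally uniformly bounded, with all
their derivatives. -/
def BoundedTranslates1 {Γ : Type} [Group Γ] [MulAction Γ Z] (β : Form d Z 1) : Prop :=
  ∀ (U : Set (E d)) (φ : E d → Z), IsOpen U → ContMDiffOn (𝓡 d) (𝓡 d) ∞ φ U →
    UnifBdd (fun (γ : Γ) => pb (fun p => γ • φ p) β) U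

end

/-- the exterior derivative of a one-form with bounded translates has bounded translates -/
def S_BT : Prop := ∀ (d : ℕ) (Z : Type) [TopologicalSpace Z] [ChartedSpace (E d) Z]
  [IsManifold (𝓡 d) ∞ Z] (Γ : Type) [Group Γ] [MulAction Γ Z],
  (∀ γ : Γ, ContMDiff (𝓡 d) (𝓡 d) ∞ (fun z : Z => γ • z)) →
  ∀ (β : Form d Z 1) (η : Form d Z 2), IsSmooth β → IsSmooth η → IsD β η →
  BoundedTranslates1 (Γ := Γ) β → BoundedTranslates (Γ := Γ) η

/-- the averages of the translates of a one-form and of its exterior derivative -/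
def S_MEAN1 : Prop := S_AVG → ∀ (d : ℕ) (Z : Type) [TopologicalSpace Z] [ChartedSpace (E d) Z]
  [IsManifold (𝓡 d) ∞ Z] (Γ : Type) [Group Γ] [MulAction Γ Z] (m : (Γ → ℝ) → ℝ), IsMean m →
  (∀ γ : Γ, ContMDiff (𝓡 d) (𝓡 d) ∞ (fun z : Z => γ • z)) →
  ∀ (β : Form d Z 1) (η : Form d Z 2), IsSmooth β → IsSmooth η → IsD β η →
  BoundedTranslates1 (Γ := Γ) β → BoundedTranslates (Γ := Γ) η →
  ∃ (β' : Form d Z 1) (η' : Form d Z 2), IsSmooth β' ∧ IsSmooth η' ∧ IsD β' η' ∧
    (∀ (z : Z) (u : Fin 1 → TangentSpace (𝓡 d) z),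
      Bdd (fun γ : Γ => pull1 (d := d) (fun z : Z => γ • z) β z u) ∧
      β' z u = m (fun γ : Γ => pull1 (d := d) (fun z : Z => γ • z) β z u)) ∧
    ∀ (z : Z) (u : Fin 2 → TangentSpace (𝓡 d) z),
      Bdd (fun γ : Γ => pull (d := d) (fun z : Z => γ • z) η z u) ∧
      η' z u = m (fun γ : Γ => pull (d := d) (fun z : Z => γ • z) η z u)

/-- invariant one-forms and their exterior derivatives descend -/
def S_DESC1 : Prop := ∀ (d : ℕ) (Z X : Type) [TopologicalSpace Z] [ChartedSpace (E d) Z]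
  [IsManifold (𝓡 d) ∞ Z] [TopologicalSpace X] [ChartedSpace (E d) X]
  [IsManifold (𝓡 d) ∞ X] (Γ : Type) [Group Γ] [MulAction Γ Z] (pr : Z → X),
  (∀ γ : Γ, ContMDiff (𝓡 d) (𝓡 d) ∞ (fun z : Z => γ • z)) →
  IsLocalDiffeomorph (𝓡 d) (𝓡 d) ∞ pr → Function.Surjective pr →
  (∀ z z' : Z, pr z = pr z' ↔ ∃ γ : Γ, γ • z = z') →
  ∀ (β : Form d Z 1) (η : Form d Z 2), IsSmooth β → IsSmooth η → IsD β η →
  (∀ γ : Γ, pull1 (d := d) (fun z : Z => γ • z) β = β) →
  (∀ γ : Γ, pull (d := d) (fun z : Z => γ • z) η = η) →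
  ∃ (α : Form d X 1) (ρ : Form d X 2), IsSmooth α ∧ IsSmooth ρ ∧ IsD α ρ ∧
    pull1 (d := d) pr α = β ∧ pull (d := d) pr ρ = η

end Pool.Agent.Y501.SY
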